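import Pool.Agent.SawM2.EnC
import Pool.Agent.Bub4.L2

/-!
# Self-avoiding walks of bounded amplitude and time reversal: definitions
-/

set_option autoImplicit false

namespace Pool.Agent.Taw

open Finset Filter Topology Pool.Agent.Bub4 Pool.Agent.SawM2

section gen

variable {S V : Type} [Fintype S] [AddCommGroup V]

/-- weight of the right extensions of length `n` -/
noncomputable def fx (Y : Sys S V) (w : List S) (n : ℕ) : ℝ := Y.E n fun v => Y.sv (w ++ v)

/-- A right consistent weight that decreases under left extensions and controls the number of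
right extensions. -/
structure Cf0 (Y : Sys S V) (K : ℝ) (g : List S → ℝ) : Prop where
  a_ge : ∀ n, 1 ≤ Y.a n
  a_le : ∀ n, Y.a n ≤ K
  nonneg : ∀ w, 0 ≤ g w
  le_sv : ∀ w, g w ≤ K * Y.sv w
  nil : g [] = 1
  right : ∀ u n, (Y.E n fun v => g (u ++ v)) = g u
  drop : ∀ u v, g (u ++ v) ≤ g v
  up : ∀ w, ∀ ε > 0, ∀ᶠ n in atTop, fx Y w n ≤ K ^ 2 * g w + ε

/-- A conformal weight: `z ^ |w| * g w` is the probability that a random infinite self-avoiding
walk starts with `w`, and `g w` is the probability that it does not meet `w` if it is attached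
to the end of `w`. -/
structure Cf (Y : Sys S V) (K B : ℝ) (g : List S → ℝ) : Prop where
  a_ge : ∀ n, 1 ≤ Y.a n
  a_le : ∀ n, Y.a n ≤ K
  nonneg : ∀ w, 0 ≤ g w
  le_sv : ∀ w, g w ≤ Y.sv w
  nil : g [] = 1
  right : ∀ u n, (Y.E n fun v => g (u ++ v)) = g u
  drop : ∀ u v, g (u ++ v) ≤ g v
  conf : ∀ w, Tendsto (fun n => Y.E n fun v => Y.sv (w ++ v) * g v) atTop (𝓝 (g w))
  up : ∀ w, ∀ ε > 0, ∀ᶠ n in atTop, fx Y w n ≤ B * g w + ε

/-- the defect: probability that the walk meets `w` only after time `n` -/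
noncomputable def et (Y : Sys S V) (g : List S → ℝ) (w : List S) (n : ℕ) : ℝ :=
  (Y.E n fun v => Y.sv (w ++ v) * g v) - g w

/-- energy of the words with `κ ≤ g` and lengths in `I` -/
noncomputable def L2s (Y : Sys S V) (g : List S → ℝ) (κ : ℝ) (I : Finset ℕ) : ℝ :=
  ∑ i ∈ I, ∑ j ∈ I, Y.E i fun u => Y.E j fun v =>
    ind (κ ≤ g u) * ind (κ ≤ g v) * dl (Y.sm u - Y.sm v)

/-- all these energies are bounded -/
def HL2 (Y : Sys S V) (g : List S → ℝ) : Prop :=
  ∀ κ : ℝ, 0 < κ → ∃ C : ℝ, ∀ N : ℕ, L2s Y g κ (range N) ≤ C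

/-- expectation for two independent walks of length `M` -/
noncomputable def PP (Y : Sys S V) (g : List S → ℝ) (M : ℕ) (φ : List S → List S → ℝ) : ℝ :=
  Y.E M fun u => Y.E M fun v => g u * g v * φ u v

/-- the walks `y + u` and `v` are disjoint up to time `m` -/
def Dj (Y : Sys S V) (y : V) (m : ℕ) (u v : List S) : Prop :=
  ∀ s ≤ m, ∀ t ≤ m, y + Y.sm (u.take s) ≠ Y.sm (v.take t)

/-- the word traversed backwards -/
def bar (Y : Sys S V) (w : List S) : List S := (w.map Y.neg).reverse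

open Classical in
/-- number of occurrences of `γ` in `w` -/
noncomputable def cnt (γ w : List S) : ℕ :=
  ((range (w.length + 1)).filter fun i => γ <+: w.drop i).card

/-- no arrow of time: for arbitrarily large `n` most self-avoiding words of length `n` contain
every pattern of length `k` nearly as often as the reversed pattern -/
def NoArr (Y : Sys S V) : Prop :=
  ∀ (k : ℕ) (δ : ℝ), 0 < δ → ∀ n0 : ℕ, ∃ n ≥ n0,
    (Y.E n fun w => Y.sv w * ind (∃ γ : List S, γ.length = k ∧
      δ * n ≤ |(cnt γ w : ℝ) - cnt (bar Y γ) w|)) ≤ δ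

/-- frequency of `w` at the first `n` places of `u` -/
noncomputable def Fq (w : List S) (n : ℕ) (u : List S) : ℝ :=
  (n : ℝ)⁻¹ * ∑ i ∈ range n, ind ((u.drop i).take w.length = w)

/-- the window of length `m` at the place `i` -/
def wn (i m : ℕ) (u : List S) : List S := (u.drop i).take m

/-- the density of `γ` -/
noncomputable def Dn (g : List S → ℝ) (γ : List S → List S → ℝ) (u v : List S) : ℝ :=
  γ u v / (g u * g v)

/-- A stationary law whose words are dominated by pairs of independent walks. -/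
structure Rh (Y : Sys S V) (K B : ℝ) (g ρ : List S → ℝ) : Prop where
  nonneg : ∀ u, 0 ≤ ρ u
  le : ∀ u, ρ u ≤ K * g u
  nil : ρ [] = 1
  right : ∀ (u : List S) (n : ℕ), (Y.E n fun v => ρ (u ++ v)) = ρ u
  left : ∀ (u : List S) (n : ℕ), (Y.E n fun v => ρ (v ++ u)) = ρ u
  two : ∀ u v : List S, ρ (bar Y u ++ v) ≤ B * g u * g v
  ces : ∀ (m : ℕ) (φ : List S → ℝ) (c : ℝ),
    (∀ᶠ N : ℕ in atTop, c ≤ (N : ℝ)⁻¹ * ∑ i ∈ range N, Y.E (i + m) fun w => g w * φ (wn i m w)) →
    c ≤ Y.E m fun w => ρ w * φ w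

end gen

section lat

variable {S : Type} [Fintype S] {d : ℕ}

/-- the steps are nearest neighbour steps and generate the lattice -/
structure Lt (Y : Sys S (Zk d)) : Prop where
  one : ∀ s, n1 (Y.vec s) = 1
  gen : ∀ x : Zk d, ∃ w : List S, Y.sm w = x ∧ w.length = n1 x

/-- near hit of `y + u` and `v` at distance at most `r`, at times in `[k, N]` -/
def Nh (Y : Sys S (Zk d)) (y : Zk d) (r k N : ℕ) (u v : List S) : Prop :=
  ∃ i j, k ≤ i ∧ i ≤ N ∧ k ≤ j ∧ j ≤ N ∧ n1 (y + Y.sm (u.take i) - Y.sm (v.take j)) ≤ r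

/-- `q` is a free word of length at most `r` from the place `s` of `y + u` to the place `t`
of `v` (both of length `M`) -/
structure Fr (Y : Sys S (Zk d)) (y : Zk d) (r M : ℕ) (u v : List S) (s t : ℕ) (q : List S) :
    Prop where
  s_le : s ≤ M
  t_le : t ≤ M
  ne : q ≠ []
  len : q.length ≤ r
  saw : Y.Saw q
  fin : y + Y.sm (u.take s) + Y.sm q = Y.sm (v.take t)
  free_u : ∀ p, 0 < p → p < q.length → ∀ i ≤ M,
    y + Y.sm (u.take s) + Y.sm (q.take p) ≠ y + Y.sm (u.take i)
  free_v : ∀ p, 0 < p → p < q.length → ∀ i ≤ M,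
    y + Y.sm (u.take s) + Y.sm (q.take p) ≠ Y.sm (v.take i)

/-- the weight of good words -/
noncomputable def hh (g : List S → ℝ) (κ : ℝ) (w : List S) : ℝ := g w * ind (κ ≤ g w)

/-- the good words of length less than `N` with prefix `u` (density with respect to `u`) -/
noncomputable def GD (Y : Sys S (Zk d)) (g : List S → ℝ) (κ : ℝ) (u : List S) (N : ℕ) : Fm d :=
  Fm.bs (range (N - u.length)) fun i =>
    ⟨Fin i → S, fun w => Y.z ^ i * hh g κ (u ++ List.ofFn w), fun w => Y.sm (u ++ List.ofFn w)⟩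

/-- the energy -/
noncomputable def EN (Y : Sys S (Zk d)) (g : List S → ℝ) (κ a : ℝ) (N : ℕ) : ℝ :=
  Fm.en a (GD Y g κ [] N) (GD Y g κ [] N)

/-- the normalised energy form -/
noncomputable def ga (Y : Sys S (Zk d)) (g : List S → ℝ) (κ a : ℝ) (N : ℕ) (u v : List S) : ℝ :=
  Fm.en a (GD Y g κ u N) (GD Y g κ v N) / EN Y g κ a N

/-- The properties of the limits of the normalised energy forms. -/
structure Gm (Y : Sys S (Zk d)) (g : List S → ℝ) (κ q : ℝ) (γ : List S → List S → ℝ) :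
    Prop where
  nonneg : ∀ u v, 0 ≤ γ u v
  nil : γ [] [] = 1
  symm : ∀ u v, γ u v = γ v u
  right : ∀ u v n, (Y.E n fun x => γ u (v ++ x)) = γ u v
  dens : ∀ u v, κ ^ 2 * γ u v ≤ g u * g v
  psd : ∀ (k : ℕ) (c : List S → ℝ), 0 ≤ Y.E k fun u => Y.E k fun v => c u * c v * γ u v
  sub : ∀ u v m, q ^ n1 (Y.sm u - Y.sm v) * γ u v ≤
    Y.E m fun b => Y.E m fun b' => Y.sv (u ++ b) * Y.sv (v ++ b') * γ b b'

end lat

end Pool.Agent.Taw
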