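import Pool.Agent.Taw.Geo
import Pool.Agent.Bub4.Bridge

/-!
# Words and lattice paths
-/

set_option autoImplicit false

namespace Pool.Agent.Taw

open Finset Filter Topology Pool.Agent.Bub4 Pool.Agent.SawM2
open Pool.Agent.SubBall (St stv)

theorem stv_injective (m : ℕ) : Function.Injective (stv m) := by
  rintro ⟨i, b⟩ ⟨j, b'⟩ h
  have h1 := congrFun h i
  by_cases hij : i = j
  · subst hij
    cases b <;> cases b' <;> simp [stv] at h1 ⊢
  · cases b <;> cases b' <;> simp [stv, hij] at h1

variable {S V : Type} [Fintype S] [AddCommGroup V] (Y : Sys S V)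

theorem pre_of_sm (hv : Function.Injective Y.vec) : ∀ (γ l : List S), γ.length ≤ l.length →
    (∀ j ≤ γ.length, Y.sm (l.take j) = Y.sm (γ.take j)) → γ <+: l
  | [], l, _, _ => List.nil_prefix
  | s :: t, [], h, _ => by simp at h
  | s :: t, s' :: t', h, hj => by
      have h1 := hj 1 (by simp)
      simp only [List.take_succ_cons, List.take_zero, Sys.sm_cons, Sys.sm_nil, add_zero] at h1
      have h2 : s' = s := hv h1
      subst h2
      rw [List.cons_prefix_cons]
      refine ⟨rfl, pre_of_sm hv t t' (by simpa using h) fun j hj' => ?_⟩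
      have h3 := hj (j + 1) (by simpa using hj')
      simp only [List.take_succ_cons, Sys.sm_cons] at h3
      exact add_left_cancel h3

theorem pre_iff (hv : Function.Injective Y.vec) (γ l : List S) (i : ℕ) :
    (i ≤ l.length ∧ γ <+: l.drop i) ↔ i + γ.length ≤ l.length ∧
      ∀ j ≤ γ.length, Y.sm (l.take (i + j)) - Y.sm (l.take i) = Y.sm (γ.take j) := by
  have key : ∀ j, Y.sm (l.take (i + j)) - Y.sm (l.take i) = Y.sm ((l.drop i).take j) := by
    intro j
    rw [List.take_add, Y.sm_append, add_sub_cancel_left]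
  constructor
  · rintro ⟨hi, r, hr⟩
    have hlen : γ.length + r.length = l.length - i := by
      rw [← List.length_append, hr, List.length_drop]
    refine ⟨by omega, fun j hj => ?_⟩
    rw [key, ← hr, List.take_append_of_le_length hj]
  · rintro ⟨hi, h⟩
    refine ⟨by omega, pre_of_sm Y hv γ _ (by rw [List.length_drop]; omega) fun j hj => ?_⟩
    rw [← key, h j hj]

omit [Fintype S] in
theorem cnt_pos {γ l : List S} (h : 0 < cnt γ l) : γ <:+: l := by
  classical
  unfold cnt at h
  obtain ⟨i, hi⟩ := Finset.card_pos.1 h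
  rw [Finset.mem_filter] at hi
  exact hi.2.isInfix.trans (List.drop_suffix i l).isInfix

omit [Fintype S] in
theorem cnt_ncard (γ l : List S) : cnt γ l = {i : ℕ | i ≤ l.length ∧ γ <+: l.drop i}.ncard := by
  classical
  unfold cnt
  rw [← Set.ncard_coe_finset]
  congr 1
  ext i
  rw [Finset.mem_coe, Finset.mem_filter, Finset.mem_range, Nat.lt_succ_iff]
  rfl

/-- the path of a word -/
def pl (n : ℕ) (l : List S) : Fin (n + 1) → V := fun j => Y.sm (l.take j)

theorem pl_inj (hv : Function.Injective Y.vec) {n : ℕ} {l l' : List S} (hl : l.length = n)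
    (hl' : l'.length = n) (h : pl Y n l = pl Y n l') : l = l' := by
  have h1 : l <+: l' := pre_of_sm Y hv l l' (by omega) fun j hj =>
    (congrFun h ⟨j, by omega⟩).symm
  exact h1.eq_of_length (by omega)

end Pool.Agent.Taw
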