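import Pool.Agent.Taw.Defs

/-!
# First properties of conformal weights
-/

set_option autoImplicit false

namespace Pool.Agent.Taw

open Finset Filter Topology Pool.Agent.Bub4 Pool.Agent.SawM2

variable {S V : Type} [Fintype S] [AddCommGroup V] {Y : Sys S V} {K B : ℝ} {g : List S → ℝ}

-- BEGIN g_le_one
theorem g_le_one (h : Cf Y K B g) (w : List S) : g w ≤ 1 :=
  (h.le_sv w).trans (Y.sv_le_one w)
-- END g_le_one

-- BEGIN one_le_K
theorem one_le_K (h : Cf Y K B g) : 1 ≤ K := (h.a_ge 0).trans (h.a_le 0)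
-- END one_le_K

-- BEGIN E_g
theorem E_g (h : Cf Y K B g) (n : ℕ) : Y.E n g = 1 := by
  have h1 := h.right [] n
  rw [h.nil] at h1
  exact h1
-- END E_g

-- BEGIN B_ge
/-- `h.up []`: `fx Y [] n = Y.a n ≥ 1`, `g [] = 1`. -/
theorem B_ge (h : Cf Y K B g) : 1 ≤ B := by
  apply le_of_forall_pos_le_add
  intro ε hε
  obtain ⟨n, hn⟩ := (h.up [] ε hε).exists
  rw [h.nil, mul_one] at hn
  exact le_trans (h.a_ge n) hn
-- END B_ge

-- BEGIN g_mul_sv
/-- `g w * sv w = g w` -/
theorem g_mul_sv (h : Cf Y K B g) (w : List S) : g w * Y.sv w = g w := by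
  by_cases hs : Y.Saw w
  · rw [Y.sv_of hs, mul_one]
  · have h1 := h.le_sv w
    rw [Y.sv_of_not hs] at h1 ⊢
    have h2 := h.nonneg w
    linarith
-- END g_mul_sv

-- BEGIN g_append_le
/-- `g (u ++ v) ≤ sv (u ++ v) * g v` -/
theorem g_append_le (h : Cf Y K B g) (u v : List S) : g (u ++ v) ≤ Y.sv (u ++ v) * g v := by
  rw [← g_mul_sv h (u ++ v), mul_comm]
  exact mul_le_mul_of_nonneg_left (h.drop u v) (Y.sv_nonneg _)
-- END g_append_le

-- BEGIN E_left
/-- `Y.E m (fun u => sv (u ++ b)) = fx Y b.reverse m` (`E_reverse`, `sv_reverse`,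
`List.reverse_append`), and the same with `bar` (`E_neg`, `sv_neg`). -/
theorem E_left (Y : Sys S V) (b : List S) (m : ℕ) :
    (Y.E m fun u => Y.sv (u ++ b)) = fx Y b.reverse m ∧
      (Y.E m fun u => Y.sv (u ++ b)) = fx Y (bar Y b) m := by
  have h1 : (Y.E m fun u => Y.sv (u ++ b)) = fx Y b.reverse m := by
    unfold fx
    rw [← Y.E_reverse m fun u => Y.sv (u ++ b)]
    refine Y.E_congr fun w _ => ?_
    rw [← Y.sv_reverse (b.reverse ++ w), List.reverse_append, List.reverse_reverse]
  refine ⟨h1, h1.trans ?_⟩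
  unfold fx
  rw [← Y.E_neg m fun v => Y.sv (bar Y b ++ v)]
  refine Y.E_congr fun w _ => ?_
  rw [← Y.sv_neg (b.reverse ++ w), List.map_append]
  unfold bar
  rw [List.map_reverse]
-- END E_left

-- BEGIN E_shift
/-- the law of the shifted walk: `≤ fx Y b.reverse m * g b ≤ K * g b` -/
theorem E_shift (h : Cf Y K B g) (m : ℕ) (b : List S) :
    (Y.E m fun u => g (u ++ b)) ≤ fx Y b.reverse m * g b ∧
      (Y.E m fun u => g (u ++ b)) ≤ K * g b := by
  have h1 : (Y.E m fun u => g (u ++ b)) ≤ fx Y b.reverse m * g b := by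
    rw [← (E_left Y b m).1, ← Y.E_mul_right]
    exact Y.E_mono fun u _ => g_append_le h u b
  refine ⟨h1, h1.trans (mul_le_mul_of_nonneg_right ?_ (h.nonneg b))⟩
  refine le_trans ?_ (h.a_le m)
  exact Y.E_mono fun v _ => Y.sv_infix (List.suffix_append _ v).isInfix
-- END E_shift

-- BEGIN E_take
/-- `E (m + n) (g w * φ (w.take m)) = E m (g u * φ u)` -/
theorem E_take (h : Cf Y K B g) (m n : ℕ) (φ : List S → ℝ) :
    (Y.E (m + n) fun w => g w * φ (w.take m)) = Y.E m fun u => g u * φ u := by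
  rw [Y.E_add]
  refine Y.E_congr fun u hu => ?_
  have h1 : (Y.E n fun v => g (u ++ v) * φ ((u ++ v).take m)) =
      Y.E n fun v => g (u ++ v) * φ u := by
    refine Y.E_congr fun v _ => ?_
    rw [List.take_left' hu]
  rw [h1, Y.E_mul_right, h.right]
-- END E_take

-- BEGIN PP_take
theorem PP_take (h : Cf Y K B g) {m M : ℕ} (hm : m ≤ M) (φ : List S → List S → ℝ) :
    PP Y g M (fun u v => φ (u.take m) (v.take m)) = PP Y g m φ := by
  obtain ⟨n, rfl⟩ : ∃ n, M = m + n := ⟨M - m, by omega⟩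
  unfold PP
  have h1 : ∀ u : List S, (Y.E (m + n) fun v => g u * g v * φ (u.take m) (v.take m)) =
      Y.E m fun v => g u * g v * φ (u.take m) v := by
    intro u
    have h2 := E_take h m n fun v => g u * φ (u.take m) v
    refine Eq.trans (Y.E_congr fun v _ => ?_) (h2.trans (Y.E_congr fun v _ => ?_)) <;> ring
  rw [Y.E_congr fun u _ => h1 u, Y.E_comm, Y.E_comm m m]
  refine Y.E_congr fun v _ => ?_
  have h2 := E_take h m n fun u => g v * φ u v
  refine Eq.trans (Y.E_congr fun u _ => ?_) (h2.trans (Y.E_congr fun u _ => ?_)) <;> ring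
-- END PP_take

-- BEGIN PP_mono
theorem PP_mono (h : Cf Y K B g) (M : ℕ) {φ ψ : List S → List S → ℝ}
    (hφ : ∀ u v, u.length = M → v.length = M → Y.Saw u → Y.Saw v → φ u v ≤ ψ u v) :
    PP Y g M φ ≤ PP Y g M ψ := by
  refine Y.E_mono fun u hu => Y.E_mono fun v hv => ?_
  by_cases hus : Y.Saw u
  · by_cases hvs : Y.Saw v
    · exact mul_le_mul_of_nonneg_left (hφ u v hu hv hus hvs)
        (mul_nonneg (h.nonneg u) (h.nonneg v))
    · have h1 := g_mul_sv h v
      rw [Y.sv_of_not hvs, mul_zero] at h1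
      rw [← h1]
      simp
  · have h1 := g_mul_sv h u
    rw [Y.sv_of_not hus, mul_zero] at h1
    rw [← h1]
    simp
-- END PP_mono

-- BEGIN PP_const
theorem PP_const (h : Cf Y K B g) (M : ℕ) (c : ℝ) : PP Y g M (fun _ _ => c) = c := by
  unfold PP
  have h1 : ∀ u : List S, (Y.E M fun v => g u * g v * c) = g u * c := by
    intro u
    have h2 : (Y.E M fun v => g u * g v * c) = Y.E M fun v => g v * (g u * c) :=
      Y.E_congr fun v _ => by ring
    rw [h2, Y.E_mul_right, show (Y.E M fun v => g v) = 1 from E_g h M, one_mul]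
  rw [Y.E_congr fun u _ => h1 u, Y.E_mul_right, show (Y.E M fun v => g v) = 1 from E_g h M,
    one_mul]
-- END PP_const

-- BEGIN et_facts
/-- `0 ≤ et`, it decreases (`sv (w ++ v ++ x) * g (v ++ x) ≤ sv (w ++ v) * g (v ++ x)`) and tends
to `0` (`h.conf`). -/
theorem et_facts (h : Cf Y K B g) (w : List S) :
    (∀ n, 0 ≤ et Y g w n) ∧ Antitone (et Y g w) ∧ Tendsto (et Y g w) atTop (𝓝 0) := by
  refine ⟨fun n => ?_, antitone_nat_of_succ_le fun n => ?_, ?_⟩
  · unfold et
    rw [sub_nonneg, ← h.right w n]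
    exact Y.E_mono fun v _ => g_append_le h w v
  · unfold et
    rw [Y.E_add n 1]
    refine sub_le_sub_right (Y.E_mono fun v _ => ?_) _
    have h1 : (Y.E 1 fun x => Y.sv (w ++ (v ++ x)) * g (v ++ x)) ≤
        Y.E 1 fun x => Y.sv (w ++ v) * g (v ++ x) := by
      refine Y.E_mono fun x _ => mul_le_mul_of_nonneg_right ?_ (h.nonneg _)
      rw [← List.append_assoc]
      exact Y.sv_infix (List.prefix_append _ x).isInfix
    rw [Y.E_mul_left, h.right] at h1
    exact h1
  · have h1 := (h.conf w).sub_const (g w)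
    rw [sub_self] at h1
    exact h1
-- END et_facts

-- BEGIN et_eq
/-- `et Y g w n = Y.E n (fun v => sv (w ++ v) * g v - g (w ++ v))` with nonnegative terms
(`g_append_le`). -/
theorem et_eq (h : Cf Y K B g) (w : List S) (n : ℕ) :
    et Y g w n = Y.E n fun v => Y.sv (w ++ v) * g v - g (w ++ v) := by
  rw [Y.E_fsub, h.right]
  rfl
-- END et_eq

-- BEGIN transience
private theorem transience_inj {w : List S} (hw : Y.Saw w) {i j : ℕ} (hij : i < j) (hj : j ≤ w.length) :
    Y.sm (w.take i) ≠ Y.sm (w.take j) := by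
  intro e
  have hb : (w.take j).drop i <:+: w :=
    (List.drop_suffix i _).isInfix.trans (List.take_prefix j w).isInfix
  have hne : (w.take j).drop i ≠ [] := by
    intro h0
    have := congrArg List.length h0
    rw [List.length_drop, List.length_take, List.length_nil] at this
    omega
  have h1 : w.take j = w.take i ++ (w.take j).drop i := by
    have := List.take_append_drop i (w.take j)
    rw [List.take_take, min_eq_left hij.le] at this
    exact this.symm
  have h2 : Y.sm (w.take j) = Y.sm (w.take i) + Y.sm ((w.take j).drop i) := by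
    conv_lhs => rw [h1]
    unfold Sys.sm
    rw [List.map_append, List.sum_append]
  rw [← e] at h2
  exact hw _ hb hne (left_eq_add.1 h2)

private theorem transience_card {w : List S} (hw : Y.Saw w) (Ω : Finset V) :
    ∑ i ∈ range (w.length + 1), ind (Y.sm (w.take i) ∈ Ω) ≤ (Ω.card : ℝ) := by
  classical
  have e : ∑ i ∈ range (w.length + 1), ind (Y.sm (w.take i) ∈ Ω) =
      (((range (w.length + 1)).filter fun i => Y.sm (w.take i) ∈ Ω).card : ℝ) := by
    rw [Finset.card_filter]
    push_cast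
    apply Finset.sum_congr rfl
    intro i _
    by_cases hi : Y.sm (w.take i) ∈ Ω
    · rw [ind_of hi, if_pos hi]
    · rw [ind_not hi, if_neg hi]
  rw [e]
  have : ((range (w.length + 1)).filter fun i => Y.sm (w.take i) ∈ Ω).card ≤ Ω.card := by
    apply Finset.card_le_card_of_injOn (fun i => Y.sm (w.take i))
    · intro i hi
      rw [Finset.mem_coe, Finset.mem_filter] at hi
      exact hi.2
    · intro i hi j hj hij
      rw [Finset.mem_coe, Finset.mem_filter, Finset.mem_range] at hi hj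
      rcases lt_trichotomy i j with hlt | heq | hlt
      · exact absurd hij (transience_inj hw hlt (by omega))
      · exact heq
      · exact absurd hij.symm (transience_inj hw hlt (by omega))
  exact_mod_cast this

/-- Every point is visited at most once, so for a finite set `Ω` the expected number of visits to
`Ω` at times `≤ M` is at most `Ω.card` (`g w ≠ 0` only for self-avoiding `w`, for which
`i ↦ Y.sm (w.take i)` is injective on `[0, |w|]`); the visits after time `k` have small
expectation: `c i = Y.E i (fun w => g w * ind (Y.sm w ∈ Ω))` is the probability of a visit at time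
`i` (`E_take`), `∑ i ≤ M, c i ≤ Ω.card`, so `∑ c` converges and its tails are small. -/
theorem transience (h : Cf Y K B g) (Ω : Finset V) {ε : ℝ} (hε : 0 < ε) :
    ∃ k : ℕ, ∀ M : ℕ,
      (Y.E M fun w => g w * ind (∃ i, k ≤ i ∧ i ≤ M ∧ Y.sm (w.take i) ∈ Ω)) ≤ ε := by
  set c : ℕ → ℝ := fun i => Y.E i (fun w => g w * ind (Y.sm w ∈ Ω)) with hc
  have hc0 : ∀ i, 0 ≤ c i := fun i => Y.E_nonneg' fun w => mul_nonneg (h.nonneg w) (ind_nonneg _)
  have hcM : ∀ M i, i ≤ M → c i = Y.E M fun w => g w * ind (Y.sm (w.take i) ∈ Ω) := by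
    intro M i hi
    have e := E_take h i (M - i) (fun w => ind (Y.sm w ∈ Ω))
    rw [show i + (M - i) = M by omega] at e
    exact e.symm
  have hsum : ∀ (M : ℕ) (s : Finset ℕ), (∀ i ∈ s, i ≤ M) → ∑ i ∈ s, c i =
      Y.E M fun w => g w * ∑ i ∈ s, ind (Y.sm (w.take i) ∈ Ω) := by
    intro M s hs
    rw [Finset.sum_congr rfl (fun i hi => hcM M i (hs i hi)), ← Y.E_fsum]
    apply Y.E_congr
    intro w _
    rw [Finset.mul_sum]
  have hbd : ∀ n, ∑ i ∈ range n, c i ≤ Ω.card := by
    intro n
    have h1 : ∑ i ∈ range n, c i ≤ ∑ i ∈ range (n + 1), c i := by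
      rw [Finset.sum_range_succ]
      linarith [hc0 n]
    refine h1.trans ?_
    rw [hsum n (range (n + 1)) (fun i hi => by rw [Finset.mem_range] at hi; omega)]
    have h2 : (Y.E n fun w => g w * (Ω.card : ℝ)) = Ω.card := by
      rw [Y.E_mul_right, E_g h, one_mul]
    rw [← h2]
    apply Y.E_mono
    intro w hw
    by_cases hs : Y.Saw w
    · apply mul_le_mul_of_nonneg_left _ (h.nonneg w)
      have := transience_card hs Ω
      rwa [hw] at this
    · have h0 : g w = 0 := by
        rw [← g_mul_sv h w, Y.sv_of_not hs, mul_zero]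
      rw [h0, zero_mul, zero_mul]
  have hS : Summable c := summable_of_sum_range_le hc0 hbd
  have hT := hS.hasSum.tendsto_sum_nat
  obtain ⟨k, hk⟩ := (hT.eventually (lt_mem_nhds (show tsum c - ε < tsum c by linarith))).exists
  refine ⟨k, fun M => ?_⟩
  by_cases hkM : k ≤ M + 1
  · have h1 : (Y.E M fun w => g w * ind (∃ i, k ≤ i ∧ i ≤ M ∧ Y.sm (w.take i) ∈ Ω)) ≤
        ∑ i ∈ Ico k (M + 1), c i := by
      rw [hsum M (Ico k (M + 1)) (fun i hi => by rw [Finset.mem_Ico] at hi; omega)]
      apply Y.E_mono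
      intro w _
      apply mul_le_mul_of_nonneg_left _ (h.nonneg w)
      by_cases hex : ∃ i, k ≤ i ∧ i ≤ M ∧ Y.sm (w.take i) ∈ Ω
      · rw [ind_of hex]
        obtain ⟨i, hi1, hi2, hi3⟩ := hex
        rw [← ind_of hi3]
        exact Finset.single_le_sum (f := fun i => ind (Y.sm (w.take i) ∈ Ω)) (fun j _ => ind_nonneg _)
          (Finset.mem_Ico.2 ⟨hi1, by omega⟩)
      · rw [ind_not hex]
        exact Finset.sum_nonneg fun _ _ => ind_nonneg _
    refine h1.trans ?_
    rw [Finset.sum_Ico_eq_sub _ hkM]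
    have h2 : ∑ i ∈ range (M + 1), c i ≤ tsum c := hS.sum_le_tsum _ (fun i _ => hc0 i)
    linarith
  · have : (Y.E M fun w => g w * ind (∃ i, k ≤ i ∧ i ≤ M ∧ Y.sm (w.take i) ∈ Ω)) = 0 := by
      rw [← Y.E_zero_fun M]
      apply Y.E_congr
      intro w _
      rw [ind_not, mul_zero]
      rintro ⟨i, hi1, hi2, _⟩
      omega
    rw [this]
    exact hε.le
-- END transience

end Pool.Agent.Taw
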