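import Pool.Agent.Taw.Defs

/-!
# The conformal weight (section 1 of the page)
-/

set_option autoImplicit false

namespace Pool.Agent.Taw

open Finset Filter Topology Pool.Agent.Bub4 Pool.Agent.SawM2

variable {S V : Type} [Fintype S] [AddCommGroup V] {Y : Sys S V} {K : ℝ} {g : List S → ℝ}

-- BEGIN fx_add
/-- `fx Y w (m + n) ≤ fx Y w m * Y.a n` (`E_add`, `sv (w ++ u ++ v) ≤ sv (w ++ u) * sv v`). -/
theorem fx_add (Y : Sys S V) (w : List S) (m n : ℕ) : fx Y w (m + n) ≤ fx Y w m * Y.a n := by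
  unfold fx Sys.a
  rw [Y.E_add, ← Y.E_mul_right]
  refine Y.E_mono fun u _ => ?_
  rw [← Y.E_mul_left]
  refine Y.E_mono fun v _ => ?_
  rw [← List.append_assoc]
  exact Y.sv_append_le (w ++ u) v
-- END fx_add

-- BEGIN fx_le
/-- `0 ≤ fx Y w n ≤ Y.sv w * Y.a n`. -/
theorem fx_le (Y : Sys S V) (w : List S) (n : ℕ) :
    0 ≤ fx Y w n ∧ fx Y w n ≤ Y.sv w * Y.a n := by
  refine ⟨Y.E_nonneg' fun v => Y.sv_nonneg _, ?_⟩
  have h : Y.E n (fun v => Y.sv w * Y.sv v) = Y.sv w * Y.a n := by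
    rw [Y.E_mul_left]
    rfl
  rw [← h]
  exact Y.E_mono fun v _ => Y.sv_append_le w v
-- END fx_le

-- BEGIN lim0
private theorem lim0_ex (U : Ultrafilter ℕ) {f : ℕ → ℝ} {a b : ℝ} (h : ∀ n, f n ∈ Set.Icc a b) :
    ∃ L, L ∈ Set.Icc a b ∧ Tendsto f U (𝓝 L) := by
  have h1 : ((U.map f : Ultrafilter ℝ) : Filter ℝ) ≤ 𝓟 (Set.Icc a b) := by
    rw [le_principal_iff]
    exact Filter.mem_map.2 (Filter.univ_mem' h)
  obtain ⟨L, hL, h2⟩ := isCompact_Icc.ultrafilter_le_nhds (U.map f) h1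
  exact ⟨L, hL, h2⟩

private theorem lim0_shift (Y : Sys S V) (u : List S) (m n : ℕ) :
    (Y.E m fun v => fx Y (u ++ v) n) = fx Y u (m + n) := by
  unfold fx
  rw [Y.E_add]
  refine Y.E_congr fun v _ => Y.E_congr fun x _ => ?_
  rw [List.append_assoc]

/-- Existence of a right consistent weight. Let `U` be the ultrafilter `hyperfilter ℕ`,
`e w = lim_U (1/N) ∑ n < N, fx Y w n` (bounded by `K`, use `Filter.Tendsto` along an ultrafilter
of a bounded real sequence: compactness of `Icc 0 K`), `g w = e w / e []`.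
`right`: `Y.E m (fun v => fx Y (u ++ v) n) = fx Y u (m + n)` and a shift changes the averages by
at most `2 m K / N`. `drop`: `sv (u ++ v ++ x) ≤ sv (v ++ x)`. `e [] ∈ [1, K]` as `fx Y [] n = a n`.
`up`: `fx Y w n ≤ K * fx Y w m` for `m ≤ n` (`fx_add`), so `L = limsup_n fx Y w n ≤ K * fx Y w m`
for all `m`, `e w ≥ L / K`, `g w ≥ L / K ^ 2`. -/
theorem lim0 (Y : Sys S V) {K : ℝ} (h1 : ∀ n, 1 ≤ Y.a n) (hK : ∀ n, Y.a n ≤ K) :
    ∃ g : List S → ℝ, Cf0 Y K g := by
  classical
  have hK1 : 1 ≤ K := (h1 0).trans (hK 0)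
  have hK0 : 0 < K := by linarith
  have hUat : ((hyperfilter ℕ : Ultrafilter ℕ) : Filter ℕ) ≤ atTop := Nat.hyperfilter_le_atTop
  obtain ⟨f, hf⟩ : ∃ f : List S → ℕ → ℝ,
      ∀ w N, f w N = (N : ℝ)⁻¹ * ∑ n ∈ range N, fx Y w n := ⟨_, fun _ _ => rfl⟩
  have hfx0 : ∀ w n, 0 ≤ fx Y w n := fun w n => (fx_le Y w n).1
  have hfxs : ∀ w n, fx Y w n ≤ K * Y.sv w := fun w n => by
    refine (fx_le Y w n).2.trans ?_
    rw [mul_comm K]
    exact mul_le_mul_of_nonneg_left (hK n) (Y.sv_nonneg w)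
  have hfxK : ∀ w n, fx Y w n ≤ K := fun w n => (hfxs w n).trans (by
    have := Y.sv_le_one w
    nlinarith)
  have havg : ∀ (w : List S) (c : ℝ), 0 ≤ c → (∀ n, fx Y w n ≤ c) → ∀ N, f w N ≤ c := by
    intro w c hc h N
    rw [hf]
    rcases Nat.eq_zero_or_pos N with rfl | hN
    · simpa using hc
    · have hN' : (0 : ℝ) < N := by exact_mod_cast hN
      have h2 : ∑ n ∈ range N, fx Y w n ≤ N * c := by
        have := Finset.sum_le_sum (s := range N) fun n _ => h n
        simpa using this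
      rw [inv_mul_le_iff₀ hN']
      exact h2
  have hlow : ∀ (w : List S) (c : ℝ), (∀ n, c ≤ fx Y w n) → ∀ N, 0 < N → c ≤ f w N := by
    intro w c h N hN
    rw [hf]
    have hN' : (0 : ℝ) < N := by exact_mod_cast hN
    have h2 : N * c ≤ ∑ n ∈ range N, fx Y w n := by
      have := Finset.sum_le_sum (s := range N) fun n _ => h n
      simpa using this
    rw [le_inv_mul_iff₀ hN']
    exact h2
  have hf0 : ∀ w N, 0 ≤ f w N := fun w N => by
    rw [hf]
    exact mul_nonneg (inv_nonneg.2 (Nat.cast_nonneg N)) (Finset.sum_nonneg fun n _ => hfx0 w n)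
  have hex : ∀ w, ∃ L, L ∈ Set.Icc 0 K ∧ Tendsto (f w) (hyperfilter ℕ) (𝓝 L) := fun w =>
    lim0_ex (hyperfilter ℕ) fun N => ⟨hf0 w N, havg w K hK0.le (hfxK w) N⟩
  choose e he hlim using hex
  have hEf : ∀ u m N, (Y.E m fun v => f (u ++ v) N) =
      (N : ℝ)⁻¹ * ∑ n ∈ range N, fx Y u (m + n) := by
    intro u m N
    have h2 : (Y.E m fun v => f (u ++ v) N) =
        Y.E m fun v => (N : ℝ)⁻¹ * ∑ n ∈ range N, fx Y (u ++ v) n :=
      Y.E_congr fun v _ => hf _ _
    rw [h2, Y.E_mul_left, Y.E_fsum]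
    congr 1
    exact Finset.sum_congr rfl fun n _ => lim0_shift Y u m n
  have hright : ∀ u m, (Y.E m fun v => e (u ++ v)) = e u := by
    intro u m
    have t1 : Tendsto (fun N => Y.E m fun v => f (u ++ v) N) (hyperfilter ℕ)
        (𝓝 (Y.E m fun v => e (u ++ v))) := by
      simp only [Y.E_eq]
      exact tendsto_finsetSum _ fun w _ => (hlim (u ++ List.ofFn w)).const_mul _
    have t2 : Tendsto (fun N => (Y.E m fun v => f (u ++ v) N) - f u N) (hyperfilter ℕ) (𝓝 0) := by
      have hb : ∀ N : ℕ, ‖(Y.E m fun v => f (u ++ v) N) - f u N‖ ≤ (m * K) * (N : ℝ)⁻¹ := by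
        intro N
        rw [hEf, hf, Real.norm_eq_abs, ← mul_sub, abs_mul, abs_of_nonneg
          (inv_nonneg.2 (Nat.cast_nonneg N) : (0 : ℝ) ≤ (N : ℝ)⁻¹), mul_comm]
        refine mul_le_mul_of_nonneg_right ?_ (inv_nonneg.2 (Nat.cast_nonneg N))
        have d : ∑ n ∈ range N, fx Y u (m + n) - ∑ n ∈ range N, fx Y u n =
            ∑ n ∈ range m, fx Y u (N + n) - ∑ n ∈ range m, fx Y u n := by
          have e1 := Finset.sum_range_add (fun n => fx Y u n) m N
          have e2 := Finset.sum_range_add (fun n => fx Y u n) N m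
          rw [add_comm N m] at e2
          linarith
        rw [d]
        have b1 : ∑ n ∈ range m, fx Y u (N + n) ≤ m * K := by
          have := Finset.sum_le_sum (s := range m) fun n _ => hfxK u (N + n)
          simpa using this
        have b2 : ∑ n ∈ range m, fx Y u n ≤ m * K := by
          have := Finset.sum_le_sum (s := range m) fun n _ => hfxK u n
          simpa using this
        have b3 : 0 ≤ ∑ n ∈ range m, fx Y u (N + n) := Finset.sum_nonneg fun n _ => hfx0 _ _
        have b4 : 0 ≤ ∑ n ∈ range m, fx Y u n := Finset.sum_nonneg fun n _ => hfx0 _ _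
        rw [abs_le]
        constructor <;> linarith
      refine squeeze_zero_norm hb ?_
      have t : Tendsto (fun N : ℕ => (m * K) * (N : ℝ)⁻¹) atTop (𝓝 (m * K * 0)) :=
        tendsto_inv_atTop_nhds_zero_nat.const_mul _
      rw [mul_zero] at t
      exact t.mono_left hUat
    have t3 : Tendsto (fun N => Y.E m fun v => f (u ++ v) N) (hyperfilter ℕ) (𝓝 (0 + e u)) := by
      refine (t2.add (hlim u)).congr fun N => ?_
      ring
    rw [zero_add] at t3
    exact tendsto_nhds_unique t1 t3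
  have hdrop : ∀ u v, e (u ++ v) ≤ e v := by
    intro u v
    refine le_of_tendsto_of_tendsto' (hlim (u ++ v)) (hlim v) fun N => ?_
    rw [hf, hf]
    refine mul_le_mul_of_nonneg_left (Finset.sum_le_sum fun n _ => ?_)
      (inv_nonneg.2 (Nat.cast_nonneg N))
    refine Y.E_mono fun x _ => ?_
    rw [List.append_assoc]
    exact Y.sv_append_right _ _
  have hev : ∀ᶠ N : ℕ in (hyperfilter ℕ : Ultrafilter ℕ), 0 < N :=
    hUat (eventually_gt_atTop 0)
  have he1 : 1 ≤ e [] := by
    refine ge_of_tendsto (hlim []) (hev.mono fun N hN => hlow [] 1 (fun n => ?_) N hN)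
    have : fx Y [] n = Y.a n := Y.E_congr fun v _ => by rw [List.nil_append]
    rw [this]
    exact h1 n
  have he0 : 0 < e [] := by linarith
  have heK : e [] ≤ K := (he []).2
  refine ⟨fun w => e w / e [], ?_⟩
  constructor
  · exact h1
  · exact hK
  · exact fun w => div_nonneg (he w).1 he0.le
  · intro w
    have h2 : e w ≤ K * Y.sv w := le_of_tendsto' (hlim w) fun N =>
      havg w _ (mul_nonneg hK0.le (Y.sv_nonneg w)) (hfxs w) N
    have h3 : e w / e [] ≤ e w := div_le_self (he w).1 he1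
    exact h3.trans h2
  · exact div_self he0.ne'
  · intro u n
    simp only [div_eq_mul_inv]
    rw [Y.E_mul_right, hright]
  · exact fun u v => div_le_div_of_nonneg_right (hdrop u v) he0.le
  · intro w ε hε
    have hKe : K * e w ≤ K ^ 2 * (e w / e []) := by
      rw [mul_div_assoc', le_div_iff₀ he0]
      have h2 := mul_le_mul_of_nonneg_left heK (mul_nonneg hK0.le (he w).1)
      nlinarith [h2]
    obtain ⟨m, hm⟩ : ∃ m, fx Y w m < e w + ε / K := by
      by_contra hcon
      push Not at hcon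
      have h2 : e w + ε / K ≤ e w :=
        ge_of_tendsto (hlim w) (hev.mono fun N hN => hlow w _ hcon N hN)
      have h3 : 0 < ε / K := div_pos hε hK0
      linarith
    filter_upwards [eventually_ge_atTop m] with n hn
    obtain ⟨j, rfl⟩ := Nat.exists_eq_add_of_le hn
    have h2 := fx_add Y w m j
    have h3 : fx Y w m * Y.a j ≤ (e w + ε / K) * K := by
      have h4 : fx Y w m * Y.a j ≤ fx Y w m * K :=
        mul_le_mul_of_nonneg_left (hK j) (hfx0 w m)
      have h5 : fx Y w m * K ≤ (e w + ε / K) * K :=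
        mul_le_mul_of_nonneg_right hm.le hK0.le
      exact h4.trans h5
    have h6 : (e w + ε / K) * K = K * e w + ε := by field_simp
    linarith
-- END lim0

/-- weight of the extensions of `w` of length `M`, counted with the weight `g` of the word
without its first `m` letters -/
noncomputable def qa (Y : Sys S V) (g : List S → ℝ) (m M : ℕ) (w : List S) : ℝ :=
  Y.E M fun c => Y.sv (w ++ c) * g ((w ++ c).drop m)

/-- its limit -/
noncomputable def qq (Y : Sys S V) (g : List S → ℝ) (m : ℕ) (w : List S) : ℝ :=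
  ⨅ M : ℕ, qa Y g m (m + M) w

/-- the supremum -/
noncomputable def goo (Y : Sys S V) (g : List S → ℝ) (w : List S) : ℝ := ⨆ m : ℕ, qq Y g m w

-- BEGIN qa_anti
/-- `qa` decreases in `M`: `(w ++ c ++ [s]).drop m = (w ++ c).drop m ++ [s]` as
`m ≤ (w ++ c).length`; `sv (w ++ c ++ [s]) ≤ sv (w ++ c)`; `h.right _ 1`. -/
theorem qa_anti (h : Cf0 Y K g) (m : ℕ) (w : List S) {M : ℕ} (hM : m ≤ M + w.length) :
    qa Y g m (M + 1) w ≤ qa Y g m M w := by
  unfold qa
  rw [Y.E_add]
  refine Y.E_mono fun u hu => ?_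
  have hm : m ≤ (w ++ u).length := by
    rw [List.length_append, hu]
    omega
  have h1 : (Y.E 1 fun x => Y.sv (w ++ (u ++ x)) * g ((w ++ (u ++ x)).drop m)) ≤
      Y.E 1 fun x => Y.sv (w ++ u) * g ((w ++ u).drop m ++ x) := by
    refine Y.E_mono fun x _ => ?_
    rw [← List.append_assoc, List.drop_append_of_le_length hm]
    exact mul_le_mul_of_nonneg_right (Y.sv_append_left _ _) (h.nonneg _)
  refine h1.trans ?_
  rw [Y.E_mul_left, h.right]
-- END qa_anti

-- BEGIN qa_nonneg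
theorem qa_nonneg (h : Cf0 Y K g) (m M : ℕ) (w : List S) : 0 ≤ qa Y g m M w := by
  exact Y.E_nonneg' fun c => mul_nonneg (Y.sv_nonneg _) (h.nonneg _)
-- END qa_nonneg

-- BEGIN qq_lim
/-- from `qa_anti`, `qa_nonneg` (`tendsto_atTop_ciInf`, shift of the index) -/
theorem qq_lim (h : Cf0 Y K g) (m : ℕ) (w : List S) :
    Tendsto (fun M => qa Y g m M w) atTop (𝓝 (qq Y g m w)) := by
  have h1 : Antitone fun M => qa Y g m (m + M) w :=
    antitone_nat_of_succ_le fun M => qa_anti h m w (M := m + M) (by omega)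
  have h2 : BddBelow (Set.range fun M => qa Y g m (m + M) w) :=
    ⟨0, by rintro _ ⟨M, rfl⟩; exact qa_nonneg h m _ w⟩
  have h3 : Tendsto (fun M => qa Y g m (m + M) w) atTop (𝓝 (qq Y g m w)) :=
    tendsto_atTop_ciInf h1 h2
  rw [← tendsto_add_atTop_iff_nat m]
  simpa only [add_comm] using h3
-- END qq_lim

-- BEGIN qq_mono
/-- `g (x.drop m) ≤ g (x.drop (m + 1))` for every `x` (`h.drop` with a word of length at most 1),
limits. -/
theorem qq_mono (h : Cf0 Y K g) (m : ℕ) (w : List S) : qq Y g m w ≤ qq Y g (m + 1) w := by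
  refine le_of_tendsto_of_tendsto' (qq_lim h m w) (qq_lim h (m + 1) w) fun M => ?_
  unfold qa
  refine Y.E_mono fun c _ => mul_le_mul_of_nonneg_left ?_ (Y.sv_nonneg _)
  have h1 : (w ++ c).drop m = ((w ++ c).drop m).take 1 ++ (w ++ c).drop (m + 1) := by
    rw [← List.drop_drop, List.take_append_drop]
  rw [h1]
  exact h.drop _ _
-- END qq_mono

-- BEGIN qq_zero
/-- `qa Y g 0 M w = g w`: `sv x * g x = g x` by `h.le_sv`, `h.nonneg` (`sv x = 0` forces
`g x = 0`), `h.right`. -/
theorem qq_zero (h : Cf0 Y K g) (w : List S) : qq Y g 0 w = g w := by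
  have h1 : ∀ x, Y.sv x * g x = g x := by
    intro x
    by_cases hx : Y.Saw x
    · rw [Y.sv_of hx, one_mul]
    · have h2 := h.le_sv x
      rw [Y.sv_of_not hx, mul_zero] at h2
      rw [le_antisymm h2 (h.nonneg x), mul_zero]
  have h2 : ∀ M, qa Y g 0 M w = g w := by
    intro M
    unfold qa
    simp only [List.drop_zero, h1]
    exact h.right w M
  unfold qq
  simp only [h2]
  exact ciInf_const
-- END qq_zero

-- BEGIN qq_nil
/-- `qa Y g m m [] = Y.E m (fun c => sv c * g []) = Y.a m ≤ K`, and `qq ≤ qa` (`qa_anti`). -/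
theorem qq_nil (h : Cf0 Y K g) (m : ℕ) : qq Y g m [] ≤ K := by
  have h2 : BddBelow (Set.range fun M => qa Y g m (m + M) []) :=
    ⟨0, by rintro _ ⟨M, rfl⟩; exact qa_nonneg h m _ []⟩
  have h3 : qq Y g m [] ≤ qa Y g m (m + 0) [] := ciInf_le h2 0
  have h4 : qa Y g m (m + 0) [] = Y.a m := by
    unfold qa Sys.a
    refine Y.E_congr fun w hw => ?_
    rw [add_zero] at hw
    rw [List.nil_append, List.drop_eq_nil_of_le hw.le, h.nil, mul_one]
  rw [h4] at h3
  exact h3.trans (h.a_le m)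
-- END qq_nil

-- BEGIN qq_right
/-- `Y.E n (fun v => qa Y g m M (w ++ v)) = qa Y g m (n + M) w` (`E_add`), limit `M → ∞`
(finite sums: `E_eq`, `tendsto_finset_sum`). -/
theorem qq_right (h : Cf0 Y K g) (m : ℕ) (w : List S) (n : ℕ) :
    (Y.E n fun v => qq Y g m (w ++ v)) = qq Y g m w := by
  have h1 : ∀ M, (Y.E n fun v => qa Y g m M (w ++ v)) = qa Y g m (M + n) w := by
    intro M
    rw [add_comm M n]
    unfold qa
    rw [Y.E_add]
    refine Y.E_congr fun v _ => Y.E_congr fun c _ => ?_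
    rw [List.append_assoc]
  have t1 : Tendsto (fun M => Y.E n fun v => qa Y g m M (w ++ v)) atTop
      (𝓝 (Y.E n fun v => qq Y g m (w ++ v))) := by
    simp only [Y.E_eq]
    exact tendsto_finsetSum _ fun v _ => (qq_lim h m (w ++ List.ofFn v)).const_mul _
  have t2 : Tendsto (fun M => Y.E n fun v => qa Y g m M (w ++ v)) atTop (𝓝 (qq Y g m w)) := by
    simp only [h1]
    exact (tendsto_add_atTop_iff_nat n).2 (qq_lim h m w)
  exact tendsto_nhds_unique t1 t2
-- END qq_right

-- BEGIN qq_le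
/-- `qq Y g m w ≤ K * K * Y.sv w`: `qa Y g m M w ≤ sv w * Y.E M (fun c => sv c * K)`
(`g ≤ K`, `sv (w ++ c) ≤ sv w * sv c`). -/
theorem qq_le (h : Cf0 Y K g) (m : ℕ) (w : List S) : qq Y g m w ≤ K * K * Y.sv w := by
  have hK : 0 ≤ K := zero_le_one.trans ((h.a_ge 0).trans (h.a_le 0))
  have h1 : ∀ x, g x ≤ K := fun x => (h.le_sv x).trans
    (mul_le_of_le_one_right hK (Y.sv_le_one x))
  have h2 : BddBelow (Set.range fun M => qa Y g m (m + M) w) :=
    ⟨0, by rintro _ ⟨M, rfl⟩; exact qa_nonneg h m _ w⟩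
  have h3 : qq Y g m w ≤ qa Y g m (m + 0) w := ciInf_le h2 0
  have h4 : qa Y g m (m + 0) w ≤ Y.sv w * (Y.a (m + 0) * K) := by
    unfold qa Sys.a
    rw [← Y.E_mul_right, ← Y.E_mul_left]
    refine Y.E_mono fun c _ => ?_
    calc Y.sv (w ++ c) * g ((w ++ c).drop m) ≤ (Y.sv w * Y.sv c) * K :=
          mul_le_mul (Y.sv_append_le w c) (h1 _) (h.nonneg _)
            (mul_nonneg (Y.sv_nonneg _) (Y.sv_nonneg _))
      _ = Y.sv w * (Y.sv c * K) := by ring
  have h5 : Y.sv w * (Y.a (m + 0) * K) ≤ Y.sv w * (K * K) :=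
    mul_le_mul_of_nonneg_left (mul_le_mul_of_nonneg_right (h.a_le _) hK) (Y.sv_nonneg _)
  linarith
-- END qq_le

-- BEGIN qq_conf
private theorem qq_conf_up (h : Cf0 Y K g) (m : ℕ) (v : List S) (hv : m ≤ v.length) :
    qq Y g m v ≤ Y.sv v * g (v.drop m) := by
  have h1 : ∀ M, qa Y g m M v ≤ qa Y g m 0 v := by
    intro M
    induction M with
    | zero => exact le_rfl
    | succ M ih => exact (qa_anti h m v (by omega)).trans ih
  have h2 : qa Y g m 0 v = Y.sv v * g (v.drop m) := by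
    unfold qa
    rw [Y.E_zero, List.append_nil]
  rw [← h2]
  exact le_of_tendsto' (qq_lim h m v) h1

private theorem qq_conf_drop (w x : List S) (m : ℕ) :
    (w ++ x).drop (w.length + m) = x.drop m := by
  rw [← List.drop_drop, List.drop_left]

private theorem qq_conf_sv (w v c : List S) :
    Y.sv (w ++ (v ++ c)) ≤ Y.sv (w ++ v) * Y.sv (v ++ c) := by
  have h1 : Y.sv (w ++ (v ++ c)) * Y.sv (w ++ v) = Y.sv (w ++ (v ++ c)) := by
    rw [← List.append_assoc]
    exact Y.sv_mul_infix (List.prefix_append _ _).isInfix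
  have h2 : Y.sv (w ++ (v ++ c)) * Y.sv (v ++ c) = Y.sv (w ++ (v ++ c)) :=
    Y.sv_mul_infix (List.suffix_append _ _).isInfix
  have h3 := mul_le_mul_of_nonneg_right (Y.sv_le_one (w ++ (v ++ c)))
    (mul_nonneg (Y.sv_nonneg (w ++ v)) (Y.sv_nonneg (v ++ c)))
  have h4 : Y.sv (w ++ (v ++ c)) * (Y.sv (w ++ v) * Y.sv (v ++ c)) = Y.sv (w ++ (v ++ c)) := by
    rw [← mul_assoc, h1, h2]
  rw [h4, one_mul] at h3
  exact h3

/-- `lim_M Y.E M (fun v => sv (w ++ v) * qq m v) = qq (|w| + m) w`. The sequence is antitone for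
`M` large (or squeeze). Upper bound: for `M ≥ m`, `qq m v ≤ qa m M' v`; with `M' = 0` allowed when
`|v| = M ≥ m` (`qa_anti`): `qq m v ≤ sv v * g (v.drop m)`, and
`sv (w ++ v) * sv v * g (v.drop m) = sv (w ++ v) * g ((w ++ v).drop (|w| + m))`, so the sequence
is at most `qa Y g (|w| + m) M w`. Lower bound: for every `M'`,
`Y.E M (fun v => sv (w ++ v) * qa m M' v) ≥ Y.E (M + M') (fun x => sv (w ++ x) * g (x.drop m))`
`= qa (|w| + m) (M + M') w ≥ qq (|w| + m) w`; let `M' → ∞` inside the finite sum. -/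
theorem qq_conf (h : Cf0 Y K g) (m : ℕ) (w : List S) :
    Tendsto (fun M => Y.E M fun v => Y.sv (w ++ v) * qq Y g m v) atTop
      (𝓝 (qq Y g (w.length + m) w)) := by
  refine tendsto_of_tendsto_of_tendsto_of_le_of_le' tendsto_const_nhds
    (qq_lim h (w.length + m) w) (Eventually.of_forall fun M => ?_)
    ((eventually_ge_atTop m).mono fun M hM => ?_)
  · have hle : ∀ M', qa Y g (w.length + m) (M' + M) w ≤
        Y.E M fun v => Y.sv (w ++ v) * qa Y g m M' v := by
      intro M'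
      rw [add_comm M' M]
      unfold qa
      rw [Y.E_add]
      refine Y.E_mono fun v _ => ?_
      rw [← Y.E_mul_left]
      refine Y.E_mono fun c _ => ?_
      rw [qq_conf_drop, ← mul_assoc]
      exact mul_le_mul_of_nonneg_right (qq_conf_sv w v c) (h.nonneg _)
    have t1 : Tendsto (fun M' => Y.E M fun v => Y.sv (w ++ v) * qa Y g m M' v) atTop
        (𝓝 (Y.E M fun v => Y.sv (w ++ v) * qq Y g m v)) := by
      simp only [Y.E_eq]
      exact tendsto_finsetSum _ fun v _ =>
        ((qq_lim h m (List.ofFn v)).const_mul _).const_mul _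
    exact le_of_tendsto_of_tendsto'
      ((tendsto_add_atTop_iff_nat M).2 (qq_lim h (w.length + m) w)) t1 hle
  · unfold qa
    refine Y.E_mono fun v hv => ?_
    rw [qq_conf_drop]
    refine mul_le_mul_of_nonneg_left ?_ (Y.sv_nonneg _)
    refine (qq_conf_up h m v (by omega)).trans ?_
    have h1 := mul_le_mul_of_nonneg_right (Y.sv_le_one v) (h.nonneg (v.drop m))
    rwa [one_mul] at h1
-- END qq_conf

-- BEGIN goo_lim
/-- `qq Y g m w → goo Y g w` (monotone, bounded by `qq_le`). -/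
theorem goo_lim (h : Cf0 Y K g) (w : List S) :
    Tendsto (fun m => qq Y g m w) atTop (𝓝 (goo Y g w)) := by
  have h1 : Monotone fun m => qq Y g m w := monotone_nat_of_le_succ fun m => qq_mono h m w
  have h2 : BddAbove (Set.range fun m => qq Y g m w) :=
    ⟨K * K * Y.sv w, by rintro _ ⟨m, rfl⟩; exact qq_le h m w⟩
  exact tendsto_atTop_ciSup h1 h2
-- END goo_lim

-- BEGIN goo_right
theorem goo_right (h : Cf0 Y K g) (w : List S) (n : ℕ) :
    (Y.E n fun v => goo Y g (w ++ v)) = goo Y g w := by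
  refine tendsto_nhds_unique ?_ (goo_lim h w)
  have h1 : ∀ m, qq Y g m w = Y.E n fun v => qq Y g m (w ++ v) := fun m =>
    (qq_right h m w n).symm
  simp only [h1]
  simp only [Y.E_eq]
  exact tendsto_finsetSum _ fun v _ => (goo_lim h (w ++ List.ofFn v)).const_mul _
-- END goo_right

-- BEGIN goo_drop
/-- `qa Y g (|u| + m) M (u ++ v) ≤ qa Y g m M v` (`(u ++ x).drop (|u| + m) = x.drop m`,
`sv (u ++ x) ≤ sv x`), so `qq (|u| + m) (u ++ v) ≤ qq m v`; limits `m → ∞`. -/
theorem goo_drop (h : Cf0 Y K g) (u v : List S) : goo Y g (u ++ v) ≤ goo Y g v := by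
  have h1 : ∀ m M, qa Y g (u.length + m) M (u ++ v) ≤ qa Y g m M v := by
    intro m M
    unfold qa
    refine Y.E_mono fun c _ => ?_
    rw [List.append_assoc, List.drop_append, List.drop_eq_nil_of_le (by omega),
      List.nil_append, show u.length + m - u.length = m by omega]
    exact mul_le_mul_of_nonneg_right (Y.sv_append_right u (v ++ c)) (h.nonneg _)
  have h2 : ∀ m, qq Y g (m + u.length) (u ++ v) ≤ qq Y g m v := by
    intro m
    rw [add_comm]
    exact le_of_tendsto_of_tendsto' (qq_lim h _ _) (qq_lim h _ _) (h1 m)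
  have h3 := (tendsto_add_atTop_iff_nat u.length).2 (goo_lim h (u ++ v))
  exact le_of_tendsto_of_tendsto' h3 (goo_lim h v) h2
-- END goo_drop

-- BEGIN goo_conf
/-- Lower bound: `Y.E M (sv (w ++ v) * goo v) ≥ Y.E M (sv (w ++ v) * qq m v)`, whose limit is
`qq (|w| + m) w`, for every `m`. Upper bound: `goo v - qq m v ≥ 0` and
`Y.E M (goo v - qq m v) = goo [] - qq m []` (`goo_right`, `qq_right`), so
`Y.E M (sv (w ++ v) * goo v) ≤ Y.E M (sv (w ++ v) * qq m v) + (goo [] - qq m [])`. -/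
theorem goo_conf (h : Cf0 Y K g) (w : List S) :
    Tendsto (fun M => Y.E M fun v => Y.sv (w ++ v) * goo Y g v) atTop (𝓝 (goo Y g w)) := by
  have hle : ∀ m v, qq Y g m v ≤ goo Y g v := fun m v =>
    (monotone_nat_of_le_succ fun m => qq_mono h m v).ge_of_tendsto (goo_lim h v) m
  have hlo : ∀ m M, (Y.E M fun v => Y.sv (w ++ v) * qq Y g m v) ≤
      Y.E M fun v => Y.sv (w ++ v) * goo Y g v := fun m M =>
    Y.E_mono fun v _ => mul_le_mul_of_nonneg_left (hle m v) (Y.sv_nonneg _)
  have hup : ∀ m M, (Y.E M fun v => Y.sv (w ++ v) * goo Y g v) ≤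
      (Y.E M fun v => Y.sv (w ++ v) * qq Y g m v) + (goo Y g [] - qq Y g m []) := by
    intro m M
    have h1 : goo Y g [] - qq Y g m [] = Y.E M fun v => goo Y g v - qq Y g m v := by
      rw [Y.E_fsub]
      have h2 := goo_right h [] M
      have h3 := qq_right h m [] M
      simp only [List.nil_append] at h2 h3
      rw [h2, h3]
    rw [h1, ← Y.E_fadd]
    refine Y.E_mono fun v _ => ?_
    have h4 := mul_le_mul_of_nonneg_right (Y.sv_le_one (w ++ v)) (sub_nonneg.2 (hle m v))
    linarith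
  rw [Metric.tendsto_atTop]
  intro ε hε
  have hA := goo_lim h w
  have hA' := (tendsto_add_atTop_iff_nat w.length).2 hA
  have hB := goo_lim h []
  obtain ⟨m, hm1, hm2⟩ := ((hA'.eventually (lt_mem_nhds (show goo Y g w - ε / 3 < goo Y g w by
    linarith))).and (hB.eventually (lt_mem_nhds (show goo Y g [] - ε / 3 < goo Y g [] by
    linarith)))).exists
  have hC := qq_conf h m w
  rw [Metric.tendsto_atTop] at hC
  obtain ⟨N, hN⟩ := hC (ε / 3) (by linarith)
  refine ⟨N, fun M hM => ?_⟩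
  have h5 := hN M hM
  rw [Real.dist_eq, abs_lt] at h5 ⊢
  have h6 := hlo m M
  have h7 := hup m M
  have h8 := hle (w.length + m) w
  rw [add_comm m] at hm1
  constructor <;> linarith
-- END goo_conf

-- BEGIN exists_cf
/-- The conformal weight `goo w / goo []`: `1 = g [] ≤ goo [] ≤ K` (`qq_zero`, `qq_nil`),
`le_sv`: from `goo_conf`, `sv (w ++ v) ≤ sv w`, `Y.E M (goo v) = goo []`. `up`: `g w ≤ goo w`,
so `K ^ 2 * g w ≤ K ^ 2 * goo w ≤ K ^ 3 * (goo w / goo [])`. -/
theorem exists_cf (Y : Sys S V) {K : ℝ} (h1 : ∀ n, 1 ≤ Y.a n) (hK : ∀ n, Y.a n ≤ K) :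
    ∃ g : List S → ℝ, Cf Y K (K ^ 3) g := by
  obtain ⟨g, h⟩ := lim0 Y h1 hK
  have hK1 : 1 ≤ K := (h1 0).trans (hK 0)
  have hK0 : 0 < K := by linarith
  have hmono : ∀ w, Monotone fun m => qq Y g m w := fun w =>
    monotone_nat_of_le_succ fun m => qq_mono h m w
  have hqG : ∀ m w, qq Y g m w ≤ goo Y g w := fun m w => (hmono w).ge_of_tendsto (goo_lim h w) m
  have hgG : ∀ w, g w ≤ goo Y g w := fun w => by
    have := hqG 0 w
    rwa [qq_zero h] at this
  have hG0 : ∀ w, 0 ≤ goo Y g w := fun w => (h.nonneg w).trans (hgG w)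
  have hG1 : 1 ≤ goo Y g [] := by
    have := hgG []
    rwa [h.nil] at this
  have hGp : 0 < goo Y g [] := by linarith
  have hGK : goo Y g [] ≤ K := le_of_tendsto' (goo_lim h []) fun m => qq_nil h m
  refine ⟨fun w => goo Y g w / goo Y g [], ?_⟩
  constructor
  · exact h1
  · exact hK
  · exact fun w => div_nonneg (hG0 w) hGp.le
  · intro w
    rw [div_le_iff₀ hGp]
    refine le_of_tendsto' (goo_conf h w) fun M => ?_
    have h2 : (Y.E M fun v => Y.sv (w ++ v) * goo Y g v) ≤
        Y.E M fun v => Y.sv w * goo Y g ([] ++ v) := by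
      refine Y.E_mono fun v _ => ?_
      rw [List.nil_append]
      exact mul_le_mul_of_nonneg_right (Y.sv_append_left w v) (hG0 v)
    rwa [Y.E_mul_left, goo_right h] at h2
  · exact div_self hGp.ne'
  · intro u n
    simp only [div_eq_mul_inv]
    rw [Y.E_mul_right, goo_right h]
  · exact fun u v => div_le_div_of_nonneg_right (goo_drop h u v) hGp.le
  · intro w
    have h2 := (goo_conf h w).div_const (goo Y g [])
    refine h2.congr fun M => ?_
    simp only [div_eq_mul_inv]
    rw [← Y.E_mul_right]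
    exact Y.E_congr fun v _ => by ring
  · intro w ε hε
    refine (h.up w ε hε).mono fun n hn => hn.trans ?_
    have h2 : K ^ 2 * g w ≤ K ^ 2 * goo Y g w :=
      mul_le_mul_of_nonneg_left (hgG w) (by positivity)
    have h3 : K ^ 2 * goo Y g w ≤ K ^ 3 * (goo Y g w / goo Y g []) := by
      rw [mul_div_assoc', le_div_iff₀ hGp]
      have h4 := mul_le_mul_of_nonneg_left hGK (mul_nonneg (by positivity : (0 : ℝ) ≤ K ^ 2)
        (hG0 w))
      nlinarith [h4]
    linarith
-- END exists_cf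

end Pool.Agent.Taw
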