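import Pool.Agent.Taw.Bas

/-!
# The end of the proof (section 2 of the page): bounded energies of good words imply a finite
bubble diagram
-/

set_option autoImplicit false

namespace Pool.Agent.Taw

open Finset Filter Topology Pool.Agent.Bub4 Pool.Agent.SawM2

variable {S V : Type} [Fintype S] [AddCommGroup V] {Y : Sys S V} {K B : ℝ} {g : List S → ℝ}

-- BEGIN s_mono
/-- `g v.reverse` decreases when `v` gets longer at the end: `(u ++ v).reverse = v.reverse ++
u.reverse`, `h.drop`. -/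
theorem s_mono (h : Cf Y K B g) (u v : List S) : g (u ++ v).reverse ≤ g u.reverse := by
  rw [List.reverse_append]
  exact h.drop _ _
-- END s_mono

-- BEGIN end_a
private theorem end_a_fx_le (h : Cf Y K B g) (w : List S) (m : ℕ) : fx Y w m ≤ K :=
  (Y.E_mono fun v _ => Y.sv_append_right w v).trans (h.a_le m)

private theorem end_a_fx_mono (Y : Sys S V) (x w : List S) (m : ℕ) :
    fx Y (x ++ w) m ≤ fx Y w m :=
  Y.E_mono fun v _ => by rw [List.append_assoc]; exact Y.sv_append_right x (w ++ v)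

private theorem end_a_tail {p : ℕ → ℝ} (hp : ∀ n, 0 ≤ p n) {C : ℝ}
    (hC : ∀ n, ∑ i ∈ range n, p i ≤ C) {ε : ℝ} (hε : 0 < ε) :
    ∃ T0, ∀ n, ∑ i ∈ Ico T0 n, p i ≤ ε := by
  have hs : Summable p := summable_of_sum_range_le hp hC
  have ht := hs.hasSum.tendsto_sum_nat
  have h1 : ∀ᶠ n in atTop, (∑' i, p i) - ε < ∑ i ∈ range n, p i :=
    ht.eventually (lt_mem_nhds (by linarith))
  obtain ⟨T0, hT⟩ := h1.exists
  refine ⟨T0, fun n => ?_⟩
  rcases le_total T0 n with h2 | h2
  · have h3 : ∑ i ∈ range n, p i = ∑ i ∈ range T0, p i + ∑ i ∈ Ico T0 n, p i :=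
      (Finset.sum_range_add_sum_Ico _ h2).symm
    have h4 : ∑ i ∈ range n, p i ≤ ∑' i, p i := hs.sum_le_tsum _ fun i _ => hp i
    linarith
  · rw [Finset.Ico_eq_empty_of_le h2, Finset.sum_empty]
    exact hε.le

/-- (2a). By `E_shift` the left side is at most
`Y.E n (fun b => fx Y b.reverse m * g b * ind (g b.reverse < ε'))`. Let `Q c` be: `c` is the first
prefix with `g c.reverse < ε'` (`Fst`, `sum_Fst`, `E_Fst` of `SawM2.UArm3`, or directly):
`ind (g b.reverse < ε') = ∑ T ≤ n, ind (Fst .. b T)` (`s_mono`) and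
`fx Y b.reverse m ≤ fx Y (b.take T).reverse m`, so the sum is at most
`∑ T ≤ n, Y.E T (fun c => fx Y c.reverse m * g c * ind (Fst .. c T))`. The numbers
`p T = Y.E T (fun c => g c * ind (Fst .. c T))` have sum `≤ 1` over all `T`; choose `T0` with tail
`K * ∑_{T > T0} p T ≤ δ / 4`; for the finitely many `c` with `|c| ≤ T0` and `g c.reverse < ε'`
choose `m` with `fx Y c.reverse m ≤ B * ε' + δ / 4` (`h.up`). Take `ε' = δ / (4 * B)`. -/
theorem end_a (h : Cf Y K B g) {δ : ℝ} (hδ : 0 < δ) :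
    ∃ ε' : ℝ, 0 < ε' ∧ ∃ m : ℕ, ∀ n : ℕ,
      (Y.E m fun u => Y.E n fun b => g (u ++ b) * ind (g b.reverse < ε')) ≤ δ := by
  have hB : 1 ≤ B := B_ge h
  have hK : 1 ≤ K := one_le_K h
  have hB0 : 0 < B := by linarith
  have hK0 : 0 < K := by linarith
  refine ⟨δ / (4 * B), by positivity, ?_⟩
  set ε' : ℝ := δ / (4 * B) with hε'
  have hBε : B * ε' = δ / 4 := by rw [hε']; field_simp
  set P : List S → Prop := fun u => g u.reverse < ε' with hP
  set p : ℕ → ℝ := fun T => Y.E T fun c => g c * ind (Fst P c T) with hp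
  have hp0 : ∀ T, 0 ≤ p T := fun T =>
    Y.E_nonneg' fun c => mul_nonneg (h.nonneg c) (ind_nonneg _)
  have hpsum : ∀ n, ∑ i ∈ range n, p i ≤ 1 := by
    intro n
    rcases Nat.eq_zero_or_pos n with rfl | hn
    · simp
    obtain ⟨k, rfl⟩ : ∃ k, n = k + 1 := ⟨n - 1, by omega⟩
    have e1 : ∑ i ∈ range (k + 1), p i = Y.E k fun w => g w * ind (∃ i ≤ k, P (w.take i)) := by
      have e2 : ∀ i ∈ range (k + 1), p i = Y.E k fun w => g w * ind (Fst P w i) := by
        intro i hi
        exact (E_Fst Y P h.right (Nat.lt_succ_iff.1 (Finset.mem_range.1 hi))).symm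
      rw [Finset.sum_congr rfl e2, ← Y.E_fsum]
      refine Y.E_congr fun w _ => ?_
      rw [← sum_Fst, Finset.mul_sum]
    rw [e1, ← E_g h k]
    exact Y.E_mono fun w _ => mul_le_of_le_one_right (h.nonneg w) (ind_le_one _)
  obtain ⟨T0, hT0⟩ := end_a_tail hp0 hpsum (show 0 < δ / (4 * K) by positivity)
  have hfin : ∀ᶠ m in atTop, ∀ c ∈ {c : List S | c.length < T0},
      fx Y c.reverse m ≤ B * g c.reverse + δ / 4 :=
    (Filter.eventually_all_finite (List.finite_length_lt S T0)).2 fun c _ =>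
      h.up c.reverse (δ / 4) (by linarith)
  obtain ⟨m, hm⟩ := hfin.exists
  refine ⟨m, fun n => ?_⟩
  have s1 : (Y.E m fun u => Y.E n fun b => g (u ++ b) * ind (P b)) ≤
      ∑ i ∈ range (n + 1), Y.E i fun c => g c * (fx Y c.reverse m * ind (Fst P c i)) := by
    rw [Y.E_comm]
    have t1 : (Y.E n fun b => Y.E m fun u => g (u ++ b) * ind (P b)) ≤
        Y.E n fun b => ∑ i ∈ range (n + 1),
          g b * (fx Y (b.take i).reverse m * ind (Fst P (b.take i) i)) := by
      refine Y.E_mono fun b hb => ?_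
      rw [Y.E_mul_right]
      have hterm : ∀ i ∈ range (n + 1),
          fx Y b.reverse m * g b * ind (Fst P b i) ≤
            g b * (fx Y (b.take i).reverse m * ind (Fst P (b.take i) i)) := by
        intro i hi
        have hi' : i ≤ b.length := by
          rw [hb]; exact Nat.lt_succ_iff.1 (Finset.mem_range.1 hi)
        have hF : Fst P b i ↔ Fst P (b.take i) i := by
          have := Fst_append P (b.take i) (b.drop i)
          rwa [List.take_append_drop, List.length_take, min_eq_left hi'] at this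
        have hx : fx Y b.reverse m ≤ fx Y (b.take i).reverse m := by
          have : b.reverse = (b.drop i).reverse ++ (b.take i).reverse := by
            rw [← List.reverse_append, List.take_append_drop]
          rw [this]
          exact end_a_fx_mono Y _ _ m
        rw [ind_congr hF]
        have h1 := mul_le_mul_of_nonneg_right hx
          (mul_nonneg (h.nonneg b) (ind_nonneg (Fst P (b.take i) i)))
        linarith
      have hPb : ind (P b) ≤ ∑ i ∈ range (n + 1), ind (Fst P b i) := by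
        rw [sum_Fst]
        exact ind_mono fun hPb => ⟨n, le_rfl, by rwa [List.take_of_length_le hb.le]⟩
      have hE := (E_shift h m b).1
      have hfx0 : 0 ≤ fx Y b.reverse m * g b :=
        mul_nonneg (Y.E_nonneg' fun _ => Y.sv_nonneg _) (h.nonneg b)
      calc (Y.E m fun u => g (u ++ b)) * ind (P b)
          ≤ fx Y b.reverse m * g b * ind (P b) :=
            mul_le_mul_of_nonneg_right hE (ind_nonneg _)
        _ ≤ fx Y b.reverse m * g b * ∑ i ∈ range (n + 1), ind (Fst P b i) :=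
            mul_le_mul_of_nonneg_left hPb hfx0
        _ = ∑ i ∈ range (n + 1), fx Y b.reverse m * g b * ind (Fst P b i) := Finset.mul_sum ..
        _ ≤ _ := Finset.sum_le_sum hterm
    refine t1.trans (le_of_eq ?_)
    rw [Y.E_fsum]
    refine Finset.sum_congr rfl fun i hi => ?_
    obtain ⟨k, rfl⟩ := Nat.exists_eq_add_of_le (Nat.lt_succ_iff.1 (Finset.mem_range.1 hi))
    exact E_take h i k fun c => fx Y c.reverse m * ind (Fst P c i)
  refine s1.trans ?_
  have s2 : ∀ i, i < T0 → (Y.E i fun c => g c * (fx Y c.reverse m * ind (Fst P c i))) ≤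
      δ / 2 * p i := by
    intro i hi
    rw [hp, ← Y.E_mul_left]
    refine Y.E_mono fun c hc => ?_
    by_cases hF : Fst P c i
    · rw [ind_of hF, mul_one, mul_one]
      have h1 : P c := by
        have := hF.1
        rwa [List.take_of_length_le hc.le] at this
      have h2 := hm c (by simpa [hc] using hi)
      have h3 : B * g c.reverse ≤ δ / 4 := by
        rw [← hBε]
        exact mul_le_mul_of_nonneg_left (le_of_lt h1) hB0.le
      have h4 : fx Y c.reverse m ≤ δ / 2 := by linarith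
      have := mul_le_mul_of_nonneg_left h4 (h.nonneg c)
      linarith
    · rw [ind_not hF, mul_zero, mul_zero, mul_zero]
  have s3 : ∀ i, (Y.E i fun c => g c * (fx Y c.reverse m * ind (Fst P c i))) ≤ K * p i := by
    intro i
    rw [hp, ← Y.E_mul_left]
    refine Y.E_mono fun c _ => ?_
    have h1 := mul_le_mul_of_nonneg_right (end_a_fx_le h c.reverse m)
      (mul_nonneg (h.nonneg c) (ind_nonneg (Fst P c i)))
    linarith
  have s4 : ∀ i ∈ range (n + 1), (Y.E i fun c => g c * (fx Y c.reverse m * ind (Fst P c i))) ≤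
      δ / 2 * p i + K * (if T0 ≤ i then p i else 0) := by
    intro i _
    by_cases hi : T0 ≤ i
    · rw [if_pos hi]
      have := s3 i
      have := mul_nonneg (half_pos hδ).le (hp0 i)
      linarith
    · rw [if_neg hi, mul_zero, add_zero]
      exact s2 i (not_le.1 hi)
  refine (Finset.sum_le_sum s4).trans ?_
  rw [Finset.sum_add_distrib, ← Finset.mul_sum, ← Finset.mul_sum, ← Finset.sum_filter]
  have e1 : (range (n + 1)).filter (fun i => T0 ≤ i) = Ico T0 (n + 1) := by
    ext i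
    simp only [Finset.mem_filter, Finset.mem_range, Finset.mem_Ico]
    tauto
  rw [e1]
  have e2 := mul_le_mul_of_nonneg_left (hpsum (n + 1)) (half_pos hδ).le
  have e3 := mul_le_mul_of_nonneg_left (hT0 (n + 1)) hK0.le
  have e4 : K * (δ / (4 * K)) = δ / 4 := by field_simp
  linarith
-- END end_a

-- BEGIN L2_tail
/-- a double sum with nonnegative terms over an initial segment -/
private theorem L2_tail_split {c : ℕ → ℕ → ℝ} (hc : ∀ i j, 0 ≤ c i j) {m M : ℕ} (h : m ≤ M) :
    (∑ i ∈ range m, ∑ j ∈ range m, c i j) + (∑ i ∈ Ico m M, ∑ j ∈ Ico m M, c i j) ≤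
      ∑ i ∈ range M, ∑ j ∈ range M, c i j := by
  have hs : ∀ f : ℕ → ℝ, ∑ i ∈ range M, f i = ∑ i ∈ range m, f i + ∑ i ∈ Ico m M, f i :=
    fun f => (Finset.sum_range_add_sum_Ico f h).symm
  rw [hs (fun i => ∑ j ∈ range M, c i j)]
  refine add_le_add (Finset.sum_le_sum fun i _ => ?_) (Finset.sum_le_sum fun i _ => ?_)
  · rw [hs (c i)]
    exact le_add_of_nonneg_right (Finset.sum_nonneg fun j _ => hc i j)
  · rw [hs (c i)]
    exact le_add_of_nonneg_left (Finset.sum_nonneg fun j _ => hc i j)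

/-- tails of a bounded increasing double sum: all terms are nonnegative, `L2s .. (range M) -
L2s .. (range m) ≥ L2s .. (Ico m M)`, and the bounded monotone sequence is Cauchy. -/
theorem L2_tail (hL : HL2 Y g) {κ : ℝ} (hκ : 0 < κ) {ε : ℝ} (hε : 0 < ε) :
    ∃ m : ℕ, ∀ M ≥ m, L2s Y g κ (Ico m M) ≤ ε := by
  obtain ⟨C, hC⟩ := hL κ hκ
  have hc : ∀ i j, 0 ≤ Y.E i fun u => Y.E j fun v =>
      ind (κ ≤ g u) * ind (κ ≤ g v) * dl (Y.sm u - Y.sm v) := fun i j =>
    Y.E_nonneg' fun u => Y.E_nonneg' fun v =>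
      mul_nonneg (mul_nonneg (ind_nonneg _) (ind_nonneg _)) (dl_nonneg _)
  have hb : BddAbove (Set.range fun N => L2s Y g κ (range N)) :=
    ⟨C, by rintro _ ⟨N, rfl⟩; exact hC N⟩
  obtain ⟨m, hm⟩ := exists_lt_of_lt_ciSup
    (show (⨆ N, L2s Y g κ (range N)) - ε < ⨆ N, L2s Y g κ (range N) by linarith)
  refine ⟨m, fun M hM => ?_⟩
  have h1 := L2_tail_split hc hM
  have h2 := le_ciSup hb M
  unfold L2s at h2 hm ⊢
  linarith
-- END L2_tail

-- BEGIN hit_diff
/-- the factor which closes the walk -/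
private theorem hit_diff_fac {v L : List S} (hv : Y.Saw v) {m0 l : ℕ}
    (hl : l ≤ v.length) (hL : Y.Saw L) (h1 : Y.Saw ((v.take m0).reverse ++ L))
    (h2 : ¬ Y.Saw ((v.take l).reverse ++ L)) :
    ∃ i j, m0 < i ∧ i ≤ l ∧ 1 ≤ j ∧ j ≤ L.length ∧ Y.sm (v.take i) + Y.sm (L.take j) = 0 := by
  have hw : Y.Saw (v.take l).reverse :=
    (Y.Saw_reverse_iff).2 (hv.fac (List.take_prefix _ _).isInfix)
  unfold Sys.Saw at h2
  push Not at h2
  obtain ⟨b, ⟨s, t, hb⟩, hb0, hb1⟩ := h2
  rw [List.append_assoc] at hb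
  rcases List.append_eq_append_iff.1 hb with ⟨a, h3, h4⟩ | ⟨c, h3, h4⟩
  · -- `w1 = s ++ a`, `b ++ t = a ++ L`
    rcases List.append_eq_append_iff.1 h4 with ⟨c, h5, h6⟩ | ⟨c, h5, h6⟩
    · -- `a = b ++ c`
      exact absurd hb1 (hw b ⟨s, c, by rw [h3, h5, List.append_assoc]⟩ hb0)
    · -- `b = a ++ c`, `L = c ++ t`
      have ha : a = (v.take a.length).reverse := by
        have h7 : a.reverse <+: v.take l := by
          refine ⟨s.reverse, ?_⟩
          rw [← List.reverse_append, ← h3, List.reverse_reverse]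
        have h8 : a.reverse <+: v := h7.trans (List.take_prefix _ _)
        have h9 := List.prefix_iff_eq_take.1 h8
        rw [List.length_reverse] at h9
        rw [← h9, List.reverse_reverse]
      have hal : a.length ≤ l := by
        have := congrArg List.length h3
        rw [List.length_append, List.length_reverse, List.length_take] at this
        omega
      have hc : c = L.take c.length := by rw [h6]; simp
      have hc0 : 1 ≤ c.length := by
        rcases Nat.eq_zero_or_pos c.length with h7 | h7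
        · have h8 : c = [] := List.length_eq_zero_iff.1 h7
          rw [h8, List.append_nil] at h5
          exact absurd hb1 (hw b ⟨s, [], by rw [h3, h5, List.append_nil]⟩ hb0)
        · exact h7
      have hcl : c.length ≤ L.length := by rw [h6, List.length_append]; omega
      refine ⟨a.length, c.length, ?_, hal, hc0, hcl, ?_⟩
      · by_contra hlt
        push Not at hlt
        refine h1 b ?_ hb0 hb1
        have h7 : a <:+ (v.take m0).reverse := by
          rw [← List.reverse_prefix, List.reverse_reverse]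
          refine List.prefix_of_prefix_length_le (l₃ := v) ?_ (List.take_prefix _ _) ?_
          · rw [ha, List.reverse_reverse]
            exact List.take_prefix _ _
          · rw [List.length_reverse, List.length_take]
            omega
        obtain ⟨s', hs'⟩ := h7
        exact ⟨s', t, by rw [h5, ← hs', h6]; simp⟩
      · rw [← hc]
        have h7 : Y.sm (v.take a.length) = Y.sm a := by
          conv_rhs => rw [ha, Y.sm_reverse]
        rw [h7, ← Y.sm_append, ← h5, hb1]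
  · -- `s = w1 ++ c`, `L = c ++ (b ++ t)`
    exact absurd hb1 (hL b ⟨c, t, by rw [h4, List.append_assoc]⟩ hb0)

/-- One word `v`, `m0 ≤ l ≤ |v|`: the walks that avoid `v.take m0` (attached to the start of
`v`) but not `v.take l` hit the part between. With `w0 = (v.take m0).reverse`,
`w1 = (v.take l).reverse = (a nonempty part) ++ w0`: `sv (w0 ++ L) - sv (w1 ++ L) ≤ ind (..)` for
`Y.Saw v`: a factor of `w1 ++ L` with displacement `0` is not inside `w1` and not inside
`w0 ++ L`, so it is `(v.take i).reverse ++ L.take j` with `m0 < i ≤ l`, `1 ≤ j`. Then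
`g w0 - g w1 ≤ lim (sv (w0 ++ L) g L) - ...` by `h.conf` for `w0` and `w1`. -/
theorem hit_diff (h : Cf Y K B g) {v : List S} (hv : Y.Saw v) {m0 l : ℕ} (h0 : m0 ≤ l)
    (hl : l ≤ v.length) {ε : ℝ} (hε : 0 < ε) :
    ∀ᶠ n in atTop, g (v.take m0).reverse - g (v.take l).reverse ≤
      (Y.E n fun L => g L * ind (∃ i j, m0 < i ∧ i ≤ l ∧ 1 ≤ j ∧ j ≤ n ∧
        Y.sm (v.take i) + Y.sm (L.take j) = 0)) + ε := by
  have h1 := (h.conf (v.take m0).reverse).sub (h.conf (v.take l).reverse)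
  filter_upwards [h1.eventually (lt_mem_nhds (show _ - ε < _ from sub_lt_self _ hε))] with n hn
  have h2 : (Y.E n fun L => Y.sv ((v.take m0).reverse ++ L) * g L) -
      (Y.E n fun L => Y.sv ((v.take l).reverse ++ L) * g L) ≤
      Y.E n fun L => g L * ind (∃ i j, m0 < i ∧ i ≤ l ∧ 1 ≤ j ∧ j ≤ n ∧
        Y.sm (v.take i) + Y.sm (L.take j) = 0) := by
    rw [← Y.E_fsub]
    refine Y.E_mono fun L hLn => ?_
    rw [← sub_mul, mul_comm (g L)]
    by_cases hL : Y.Saw L
    · refine mul_le_mul_of_nonneg_right ?_ (h.nonneg L)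
      by_cases hA : Y.Saw ((v.take m0).reverse ++ L)
      · by_cases hB : Y.Saw ((v.take l).reverse ++ L)
        · rw [Y.sv_of hA, Y.sv_of hB, sub_self]
          exact ind_nonneg _
        · obtain ⟨i, j, h3, h4, h5, h6, h7⟩ := hit_diff_fac hv hl hL hA hB
          rw [ind_of ⟨i, j, h3, h4, h5, hLn ▸ h6, h7⟩, Y.sv_of hA, Y.sv_of_not hB]
          norm_num
      · rw [Y.sv_of_not hA]
        have := Y.sv_nonneg ((v.take l).reverse ++ L)
        have := ind_nonneg (∃ i j, m0 < i ∧ i ≤ l ∧ 1 ≤ j ∧ j ≤ n ∧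
          Y.sm (v.take i) + Y.sm (L.take j) = 0)
        linarith
    · have h3 : g L = 0 := le_antisymm ((h.le_sv L).trans (Y.sv_of_not hL).le) (h.nonneg L)
      rw [h3, mul_zero, mul_zero]
  linarith
-- END hit_diff

-- BEGIN first_le
/-- the square of a density -/
private theorem first_le_sq (Y : Sys S V) (Ω : Finset V) (J : Finset ℕ) {f : List S → ℝ}
    (hf : ∀ w, 0 ≤ f w) (p : List S → V) :
    ∑ x ∈ Ω, (Y.L J fun w => f w * dl (p w - x)) ^ 2 ≤
      Y.L J fun u => Y.L J fun v => f u * f v * dl (p u - p v) := by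
  have h1 : ∀ x, (Y.L J fun w => f w * dl (p w - x)) ^ 2 =
      Y.L J fun u => Y.L J fun v => f u * f v * (dl (p u - x) * dl (p v - x)) := by
    intro x
    rw [sq, Y.L_mul_L]
    exact Y.L_congr fun u _ => Y.L_congr fun v _ => by ring
  simp only [h1]
  rw [← Y.L_fsum]
  refine Y.L_mono fun u _ => ?_
  rw [← Y.L_fsum]
  refine Y.L_mono fun v _ => ?_
  rw [← Finset.mul_sum]
  refine mul_le_mul_of_nonneg_left ?_ (mul_nonneg (hf u) (hf v))
  refine (Sys.sum_dl_le Ω (p u) (g := fun x => dl (p v - x)) (dl_nonneg _)).trans ?_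
  rw [dl_sub_comm]

/-- the energy as an iterated sum -/
private theorem first_le_L2 (Y : Sys S V) (g : List S → ℝ) (κ : ℝ) (J : Finset ℕ) :
    (Y.L J fun u => Y.L J fun v => ind (κ ≤ g u) * ind (κ ≤ g v) * dl (Y.sm u - Y.sm v)) =
      L2s Y g κ J := by
  unfold L2s Sys.L
  refine Finset.sum_congr rfl fun i _ => ?_
  rw [← Y.E_fsum]

/-- The first factor: the density of the points `v_(l+1)`, `m0 ≤ l < M`, for which `v.take l` is
good at the start. `Y.E M (sv v * ind (ε ≤ g (v.take l).reverse) * dl (sm (v.take (l+1)) - x))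
≤ K * Y.z * ∑ s, Y.E l (fun b => ind (ε ≤ g b.reverse) * dl (sm b + vec s - x))` (`E_add`,
`sv (b ++ [s] ++ c) ≤ sv c`), then `E_reverse` and the `ℓ²` norm of a sum of `card S` translates
(`sum_dl_le`, Cauchy-Schwarz) against `L2s`. -/
theorem first_le (h : Cf Y K B g) (ε : ℝ) (m0 M : ℕ) (Ω : Finset V) :
    ∑ x ∈ Ω, (Y.E M fun v => Y.sv v * ∑ l ∈ Ico m0 M,
      ind (ε ≤ g (v.take l).reverse) * dl (Y.sm (v.take (l + 1)) - x)) ^ 2 ≤
      (K * Y.z * Fintype.card S) ^ 2 * L2s Y g ε (Ico m0 M) := by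
  have hK : 0 ≤ K := zero_le_one.trans ((h.a_ge 0).trans (h.a_le 0))
  -- one length
  have h1 : ∀ x, ∀ l ∈ Ico m0 M, (Y.E M fun v => Y.sv v *
      (ind (ε ≤ g (v.take l).reverse) * dl (Y.sm (v.take (l + 1)) - x))) ≤
      K * Y.z * ∑ s, Y.E l fun b => ind (ε ≤ g b) * dl (Y.sm b + Y.vec s - x) := by
    intro x l hl
    obtain ⟨k, hk⟩ : ∃ k, M = l + (1 + k) := ⟨M - l - 1, by have := (mem_Ico.1 hl).2; omega⟩
    subst hk
    have h2 : ∀ s, Y.E l (fun b => ind (ε ≤ g b) * dl (Y.sm b + Y.vec s - x)) =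
        Y.E l fun b => ind (ε ≤ g b.reverse) * dl (Y.sm b + Y.vec s - x) := by
      intro s
      rw [← Y.E_reverse]
      simp only [Y.sm_reverse]
    simp only [h2]
    rw [← Y.E_fsum, ← Y.E_mul_left, Y.E_add]
    refine Y.E_mono fun b hb => ?_
    rw [Y.E_add]
    have h3 : ∀ (s c : List S), s.length = 1 → Y.sv (b ++ (s ++ c)) *
        (ind (ε ≤ g ((b ++ (s ++ c)).take l).reverse) *
          dl (Y.sm ((b ++ (s ++ c)).take (l + 1)) - x)) ≤
        Y.sv c * (ind (ε ≤ g b.reverse) * dl (Y.sm b + Y.sm s - x)) := by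
      intro s c hs
      have h4 : (b ++ (s ++ c)).take l = b := by
        rw [List.take_append_of_le_length hb.ge, ← hb, List.take_length]
      have h5 : (b ++ (s ++ c)).take (l + 1) = b ++ s := by
        rw [← List.append_assoc, List.take_append_of_le_length (by
          rw [List.length_append]; omega)]
        exact List.take_of_length_le (by rw [List.length_append]; omega)
      rw [h4, h5, Y.sm_append]
      refine mul_le_mul_of_nonneg_right ?_ (mul_nonneg (ind_nonneg _) (dl_nonneg _))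
      rw [← List.append_assoc]
      exact Y.sv_append_right _ _
    refine (Y.E_mono fun s hs => Y.E_mono fun c _ => h3 s c hs).trans ?_
    simp only [Y.E_mul_right]
    rw [Y.E_succ]
    simp only [Y.E_zero, Y.sm_cons, Y.sm_nil, add_zero]
    have h6 : Y.E k Y.sv ≤ K := h.a_le k
    have h7 : ∀ s : S, Y.E k (fun c => Y.sv c) *
        (ind (ε ≤ g b.reverse) * dl (Y.sm b + Y.vec s - x)) ≤
        K * (ind (ε ≤ g b.reverse) * dl (Y.sm b + Y.vec s - x)) := fun s =>
      mul_le_mul_of_nonneg_right h6 (mul_nonneg (ind_nonneg _) (dl_nonneg _))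
    calc Y.z * ∑ s : S, Y.E k (fun c => Y.sv c) *
          (ind (ε ≤ g b.reverse) * dl (Y.sm b + Y.vec s - x))
        ≤ Y.z * ∑ s : S, K * (ind (ε ≤ g b.reverse) * dl (Y.sm b + Y.vec s - x)) :=
          mul_le_mul_of_nonneg_left (Finset.sum_le_sum fun s _ => h7 s) Y.z_pos.le
      _ = K * Y.z * ∑ s : S, ind (ε ≤ g b.reverse) * dl (Y.sm b + Y.vec s - x) := by
          rw [← Finset.mul_sum]; ring
  -- one point
  have h2 : ∀ x, (Y.E M fun v => Y.sv v * ∑ l ∈ Ico m0 M,
      ind (ε ≤ g (v.take l).reverse) * dl (Y.sm (v.take (l + 1)) - x)) ≤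
      K * Y.z * ∑ s, Y.L (Ico m0 M) fun b => ind (ε ≤ g b) * dl (Y.sm b + Y.vec s - x) := by
    intro x
    simp only [Finset.mul_sum]
    rw [Y.E_fsum]
    unfold Sys.L
    simp only [Finset.mul_sum]
    rw [Finset.sum_comm]
    refine Finset.sum_le_sum fun l hl => ?_
    have := h1 x l hl
    rwa [Finset.mul_sum] at this
  have h3 : ∀ x, 0 ≤ Y.E M fun v => Y.sv v * ∑ l ∈ Ico m0 M,
      ind (ε ≤ g (v.take l).reverse) * dl (Y.sm (v.take (l + 1)) - x) := fun x =>
    Y.E_nonneg' fun v => mul_nonneg (Y.sv_nonneg _) (Finset.sum_nonneg fun l _ =>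
      mul_nonneg (ind_nonneg _) (dl_nonneg _))
  have h4 : ∀ x, (Y.E M fun v => Y.sv v * ∑ l ∈ Ico m0 M,
      ind (ε ≤ g (v.take l).reverse) * dl (Y.sm (v.take (l + 1)) - x)) ^ 2 ≤
      (K * Y.z) ^ 2 * (Fintype.card S * ∑ s, (Y.L (Ico m0 M) fun b =>
        ind (ε ≤ g b) * dl (Y.sm b + Y.vec s - x)) ^ 2) := by
    intro x
    refine (pow_le_pow_left₀ (h3 x) (h2 x) 2).trans ?_
    rw [mul_pow]
    refine mul_le_mul_of_nonneg_left ?_ (sq_nonneg _)
    have := sq_sum_le_card_mul_sum_sq (s := (Finset.univ : Finset S))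
      (f := fun s => Y.L (Ico m0 M) fun b => ind (ε ≤ g b) * dl (Y.sm b + Y.vec s - x))
    simpa using this
  have h5 : ∀ s : S, ∑ x ∈ Ω, (Y.L (Ico m0 M) fun b =>
      ind (ε ≤ g b) * dl (Y.sm b + Y.vec s - x)) ^ 2 ≤ L2s Y g ε (Ico m0 M) := by
    intro s
    refine (first_le_sq Y Ω (Ico m0 M) (fun w => ind_nonneg (ε ≤ g w))
      (fun w => Y.sm w + Y.vec s)).trans ?_
    rw [← first_le_L2]
    exact (Y.L_congr fun u _ => Y.L_congr fun v _ => by rw [add_sub_add_right_eq_sub]).le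
  calc ∑ x ∈ Ω, (Y.E M fun v => Y.sv v * ∑ l ∈ Ico m0 M,
        ind (ε ≤ g (v.take l).reverse) * dl (Y.sm (v.take (l + 1)) - x)) ^ 2
      ≤ ∑ x ∈ Ω, (K * Y.z) ^ 2 * (Fintype.card S * ∑ s, (Y.L (Ico m0 M) fun b =>
        ind (ε ≤ g b) * dl (Y.sm b + Y.vec s - x)) ^ 2) := Finset.sum_le_sum fun x _ => h4 x
    _ = (K * Y.z) ^ 2 * (Fintype.card S * ∑ s, ∑ x ∈ Ω, (Y.L (Ico m0 M) fun b =>
        ind (ε ≤ g b) * dl (Y.sm b + Y.vec s - x)) ^ 2) := by
        rw [← Finset.mul_sum, ← Finset.mul_sum, Finset.sum_comm]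
    _ ≤ (K * Y.z) ^ 2 * (Fintype.card S * ∑ _s : S, L2s Y g ε (Ico m0 M)) := by
        refine mul_le_mul_of_nonneg_left ?_ (sq_nonneg _)
        exact mul_le_mul_of_nonneg_left (Finset.sum_le_sum fun s _ => h5 s) (Nat.cast_nonneg _)
    _ = (K * Y.z * Fintype.card S) ^ 2 * L2s Y g ε (Ico m0 M) := by
        rw [Finset.sum_const, Finset.card_univ, nsmul_eq_mul]
        ring
-- END first_le

-- BEGIN second_le
/-- The second factor: the density of `- L_j` for `j < m2` or `L[m2, j]` good at the start.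
`j < m2`: each `x ↦ Y.E n (g L * dl (sm (L.take j) + x))` has sum `≤ 1`, so `ℓ²` norm `≤ 1`;
`j ≥ m2`: `g (u ++ b ++ c) ≤ ..`: `Y.E n (g L * F (L.take j)) = Y.E j (g * F)` (`E_take`),
`g (u ++ b) ≤ sv u * 1`, so the density is at most `Y.E m2 (fun u => sv u * (translate by sm u of
the density of the words b with ε' ≤ g b.reverse, |b| = j - m2))`, `ℓ²` norm
`≤ K * sqrt (L2s Y g ε' (range (n + 1)))` (Minkowski / Young), and `(a + b)² ≤ 2 a² + 2 b²`. -/
theorem second_le (h : Cf Y K B g) (ε' : ℝ) (m2 n : ℕ) (Ω : Finset V) :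
    ∑ x ∈ Ω, (Y.E n fun L => g L * ∑ j ∈ range (n + 1),
      ind (j < m2 ∨ ε' ≤ g ((L.take j).drop m2).reverse) * dl (x + Y.sm (L.take j))) ^ 2 ≤
      2 * (m2 : ℝ) ^ 2 + 2 * K ^ 2 * L2s Y g ε' (range (n + 1)) := by
  have hK : 0 ≤ K := zero_le_one.trans ((h.a_ge 0).trans (h.a_le 0))
  -- the early part
  set e : V → ℝ := fun x => ∑ j ∈ (range (n + 1)).filter (· < m2),
    Y.E j fun w => g w * dl (x + Y.sm w) with he
  -- the density of the good words
  set D : V → ℝ := fun y => Y.L (range (n + 1)) fun b => ind (ε' ≤ g b) * dl (y + Y.sm b) with hD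
  have he0 : ∀ x, 0 ≤ e x := fun x => Finset.sum_nonneg fun j _ =>
    Y.E_nonneg' fun w => mul_nonneg (h.nonneg _) (dl_nonneg _)
  have hD0 : ∀ y, 0 ≤ D y := fun y => Y.L_nonneg fun b => mul_nonneg (ind_nonneg _) (dl_nonneg _)
  have hcard : (((range (n + 1)).filter (· < m2)).card : ℝ) ≤ m2 := by
    have h1 : (range (n + 1)).filter (· < m2) ⊆ range m2 := by
      intro j hj
      exact mem_range.2 (mem_filter.1 hj).2
    have h2 := Finset.card_le_card h1
    rw [card_range] at h2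
    exact_mod_cast h2
  have he1 : ∀ x, e x ≤ m2 := by
    intro x
    refine le_trans ?_ hcard
    have h1 : e x ≤ ∑ _j ∈ (range (n + 1)).filter (· < m2), (1 : ℝ) := by
      refine Finset.sum_le_sum fun j _ => ?_
      rw [← E_g h j]
      exact Y.E_mono fun w _ => mul_le_of_le_one_right (h.nonneg _) (dl_le_one _)
    rwa [Finset.sum_const, nsmul_eq_mul, mul_one] at h1
  have he2 : ∑ x ∈ Ω, e x ≤ m2 := by
    refine le_trans ?_ hcard
    have h1 : ∑ x ∈ Ω, e x ≤ ∑ _j ∈ (range (n + 1)).filter (· < m2), (1 : ℝ) := by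
      rw [he, Finset.sum_comm]
      refine Finset.sum_le_sum fun j _ => ?_
      rw [← Y.E_fsum, ← E_g h j]
      refine Y.E_mono fun w _ => ?_
      rw [← Finset.mul_sum]
      refine mul_le_of_le_one_right (h.nonneg _) ?_
      have h2 := Sys.sum_dl_le Ω (- Y.sm w) (g := fun _ => (1 : ℝ)) zero_le_one
      refine le_trans (le_of_eq (Finset.sum_congr rfl fun x _ => ?_)) h2
      rw [mul_one, ← dl_neg, neg_add', sub_eq_add_neg, add_comm (-x), ← sub_eq_add_neg]
    rwa [Finset.sum_const, nsmul_eq_mul, mul_one] at h1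
  have he3 : ∑ x ∈ Ω, e x ^ 2 ≤ (m2 : ℝ) ^ 2 := by
    calc ∑ x ∈ Ω, e x ^ 2 ≤ ∑ x ∈ Ω, m2 * e x := Finset.sum_le_sum fun x _ => by
          rw [sq]; exact mul_le_mul_of_nonneg_right (he1 x) (he0 x)
      _ = m2 * ∑ x ∈ Ω, e x := by rw [Finset.mul_sum]
      _ ≤ m2 * m2 := mul_le_mul_of_nonneg_left he2 (Nat.cast_nonneg _)
      _ = (m2 : ℝ) ^ 2 := by ring
  -- the density of the good words
  have hD2 : ∀ y, ∑ x ∈ Ω, D (x + y) ^ 2 ≤ L2s Y g ε' (range (n + 1)) := by
    intro y
    have h1 : ∀ x, D (x + y) = Y.L (range (n + 1)) fun b =>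
        ind (ε' ≤ g b) * dl (- (y + Y.sm b) - x) := by
      intro x
      refine Y.L_congr fun b _ => ?_
      congr 1
      rw [← dl_neg]
      congr 1
      abel
    simp only [h1]
    refine (first_le_sq Y Ω (range (n + 1)) (fun w => ind_nonneg (ε' ≤ g w))
      (fun w => - (y + Y.sm w))).trans ?_
    rw [← first_le_L2]
    refine (Y.L_congr fun u _ => Y.L_congr fun v _ => ?_).le
    congr 1
    rw [dl_sub_comm]
    congr 1
    abel
  -- one time
  have hE : ∀ x, ∀ j ∈ range (n + 1), (Y.E n fun L => g L *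
      (ind (j < m2 ∨ ε' ≤ g ((L.take j).drop m2).reverse) * dl (x + Y.sm (L.take j)))) =
      Y.E j fun w => g w * (ind (j < m2 ∨ ε' ≤ g (w.drop m2).reverse) * dl (x + Y.sm w)) := by
    intro x j hj
    obtain ⟨k, hk⟩ : ∃ k, n = j + k := ⟨n - j, by have := mem_range.1 hj; omega⟩
    subst hk
    exact E_take h j k fun w => ind (j < m2 ∨ ε' ≤ g (w.drop m2).reverse) * dl (x + Y.sm w)
  have h1 : ∀ x, ∀ j ∈ (range (n + 1)).filter (¬ · < m2), (Y.E j fun w => g w *
      (ind (j < m2 ∨ ε' ≤ g (w.drop m2).reverse) * dl (x + Y.sm w))) ≤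
      Y.E m2 fun u => Y.sv u * Y.E (j - m2) fun b =>
        ind (ε' ≤ g b) * dl (x + Y.sm u + Y.sm b) := by
    intro x j hj
    obtain ⟨hj1, hj2⟩ := mem_filter.1 hj
    obtain ⟨k, hk⟩ : ∃ k, j = m2 + k := ⟨j - m2, by omega⟩
    subst hk
    rw [show m2 + k - m2 = k by omega, Y.E_add]
    refine Y.E_mono fun u hu => ?_
    have h2 : (Y.E k fun b => ind (ε' ≤ g b) * dl (x + Y.sm u + Y.sm b)) =
        Y.E k fun b => ind (ε' ≤ g b.reverse) * dl (x + Y.sm u + Y.sm b) := by
      rw [← Y.E_reverse]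
      simp only [Y.sm_reverse]
    rw [h2, ← Y.E_mul_left]
    refine Y.E_mono fun b _ => ?_
    have h3 : (u ++ b).drop m2 = b := by
      rw [List.drop_append, List.drop_eq_nil_of_le hu.le, hu]
      simp
    rw [h3, Y.sm_append, ← add_assoc]
    refine mul_le_mul ((h.le_sv _).trans (Y.sv_append_left u b)) ?_
      (mul_nonneg (ind_nonneg _) (dl_nonneg _)) (Y.sv_nonneg _)
    refine mul_le_mul_of_nonneg_right (ind_mono ?_) (dl_nonneg _)
    rintro (h4 | h4)
    · exact absurd h4 hj2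
    · exact h4
  have h2 : ∀ x, (Y.E n fun L => g L * ∑ j ∈ range (n + 1),
      ind (j < m2 ∨ ε' ≤ g ((L.take j).drop m2).reverse) * dl (x + Y.sm (L.take j))) ≤
      e x + Y.E m2 fun u => Y.sv u * D (x + Y.sm u) := by
    intro x
    simp only [Finset.mul_sum]
    rw [Y.E_fsum, Finset.sum_congr rfl (hE x), ← Finset.sum_filter_add_sum_filter_not _ (· < m2)]
    refine add_le_add (Finset.sum_le_sum fun j hj => ?_) ?_
    · refine Y.E_mono fun w _ => mul_le_mul_of_nonneg_left ?_ (h.nonneg w)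
      exact mul_le_of_le_one_left (dl_nonneg _) (ind_le_one _)
    · refine (Finset.sum_le_sum fun j hj => h1 x j hj).trans ?_
      rw [← Y.E_fsum]
      refine Y.E_mono fun u _ => ?_
      rw [← Finset.mul_sum]
      refine mul_le_mul_of_nonneg_left ?_ (Y.sv_nonneg u)
      rw [hD]
      unfold Sys.L
      have h3 : ∑ j ∈ (range (n + 1)).filter (¬ · < m2), (Y.E (j - m2) fun b =>
          ind (ε' ≤ g b) * dl (x + Y.sm u + Y.sm b)) =
          ∑ j ∈ ((range (n + 1)).filter (¬ · < m2)).image (· - m2), Y.E j fun b =>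
          ind (ε' ≤ g b) * dl (x + Y.sm u + Y.sm b) := by
        rw [Finset.sum_image]
        intro a ha b hb hab
        have ha' := (mem_filter.1 ha).2
        have hb' := (mem_filter.1 hb).2
        simp only at hab
        omega
      rw [h3]
      refine Finset.sum_le_sum_of_subset_of_nonneg ?_ fun j _ _ =>
        Y.E_nonneg' fun b => mul_nonneg (ind_nonneg _) (dl_nonneg _)
      intro j hj
      obtain ⟨i, hi, rfl⟩ := mem_image.1 hj
      have := mem_range.1 (mem_filter.1 hi).1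
      exact mem_range.2 (by omega)
  have h3 : ∀ x, 0 ≤ Y.E n fun L => g L * ∑ j ∈ range (n + 1),
      ind (j < m2 ∨ ε' ≤ g ((L.take j).drop m2).reverse) * dl (x + Y.sm (L.take j)) := fun x =>
    Y.E_nonneg' fun L => mul_nonneg (h.nonneg _) (Finset.sum_nonneg fun j _ =>
      mul_nonneg (ind_nonneg _) (dl_nonneg _))
  have h4 : ∀ x, (Y.E m2 fun u => Y.sv u * D (x + Y.sm u)) ^ 2 ≤
      K * Y.E m2 fun u => Y.sv u * D (x + Y.sm u) ^ 2 := by
    intro x
    have h5 := Y.L_cs {m2} (h := Y.sv) Y.sv_nonneg fun u => D (x + Y.sm u)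
    unfold Sys.L at h5
    simp only [Finset.sum_singleton] at h5
    refine h5.trans (mul_le_mul_of_nonneg_right (h.a_le m2) ?_)
    exact Y.E_nonneg' fun u => mul_nonneg (Y.sv_nonneg _) (sq_nonneg _)
  have h5 : ∑ x ∈ Ω, (Y.E m2 fun u => Y.sv u * D (x + Y.sm u)) ^ 2 ≤
      K ^ 2 * L2s Y g ε' (range (n + 1)) := by
    have hL0 : 0 ≤ L2s Y g ε' (range (n + 1)) :=
      (Finset.sum_nonneg fun x _ => sq_nonneg _).trans (hD2 0)
    calc ∑ x ∈ Ω, (Y.E m2 fun u => Y.sv u * D (x + Y.sm u)) ^ 2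
        ≤ ∑ x ∈ Ω, K * Y.E m2 fun u => Y.sv u * D (x + Y.sm u) ^ 2 :=
          Finset.sum_le_sum fun x _ => h4 x
      _ = K * Y.E m2 fun u => Y.sv u * ∑ x ∈ Ω, D (x + Y.sm u) ^ 2 := by
          rw [← Finset.mul_sum, ← Y.E_fsum]
          simp only [Finset.mul_sum]
      _ ≤ K * Y.E m2 fun u => Y.sv u * L2s Y g ε' (range (n + 1)) :=
          mul_le_mul_of_nonneg_left (Y.E_mono fun u _ =>
            mul_le_mul_of_nonneg_left (hD2 _) (Y.sv_nonneg _)) hK
      _ = K * (Y.a m2 * L2s Y g ε' (range (n + 1))) := by rw [Y.E_mul_right]; rfl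
      _ ≤ K * (K * L2s Y g ε' (range (n + 1))) :=
          mul_le_mul_of_nonneg_left (mul_le_mul_of_nonneg_right (h.a_le m2) hL0) hK
      _ = K ^ 2 * L2s Y g ε' (range (n + 1)) := by ring
  calc ∑ x ∈ Ω, (Y.E n fun L => g L * ∑ j ∈ range (n + 1),
        ind (j < m2 ∨ ε' ≤ g ((L.take j).drop m2).reverse) * dl (x + Y.sm (L.take j))) ^ 2
      ≤ ∑ x ∈ Ω, (2 * e x ^ 2 + 2 * (Y.E m2 fun u => Y.sv u * D (x + Y.sm u)) ^ 2) := by
        refine Finset.sum_le_sum fun x _ => (pow_le_pow_left₀ (h3 x) (h2 x) 2).trans ?_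
        nlinarith [sq_nonneg (e x - Y.E m2 fun u => Y.sv u * D (x + Y.sm u))]
    _ = 2 * ∑ x ∈ Ω, e x ^ 2 + 2 * ∑ x ∈ Ω, (Y.E m2 fun u => Y.sv u * D (x + Y.sm u)) ^ 2 := by
        rw [Finset.sum_add_distrib, Finset.mul_sum, Finset.mul_sum]
    _ ≤ 2 * (m2 : ℝ) ^ 2 + 2 * K ^ 2 * L2s Y g ε' (range (n + 1)) := by linarith
-- END second_le

-- BEGIN pairs_le
/-- Cauchy-Schwarz for `first_le` and `second_le` (`Ω` = all displacements of words of length
`≤ M`, `Y.Om M` of `Bub4.L2`, `dl (x + y) = ∑ p ∈ Ω, dl (x - p) * dl (p + y)`). -/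
theorem pairs_le (h : Cf Y K B g) (ε ε' : ℝ) (m0 m2 M n : ℕ) :
    (Y.E M fun v => Y.E n fun L => Y.sv v * g L * ∑ l ∈ Ico m0 M, ∑ j ∈ range (n + 1),
      ind (ε ≤ g (v.take l).reverse) *
      (ind (j < m2 ∨ ε' ≤ g ((L.take j).drop m2).reverse) *
        dl (Y.sm (v.take (l + 1)) + Y.sm (L.take j)))) ≤
      Real.sqrt ((K * Y.z * Fintype.card S) ^ 2 * L2s Y g ε (Ico m0 M)) *
      Real.sqrt (2 * (m2 : ℝ) ^ 2 + 2 * K ^ 2 * L2s Y g ε' (range (n + 1))) := by
  set F1 : V → ℝ := fun x => Y.E M fun v => Y.sv v * ∑ l ∈ Ico m0 M,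
      ind (ε ≤ g (v.take l).reverse) * dl (Y.sm (v.take (l + 1)) - x) with hF1
  set F2 : V → ℝ := fun x => Y.E n fun L => g L * ∑ j ∈ range (n + 1),
      ind (j < m2 ∨ ε' ≤ g ((L.take j).drop m2).reverse) * dl (x + Y.sm (L.take j)) with hF2
  have h1 : (Y.E M fun v => Y.E n fun L => Y.sv v * g L * ∑ l ∈ Ico m0 M, ∑ j ∈ range (n + 1),
      ind (ε ≤ g (v.take l).reverse) *
      (ind (j < m2 ∨ ε' ≤ g ((L.take j).drop m2).reverse) *
        dl (Y.sm (v.take (l + 1)) + Y.sm (L.take j)))) = ∑ x ∈ Y.Om M, F1 x * F2 x := by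
    have h2 : ∀ x, F1 x * F2 x = Y.E M fun v => Y.E n fun L => Y.sv v * g L *
        ∑ l ∈ Ico m0 M, ∑ j ∈ range (n + 1), ind (ε ≤ g (v.take l).reverse) *
        (ind (j < m2 ∨ ε' ≤ g ((L.take j).drop m2).reverse) *
          (dl (Y.sm (v.take (l + 1)) - x) * dl (x + Y.sm (L.take j)))) := by
      intro x
      simp only [hF1, hF2]
      rw [← Y.E_mul_right]
      refine Y.E_congr fun v _ => ?_
      rw [← Y.E_mul_left]
      refine Y.E_congr fun L _ => ?_
      rw [mul_mul_mul_comm, Finset.sum_mul_sum]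
      congr 1
      exact Finset.sum_congr rfl fun l _ => Finset.sum_congr rfl fun j _ => by ring
    simp only [h2]
    rw [← Y.E_fsum]
    refine Y.E_congr fun v hv => ?_
    rw [← Y.E_fsum]
    refine Y.E_congr fun L _ => ?_
    rw [← Finset.mul_sum]
    congr 1
    conv_rhs => rw [Finset.sum_comm]
    refine Finset.sum_congr rfl fun l _ => ?_
    conv_rhs => rw [Finset.sum_comm]
    refine Finset.sum_congr rfl fun j _ => ?_
    rw [← Finset.mul_sum, ← Finset.mul_sum]
    rw [Sys.sum_dl_eq (Y.mem_Om (by rw [List.length_take]; omega))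
      (fun x => dl (x + Y.sm (L.take j)))]
  rw [h1]
  refine (Real.sum_mul_le_sqrt_mul_sqrt _ _ _).trans ?_
  exact mul_le_mul (Real.sqrt_le_sqrt (first_le h ε m0 M _))
    (Real.sqrt_le_sqrt (second_le h ε' m2 n _)) (Real.sqrt_nonneg _) (Real.sqrt_nonneg _)
-- END pairs_le

-- BEGIN end_b
private theorem end_b_one (h : Cf Y K B g) {v : List S} (hv : Y.Saw v) {m0 : ℕ} {ε : ℝ}
    (hε : 0 < ε) (hev : 2 * ε ≤ g (v.take m0).reverse ∧ g v.reverse < ε) {ε₁ : ℝ}
    (hε₁ : 0 < ε₁) :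
    ∀ᶠ n in atTop, ε ≤ (Y.E n fun L => g L * ind (∃ i j, m0 < i ∧ i ≤ v.length ∧
      ε ≤ g (v.take (i - 1)).reverse ∧ 1 ≤ j ∧ j ≤ n ∧
        Y.sm (v.take i) + Y.sm (L.take j) = 0)) + ε₁ := by
  classical
  have hex : ∃ l, g (v.take l).reverse < ε := ⟨v.length, by rw [List.take_length]; exact hev.2⟩
  set l := Nat.find hex with hl
  have hl1 : g (v.take l).reverse < ε := Nat.find_spec hex
  have hl2 : ∀ j < l, ¬ g (v.take j).reverse < ε := fun j hj => Nat.find_min hex hj
  have hl3 : l ≤ v.length := Nat.find_min' hex (by rw [List.take_length]; exact hev.2)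
  have hl4 : m0 ≤ l := by
    by_contra hc
    have hc' : l ≤ m0 := (not_le.1 hc).le
    have e1 : v.take l ++ (v.take m0).drop l = v.take m0 := by
      have := List.take_append_drop l (v.take m0)
      rwa [List.take_take, min_eq_left hc'] at this
    have e2 := s_mono h (v.take l) ((v.take m0).drop l)
    rw [e1] at e2
    linarith [hev.1]
  filter_upwards [hit_diff h hv hl4 hl3 hε₁] with n hn
  have e3 : (Y.E n fun L => g L * ind (∃ i j, m0 < i ∧ i ≤ l ∧ 1 ≤ j ∧ j ≤ n ∧
        Y.sm (v.take i) + Y.sm (L.take j) = 0)) ≤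
      Y.E n fun L => g L * ind (∃ i j, m0 < i ∧ i ≤ v.length ∧
        ε ≤ g (v.take (i - 1)).reverse ∧ 1 ≤ j ∧ j ≤ n ∧
          Y.sm (v.take i) + Y.sm (L.take j) = 0) := by
    refine Y.E_mono fun L _ => mul_le_mul_of_nonneg_left (ind_mono ?_) (h.nonneg L)
    rintro ⟨i, j, h1, h2, h3, h4, h5⟩
    exact ⟨i, j, h1, h2.trans hl3, not_lt.1 (hl2 (i - 1) (by omega)), h3, h4, h5⟩
  linarith [hev.1]

private theorem end_b_two (h : Cf Y K B g) (v L : List S) (ε ε' : ℝ) (m0 m2 M n : ℕ)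
    (hM : v.length = M) (hn : L.length = n) :
    ind (∃ i j, m0 < i ∧ i ≤ v.length ∧
        ε ≤ g (v.take (i - 1)).reverse ∧ 1 ≤ j ∧ j ≤ n ∧
          Y.sm (v.take i) + Y.sm (L.take j) = 0) ≤
      ind (g (L.drop m2).reverse < ε') + ∑ l ∈ Ico m0 M, ∑ j ∈ range (n + 1),
        ind (ε ≤ g (v.take l).reverse) *
        (ind (j < m2 ∨ ε' ≤ g ((L.take j).drop m2).reverse) *
          dl (Y.sm (v.take (l + 1)) + Y.sm (L.take j))) := by
  have hterm : ∀ l j, 0 ≤ ind (ε ≤ g (v.take l).reverse) *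
        (ind (j < m2 ∨ ε' ≤ g ((L.take j).drop m2).reverse) *
          dl (Y.sm (v.take (l + 1)) + Y.sm (L.take j))) := fun l j =>
    mul_nonneg (ind_nonneg _) (mul_nonneg (ind_nonneg _) (dl_nonneg _))
  have hsum0 : 0 ≤ ∑ l ∈ Ico m0 M, ∑ j ∈ range (n + 1),
        ind (ε ≤ g (v.take l).reverse) *
        (ind (j < m2 ∨ ε' ≤ g ((L.take j).drop m2).reverse) *
          dl (Y.sm (v.take (l + 1)) + Y.sm (L.take j))) :=
    Finset.sum_nonneg fun l _ => Finset.sum_nonneg fun j _ => hterm l j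
  by_cases hx : ∃ i j, m0 < i ∧ i ≤ v.length ∧
        ε ≤ g (v.take (i - 1)).reverse ∧ 1 ≤ j ∧ j ≤ n ∧
          Y.sm (v.take i) + Y.sm (L.take j) = 0
  · rw [ind_of hx]
    obtain ⟨i, j, h1, h2, h3, h4, h5, h6⟩ := hx
    by_cases hj : j < m2 ∨ ε' ≤ g ((L.take j).drop m2).reverse
    · have e1 : ind (ε ≤ g (v.take (i - 1)).reverse) *
        (ind (j < m2 ∨ ε' ≤ g ((L.take j).drop m2).reverse) *
          dl (Y.sm (v.take (i - 1 + 1)) + Y.sm (L.take j))) = 1 := by
        rw [ind_of h3, ind_of hj, Nat.sub_add_cancel (by omega), dl_of_eq h6]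
        norm_num
      have e2 := Finset.single_le_sum (f := fun j => ind (ε ≤ g (v.take (i - 1)).reverse) *
        (ind (j < m2 ∨ ε' ≤ g ((L.take j).drop m2).reverse) *
          dl (Y.sm (v.take (i - 1 + 1)) + Y.sm (L.take j)))) (fun j _ => hterm (i - 1) j)
          (Finset.mem_range.2 (Nat.lt_succ_of_le h5))
      have e3 := Finset.single_le_sum (f := fun l => ∑ j ∈ range (n + 1),
        ind (ε ≤ g (v.take l).reverse) *
        (ind (j < m2 ∨ ε' ≤ g ((L.take j).drop m2).reverse) *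
          dl (Y.sm (v.take (l + 1)) + Y.sm (L.take j))))
          (fun l _ => Finset.sum_nonneg fun j _ => hterm l j)
          (Finset.mem_Ico.2 (show m0 ≤ i - 1 ∧ i - 1 < M by omega))
      have e4 := ind_nonneg (g (L.drop m2).reverse < ε')
      beta_reduce at e2 e3
      linarith
    · push Not at hj
      have hlen : m2 ≤ (L.take j).length := by
        rw [List.length_take, hn, min_eq_left h5]; exact hj.1
      have e1 : (L.take j).drop m2 ++ L.drop j = L.drop m2 := by
        rw [← List.drop_append_of_le_length hlen, List.take_append_drop]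
      have e2 := s_mono h ((L.take j).drop m2) (L.drop j)
      rw [e1] at e2
      rw [ind_of (lt_of_le_of_lt e2 hj.2)]
      linarith
  · rw [ind_not hx]
    exact add_nonneg (ind_nonneg _) hsum0

/-- (2b). `δ = ε ^ 2`, `ε', m2` from `end_a`, `C'` from `hL ε'`, `m0` from `L2_tail` such that the
right side of `pairs_le` is `≤ ε ^ 2`. For `v` in the event let `l* > m0` be the first `l` with
`g (v.take l).reverse < ε`; `g (v.take m0).reverse - g (v.take l*).reverse > ε`; by `hit_diff`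
(finitely many `v`: one `n` for all) `ε ≤ Y.E n (g L * ind (hit (i, j), m0 < i ≤ l*)) + ε₁`; a hit
at `(i, j)` has `ε ≤ g (v.take (i - 1)).reverse` (`i - 1 < l*`; `i - 1 = m0` uses
`2 ε ≤ g (v.take m0).reverse`) and either `g ((L.take j).drop m2).reverse < ε'` for some
`m2 ≤ j ≤ n`, so `g (L.drop m2).reverse < ε'` (`s_mono`), probability `≤ δ` (`end_a`), or it is
counted in `pairs_le`. Sum over `v`: `ε * mass ≤ K * δ + ε ^ 2 + K * ε₁`, all `ε₁ > 0`. -/
theorem end_b (h : Cf Y K B g) (hL : HL2 Y g) {ε : ℝ} (hε : 0 < ε) :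
    ∃ m0 : ℕ, ∀ M ≥ m0, (Y.E M fun v => Y.sv v *
      ind (2 * ε ≤ g (v.take m0).reverse ∧ g v.reverse < ε)) ≤ (K + 1) * ε := by
  have hK : 1 ≤ K := one_le_K h
  have hK0 : 0 < K := by linarith
  obtain ⟨ε', hε', m2, hm2⟩ := end_a h (show 0 < ε ^ 2 by positivity)
  obtain ⟨C', hC'⟩ := hL ε' hε'
  set A : ℝ := K * Y.z * Fintype.card S with hA
  set D : ℝ := Real.sqrt (2 * (m2 : ℝ) ^ 2 + 2 * K ^ 2 * C') with hD
  have hD0 : 0 ≤ D := Real.sqrt_nonneg _
  have hA0 : 0 ≤ |A| := abs_nonneg _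
  set η : ℝ := ε ^ 2 / ((|A| + 1) * (D + 1)) with hη
  have hη0 : 0 < η := by positivity
  obtain ⟨m0, hm0⟩ := L2_tail hL hε (show 0 < η ^ 2 by positivity)
  refine ⟨m0, fun M hM => ?_⟩
  have hpair : ∀ n : ℕ, (Y.E M fun v => Y.E n fun L => Y.sv v * g L *
      ∑ l ∈ Ico m0 M, ∑ j ∈ range (n + 1),
      ind (ε ≤ g (v.take l).reverse) *
      (ind (j < m2 ∨ ε' ≤ g ((L.take j).drop m2).reverse) *
        dl (Y.sm (v.take (l + 1)) + Y.sm (L.take j)))) ≤ ε ^ 2 := by
    intro n
    refine (pairs_le h ε ε' m0 m2 M n).trans ?_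
    have e1 : Real.sqrt ((K * Y.z * Fintype.card S) ^ 2 * L2s Y g ε (Ico m0 M)) ≤ |A| * η := by
      rw [← hA]
      calc Real.sqrt (A ^ 2 * L2s Y g ε (Ico m0 M)) ≤ Real.sqrt (A ^ 2 * η ^ 2) :=
            Real.sqrt_le_sqrt (mul_le_mul_of_nonneg_left (hm0 M hM) (sq_nonneg A))
        _ = |A| * η := by
            rw [← mul_pow, Real.sqrt_sq_eq_abs, abs_mul, abs_of_pos hη0]
    have e2 : Real.sqrt (2 * (m2 : ℝ) ^ 2 + 2 * K ^ 2 * L2s Y g ε' (range (n + 1))) ≤ D := by
      refine Real.sqrt_le_sqrt ?_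
      have := mul_le_mul_of_nonneg_left (hC' (n + 1)) (show 0 ≤ 2 * K ^ 2 by positivity)
      linarith
    calc _ ≤ (|A| * η) * D := mul_le_mul e1 e2 (Real.sqrt_nonneg _) (by positivity)
      _ ≤ ε ^ 2 := by
        rw [hη]
        rw [show |A| * (ε ^ 2 / ((|A| + 1) * (D + 1))) * D =
          ε ^ 2 * ((|A| * D) / ((|A| + 1) * (D + 1))) by ring]
        refine mul_le_of_le_one_right (sq_nonneg _) ?_
        rw [div_le_one (by positivity)]
        nlinarith
  have hkey : ∀ ε₁ : ℝ, 0 < ε₁ → ε * (Y.E M fun v => Y.sv v *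
      ind (2 * ε ≤ g (v.take m0).reverse ∧ g v.reverse < ε)) ≤
      K * ε ^ 2 + ε ^ 2 + K * ε₁ := by
    intro ε₁ hε₁
    have hfin : ∀ᶠ n in atTop, ∀ v ∈ {v : List S | v.length = M}, Y.Saw v →
        (2 * ε ≤ g (v.take m0).reverse ∧ g v.reverse < ε) →
        ε ≤ (Y.E n fun L => g L * ind (∃ i j, m0 < i ∧ i ≤ v.length ∧
          ε ≤ g (v.take (i - 1)).reverse ∧ 1 ≤ j ∧ j ≤ n ∧
            Y.sm (v.take i) + Y.sm (L.take j) = 0)) + ε₁ := by
      refine (Filter.eventually_all_finite (List.finite_length_eq S M)).2 fun v _ => ?_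
      by_cases hv : Y.Saw v
      · by_cases hev : 2 * ε ≤ g (v.take m0).reverse ∧ g v.reverse < ε
        · filter_upwards [end_b_one h hv hε hev hε₁] with n hn
          exact fun _ _ => hn
        · exact Filter.Eventually.of_forall fun n _ h2 => absurd h2 hev
      · exact Filter.Eventually.of_forall fun n h1 => absurd h1 hv
    obtain ⟨n, hn1, hn2⟩ := (hfin.and (Filter.eventually_ge_atTop m2)).exists
    have hshift : (Y.E n fun L => g L * ind (g (L.drop m2).reverse < ε')) ≤ ε ^ 2 := by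
      obtain ⟨k, rfl⟩ := Nat.exists_eq_add_of_le hn2
      rw [Y.E_add]
      refine le_trans (Y.E_mono fun u hu => Y.E_mono fun b _ => ?_) (hm2 k)
      rw [← hu, List.drop_left]
    rw [← Y.E_mul_left]
    have hpt : (Y.E M fun v => ε * (Y.sv v *
        ind (2 * ε ≤ g (v.take m0).reverse ∧ g v.reverse < ε))) ≤
        Y.E M fun v => (Y.sv v * (ε ^ 2 + ε₁)) + Y.E n fun L => Y.sv v * g L *
          ∑ l ∈ Ico m0 M, ∑ j ∈ range (n + 1),
          ind (ε ≤ g (v.take l).reverse) *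
          (ind (j < m2 ∨ ε' ≤ g ((L.take j).drop m2).reverse) *
            dl (Y.sm (v.take (l + 1)) + Y.sm (L.take j))) := by
      refine Y.E_mono fun v hv => ?_
      have hR0 : 0 ≤ Y.E n fun L => Y.sv v * g L *
          ∑ l ∈ Ico m0 M, ∑ j ∈ range (n + 1),
          ind (ε ≤ g (v.take l).reverse) *
          (ind (j < m2 ∨ ε' ≤ g ((L.take j).drop m2).reverse) *
            dl (Y.sm (v.take (l + 1)) + Y.sm (L.take j))) :=
        Y.E_nonneg' fun L => mul_nonneg (mul_nonneg (Y.sv_nonneg v) (h.nonneg L))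
          (Finset.sum_nonneg fun l _ => Finset.sum_nonneg fun j _ =>
            mul_nonneg (ind_nonneg _) (mul_nonneg (ind_nonneg _) (dl_nonneg _)))
      by_cases hs : Y.Saw v
      · by_cases hev : 2 * ε ≤ g (v.take m0).reverse ∧ g v.reverse < ε
        · rw [ind_of hev, Y.sv_of hs]
          have e1 := hn1 v hv hs hev
          have e2 : (Y.E n fun L => g L * ind (∃ i j, m0 < i ∧ i ≤ v.length ∧
              ε ≤ g (v.take (i - 1)).reverse ∧ 1 ≤ j ∧ j ≤ n ∧
                Y.sm (v.take i) + Y.sm (L.take j) = 0)) ≤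
              Y.E n fun L => g L * ind (g (L.drop m2).reverse < ε') + 1 * g L *
                ∑ l ∈ Ico m0 M, ∑ j ∈ range (n + 1),
                ind (ε ≤ g (v.take l).reverse) *
                (ind (j < m2 ∨ ε' ≤ g ((L.take j).drop m2).reverse) *
                  dl (Y.sm (v.take (l + 1)) + Y.sm (L.take j))) := by
            refine Y.E_mono fun L hLn => ?_
            have := mul_le_mul_of_nonneg_left (end_b_two h v L ε ε' m0 m2 M n hv hLn)
              (h.nonneg L)
            rw [mul_add] at this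
            rw [one_mul]
            exact this
          rw [Y.E_fadd] at e2
          linarith
        · rw [ind_not hev, mul_zero, mul_zero]
          exact add_nonneg (mul_nonneg (Y.sv_nonneg v) (by positivity)) hR0
      · rw [Y.sv_of_not hs] at hR0 ⊢
        rw [zero_mul, mul_zero, zero_mul, zero_add]
        exact hR0
    refine hpt.trans ?_
    rw [Y.E_fadd, Y.E_mul_right]
    have e1 : Y.E M (fun v => Y.sv v) ≤ K := h.a_le M
    have e2 := mul_le_mul_of_nonneg_right e1 (show 0 ≤ ε ^ 2 + ε₁ by positivity)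
    have e3 := hpair n
    linarith
  have hlim : ε * (Y.E M fun v => Y.sv v *
      ind (2 * ε ≤ g (v.take m0).reverse ∧ g v.reverse < ε)) ≤ K * ε ^ 2 + ε ^ 2 := by
    refine le_of_forall_pos_le_add fun e he => ?_
    have := hkey (e / K) (by positivity)
    rw [mul_div_cancel₀ e hK0.ne'] at this
    exact this
  have : ε * (Y.E M fun v => Y.sv v *
      ind (2 * ε ≤ g (v.take m0).reverse ∧ g v.reverse < ε)) ≤ ε * ((K + 1) * ε) := by
    nlinarith
  exact le_of_mul_le_mul_left this hε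
-- END end_b

-- BEGIN end_c
/-- (2c). `ε = η / (3 * K * (K + B + 1))` or so, `m0` from `end_b`, `m1` with
`fx Y c.reverse m1 ≤ B * g c.reverse + ε` for the finitely many `c` of length `m0` (`h.up`).
`Y.E m1 (fun u => Y.E n (fun v => sv (u ++ v) * F v)) = Y.E n (fun v => fx Y v.reverse m1 * F v)`
(`E_left`), split according to `2 ε ≤ g (v.take m0).reverse`: first part `≤ K * (K + 1) * ε`
(`fx ≤ K * sv`), second part: `fx Y v.reverse m1 ≤ fx Y (v.take m0).reverse m1 ≤ (2 B + 1) ε`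
times `sv v`, `Y.a n ≤ K`. `n0 = m0`. -/
theorem end_c (h : Cf Y K B g) (hL : HL2 Y g) {η : ℝ} (hη : 0 < η) :
    ∃ ε : ℝ, 0 < ε ∧ ∃ m1 n0 : ℕ, ∀ n ≥ n0,
      (Y.E m1 fun u => Y.E n fun v => Y.sv (u ++ v) * ind (g v.reverse < ε)) ≤ η := by
  have hK : 1 ≤ K := one_le_K h
  have hB : 1 ≤ B := B_ge h
  obtain ⟨c, hc⟩ : ∃ c : ℝ, c = K * (K + 2 * B + 2) := ⟨_, rfl⟩
  have hc0 : 0 < c := by
    rw [hc]
    positivity
  have hε : 0 < η / c := div_pos hη hc0
  obtain ⟨ε, hεdef⟩ : ∃ ε : ℝ, ε = η / c := ⟨_, rfl⟩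
  rw [← hεdef] at hε
  obtain ⟨m0, hm0⟩ := end_b h hL hε
  have hfin : ∀ᶠ n in atTop, ∀ v : List.Vector S m0,
      fx Y v.toList.reverse n ≤ B * g v.toList.reverse + ε :=
    eventually_all.2 fun v => h.up v.toList.reverse ε hε
  obtain ⟨m1, hm1⟩ := hfin.exists
  refine ⟨ε, hε, m1, m0, fun n hn => ?_⟩
  have hpt : ∀ v : List S, v.length = n →
      (Y.E m1 fun u => Y.sv (u ++ v) * ind (g v.reverse < ε)) ≤
        K * (Y.sv v * ind (2 * ε ≤ g (v.take m0).reverse ∧ g v.reverse < ε)) +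
          (2 * B + 1) * ε * Y.sv v := by
    intro v hv
    have hsv : 0 ≤ Y.sv v := Y.sv_nonneg v
    rw [Y.E_mul_right, (E_left Y v m1).1]
    have hfx0 : 0 ≤ fx Y v.reverse m1 := Y.E_nonneg' fun _ => Y.sv_nonneg _
    by_cases h1 : g v.reverse < ε
    · rw [ind_of h1, mul_one]
      by_cases h2 : 2 * ε ≤ g (v.take m0).reverse
      · rw [ind_of ⟨h2, h1⟩, mul_one]
        have h3 : fx Y v.reverse m1 ≤ K * Y.sv v := by
          calc fx Y v.reverse m1 ≤ Y.E m1 (fun x => Y.sv v * Y.sv x) := by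
                refine Y.E_mono fun x _ => ?_
                have h4 := Y.sv_append_le v.reverse x
                rwa [Y.sv_reverse] at h4
            _ = Y.sv v * Y.a m1 := Y.E_mul_left _ _ _
            _ ≤ Y.sv v * K := mul_le_mul_of_nonneg_left (h.a_le m1) hsv
            _ = K * Y.sv v := mul_comm _ _
        have h4 : 0 ≤ (2 * B + 1) * ε * Y.sv v := by positivity
        linarith
      · have h3 : ¬ (2 * ε ≤ g (v.take m0).reverse ∧ g v.reverse < ε) := fun h => h2 h.1
        rw [ind_not h3, mul_zero, mul_zero, zero_add]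
        have hlen : (v.take m0).length = m0 := by
          rw [List.length_take, hv]
          exact min_eq_left hn
        have h4 : fx Y (v.take m0).reverse m1 ≤ B * g (v.take m0).reverse + ε :=
          hm1 ⟨v.take m0, hlen⟩
        have h5 : fx Y v.reverse m1 ≤ Y.sv v * fx Y (v.take m0).reverse m1 := by
          unfold fx
          rw [← Y.E_mul_left]
          refine Y.E_mono fun x _ => ?_
          have h6 : v.reverse ++ x = (v.drop m0).reverse ++ ((v.take m0).reverse ++ x) := by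
            rw [← List.append_assoc, ← List.reverse_append, List.take_append_drop]
          by_cases hs : Y.Saw (v.reverse ++ x)
          · have h7 : Y.Saw v.reverse := hs.fac (List.prefix_append _ _).isInfix
            have h8 : Y.Saw ((v.take m0).reverse ++ x) := by
              rw [h6] at hs
              exact hs.fac (List.suffix_append _ _).isInfix
            rw [Y.sv_of hs, Y.sv_of h8, Y.sv_of (Y.Saw_reverse_iff.1 h7), mul_one]
          · rw [Y.sv_of_not hs]
            exact mul_nonneg hsv (Y.sv_nonneg _)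
        have h6 : B * g (v.take m0).reverse + ε ≤ (2 * B + 1) * ε := by
          have h7 : B * g (v.take m0).reverse ≤ B * (2 * ε) :=
            mul_le_mul_of_nonneg_left (not_le.1 h2).le (by linarith)
          linarith
        calc fx Y v.reverse m1 ≤ Y.sv v * fx Y (v.take m0).reverse m1 := h5
          _ ≤ Y.sv v * ((2 * B + 1) * ε) := mul_le_mul_of_nonneg_left (h4.trans h6) hsv
          _ = (2 * B + 1) * ε * Y.sv v := mul_comm _ _
    · rw [ind_not h1, mul_zero]
      have h3 := ind_nonneg (2 * ε ≤ g (v.take m0).reverse ∧ g v.reverse < ε)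
      have h4 : 0 ≤ (2 * B + 1) * ε * Y.sv v := by positivity
      have h5 : 0 ≤ K * (Y.sv v * ind (2 * ε ≤ g (v.take m0).reverse ∧ g v.reverse < ε)) := by
        positivity
      linarith
  calc (Y.E m1 fun u => Y.E n fun v => Y.sv (u ++ v) * ind (g v.reverse < ε))
      = Y.E n fun v => Y.E m1 fun u => Y.sv (u ++ v) * ind (g v.reverse < ε) := Y.E_comm _ _ _
    _ ≤ Y.E n fun v => K * (Y.sv v * ind (2 * ε ≤ g (v.take m0).reverse ∧ g v.reverse < ε)) +
          (2 * B + 1) * ε * Y.sv v := Y.E_mono hpt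
    _ = K * (Y.E n fun v => Y.sv v * ind (2 * ε ≤ g (v.take m0).reverse ∧ g v.reverse < ε)) +
          (2 * B + 1) * ε * Y.a n := by
        rw [Y.E_fadd, Y.E_mul_left, Y.E_mul_left]
        rfl
    _ ≤ K * ((K + 1) * ε) + (2 * B + 1) * ε * K := by
        refine add_le_add (mul_le_mul_of_nonneg_left (hm0 n hn) (by linarith)) ?_
        exact mul_le_mul_of_nonneg_left (h.a_le n) (by positivity)
    _ = c * ε := by
        rw [hc]
        ring
    _ = η := by
        rw [hεdef]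
        field_simp
-- END end_c

end Pool.Agent.Taw
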