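import Pool.Agent.Taw.EndA

/-!
# The end of the proof (section 2d of the page)
-/

set_option autoImplicit false

namespace Pool.Agent.Taw

open Finset Filter Topology Pool.Agent.Bub4 Pool.Agent.SawM2

variable {S V : Type} [Fintype S] [AddCommGroup V] {Y : Sys S V} {K B : ℝ} {g : List S → ℝ}

/-- the dyadic block -/
def oc (k : ℕ) : Finset ℕ := Ico (2 ^ k) (2 ^ (k + 1))

/-- energy of the words in a dyadic block that are good at the start after the removal of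
`m` letters -/
noncomputable def gdk (Y : Sys S V) (g : List S → ℝ) (ε : ℝ) (m k : ℕ) : ℝ :=
  ∑ s ∈ oc k, ∑ t ∈ oc k, Y.E s fun u => Y.E t fun w =>
    (Y.sv u * ind (ε ≤ g (u.drop m).reverse)) * (Y.sv w * ind (ε ≤ g (w.drop m).reverse)) *
      dl (Y.sm u - Y.sm w)

-- BEGIN sup_le
/-- For `2 ^ k ≤ t < 2 ^ (k + 1)` and `2 ^ (k + 2) ≤ n < 2 ^ (k + 3)`:
`Y.E n (sv w * dl (sm w - x)) ≤ Y.E t (fun u => Y.E (n - t) (fun w => sv u * sv w *
dl (sm u + sm w - x)))` and `2 ^ (k + 1) ≤ n - t < 2 ^ (k + 3)`. Sum over `n` and over the `2 ^ k`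
values of `t`, Cauchy-Schwarz (`Y.gam`, `Y.gam2` of `Bub4.L2`, `Ω = Y.Om ..`), `2 a b ≤ a² + b²`. -/
theorem sup_le (Y : Sys S V) (k : ℕ) (x : V) :
    ∑ n ∈ oc (k + 2), (Y.E n fun w => Y.sv w * dl (Y.sm w - x)) ≤
      ((2 : ℝ) ^ k)⁻¹ * (Y.gb k + Y.gb (k + 1) + Y.gb (k + 2)) := by
  have hle : ∀ a b : ℕ, a ≤ b → 2 ^ a ≤ 2 ^ b := fun a b h => Nat.pow_le_pow_right (by norm_num) h
  set J0 := Ico (2 ^ k) (2 ^ (k + 1)) with hJ0
  set J := Ico (2 ^ (k + 1)) (2 ^ (k + 3)) with hJ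
  set I := Ico (2 ^ (k + 2)) (2 ^ (k + 3)) with hI
  have hoc : oc (k + 2) = I := rfl
  rw [hoc]
  set φ : ℕ → ℕ → ℝ := fun j t => Y.E j fun u => Y.E t fun w =>
    Y.sv u * Y.sv w * dl (Y.sm u + Y.sm w - x) with hφ
  have hφ0 : ∀ j t, 0 ≤ φ j t := fun j t => Y.E_nonneg' fun u => Y.E_nonneg' fun w =>
    mul_nonneg (mul_nonneg (Y.sv_nonneg u) (Y.sv_nonneg w)) (dl_nonneg _)
  have hcard : (J0.card : ℝ) = 2 ^ k := by
    rw [hJ0, Nat.card_Ico, pow_succ]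
    have : 2 ^ k * 2 - 2 ^ k = 2 ^ k := by omega
    rw [this]
    push_cast
    rfl
  have hsplit : ∀ j ∈ J0, ∀ t ∈ I, (Y.E t fun w => Y.sv w * dl (Y.sm w - x)) ≤ φ j (t - j) := by
    intro j hj t ht
    rw [hJ0, Finset.mem_Ico] at hj
    rw [hI, Finset.mem_Ico] at ht
    have hle' : j ≤ t := by
      have := hle (k + 1) (k + 2) (by omega)
      omega
    have e1 : (Y.E t fun w => Y.sv w * dl (Y.sm w - x)) =
        Y.E (j + (t - j)) fun w => Y.sv w * dl (Y.sm w - x) := by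
      rw [Nat.add_sub_cancel' hle']
    rw [e1, Sys.E_add]
    refine Y.E_mono fun u _ => Y.E_mono fun w _ => ?_
    rw [Sys.sm_append]
    exact mul_le_mul_of_nonneg_right (Y.sv_append_le u w) (dl_nonneg _)
  have hstep : (2 : ℝ) ^ k * ∑ n ∈ I, (Y.E n fun w => Y.sv w * dl (Y.sm w - x)) ≤
      ∑ j ∈ J0, ∑ t ∈ J, φ j t := by
    have e1 : (2 : ℝ) ^ k * ∑ n ∈ I, (Y.E n fun w => Y.sv w * dl (Y.sm w - x)) =
        ∑ j ∈ J0, ∑ t ∈ I, Y.E t fun w => Y.sv w * dl (Y.sm w - x) := by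
      rw [Finset.sum_const, nsmul_eq_mul, hcard]
    rw [e1]
    refine Finset.sum_le_sum fun j hj => ?_
    calc (∑ t ∈ I, Y.E t fun w => Y.sv w * dl (Y.sm w - x)) ≤ ∑ t ∈ I, φ j (t - j) :=
          Finset.sum_le_sum fun t ht => hsplit j hj t ht
      _ = ∑ t ∈ I.image (fun t => t - j), φ j t := by
          rw [Finset.sum_image]
          intro a ha b hb hab
          rw [hJ0, Finset.mem_Ico] at hj
          have ha' : a ∈ I := ha
          have hb' : b ∈ I := hb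
          rw [hI, Finset.mem_Ico] at ha' hb'
          have := hle (k + 1) (k + 2) (by omega)
          have hab' : a - j = b - j := hab
          omega
      _ ≤ ∑ t ∈ J, φ j t := by
          refine Finset.sum_le_sum_of_subset_of_nonneg ?_ fun t _ _ => hφ0 j t
          intro t ht
          rw [Finset.mem_image] at ht
          obtain ⟨s, hs, rfl⟩ := ht
          rw [hJ0, Finset.mem_Ico] at hj
          rw [hI, Finset.mem_Ico] at hs
          rw [hJ, Finset.mem_Ico]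
          have h1 : 2 ^ (k + 2) = 2 * 2 ^ (k + 1) := by ring
          omega
  -- Cauchy-Schwarz
  set Ω := Y.Om (2 ^ (k + 3)) with hΩ
  have hprod : ∑ j ∈ J0, ∑ t ∈ J, φ j t = ∑ p ∈ Ω,
      (Y.L J0 fun u => Y.sv u * dl (Y.sm u + 0 - p)) *
      (Y.L J fun w => Y.sv w * dl (Y.sm w + -x - -p)) := by
    have e2 : ∑ j ∈ J0, ∑ t ∈ J, φ j t = Y.L J0 fun u => Y.L J fun w =>
        Y.sv u * Y.sv w * dl (Y.sm u + Y.sm w - x) := by
      unfold Sys.L
      refine Finset.sum_congr rfl fun j _ => ?_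
      rw [Sys.E_fsum]
    rw [e2]
    have e3 : ∀ p ∈ Ω, (Y.L J0 fun u => Y.sv u * dl (Y.sm u + 0 - p)) *
        (Y.L J fun w => Y.sv w * dl (Y.sm w + -x - -p)) =
        Y.L J0 fun u => Y.L J fun w => (Y.sv u * Y.sv w) * (dl (Y.sm u - p) *
          dl (p + Y.sm w - x)) := by
      intro p _
      rw [Sys.L_mul_L]
      refine Y.L_congr fun u _ => Y.L_congr fun w _ => ?_
      rw [add_zero, show Y.sm w + -x - -p = p + Y.sm w - x by abel]
      ring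
    rw [Finset.sum_congr rfl e3, ← Sys.L_fsum]
    refine Y.L_congr fun u hu => ?_
    rw [← Sys.L_fsum]
    refine Y.L_congr fun w _ => ?_
    rw [← Finset.mul_sum]
    congr 1
    refine (Sys.sum_dl_eq (g := fun p => dl (p + Y.sm w - x)) (Y.mem_Om ?_)).symm
    rw [hJ0, Finset.mem_Ico] at hu
    have := hle (k + 1) (k + 3) (by omega)
    omega
  have hcs : ∑ p ∈ Ω, (Y.L J0 fun u => Y.sv u * dl (Y.sm u + 0 - p)) *
      (Y.L J fun w => Y.sv w * dl (Y.sm w + -x - -p)) ≤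
      Y.gb k + Y.gb (k + 1) + Y.gb (k + 2) := by
    have h1 : ∑ p ∈ Ω, (Y.L J0 fun u => Y.sv u * dl (Y.sm u + 0 - p)) ^ 2 ≤ Y.gb k :=
      Y.gam Ω J0 0
    have h2 : ∑ p ∈ Ω, (Y.L J fun w => Y.sv w * dl (Y.sm w + -x - -p)) ^ 2 ≤
        2 * Y.gb (k + 1) + 2 * Y.gb (k + 2) := by
      classical
      have h3 := Y.gam2 (Ω.image fun p => -p) (hle (k + 1) (k + 2) (by omega))
        (hle (k + 2) (k + 3) (by omega)) (-x)
      rw [Finset.sum_image (fun a _ b _ hab => neg_injective hab)] at h3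
      exact h3
    have g0 := Y.gb_nonneg k
    have g1 := Y.gb_nonneg (k + 1)
    have g2 := Y.gb_nonneg (k + 2)
    set f1 : V → ℝ := fun p => Y.L J0 fun u => Y.sv u * dl (Y.sm u + 0 - p)
    set f2 : V → ℝ := fun p => Y.L J fun w => Y.sv w * dl (Y.sm w + -x - -p)
    have h4 : ∑ p ∈ Ω, f1 p * f2 p ≤ ∑ p ∈ Ω, (f1 p ^ 2 + f2 p ^ 2) / 2 :=
      Finset.sum_le_sum fun p _ => by nlinarith [sq_nonneg (f1 p - f2 p)]
    rw [← Finset.sum_div, Finset.sum_add_distrib] at h4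
    have h1' : ∑ p ∈ Ω, f1 p ^ 2 ≤ Y.gb k := h1
    have h2' : ∑ p ∈ Ω, f2 p ^ 2 ≤ 2 * Y.gb (k + 1) + 2 * Y.gb (k + 2) := h2
    refine h4.trans ?_
    linarith
  have hfin := hstep.trans (hprod.le.trans hcs)
  have h2k : (0 : ℝ) < 2 ^ k := by positivity
  rw [inv_mul_eq_div, le_div_iff₀ h2k, mul_comm]
  exact hfin
-- END sup_le

-- BEGIN bad_mass
/-- the mass of the bad words: `E (m1 + n)`, `end_c` -/
theorem bad_mass (h : Cf Y K B g) {ε η : ℝ} {m1 n0 : ℕ}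
    (hc : ∀ n ≥ n0, (Y.E m1 fun u => Y.E n fun v =>
      Y.sv (u ++ v) * ind (g v.reverse < ε)) ≤ η) {k : ℕ} (hk : m1 + n0 ≤ 2 ^ k) :
    ∑ n ∈ oc k, (Y.E n fun w => Y.sv w * ind (g (w.drop m1).reverse < ε)) ≤ 2 ^ k * η := by
  have h1 : ∀ n ∈ oc k, (Y.E n fun w => Y.sv w * ind (g (w.drop m1).reverse < ε)) ≤ η := by
    intro n hn
    rw [oc, Finset.mem_Ico] at hn
    obtain ⟨r, rfl⟩ : ∃ r, n = m1 + r := ⟨n - m1, by omega⟩
    rw [Sys.E_add]
    refine le_trans (le_of_eq ?_) (hc r (by omega))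
    refine Y.E_congr fun u hu => Y.E_congr fun v _ => ?_
    rw [List.drop_left' hu]
  refine (Finset.sum_le_sum h1).trans (le_of_eq ?_)
  rw [Finset.sum_const, nsmul_eq_mul, oc, Nat.card_Ico, pow_succ]
  have : 2 ^ k * 2 - 2 ^ k = 2 ^ k := by omega
  rw [this]
  push_cast
  rfl
-- END bad_mass

-- BEGIN gb_rec
/-- `sv w = sv w * ind (ε ≤ ..) + sv w * ind (.. < ε)`, `(a + b)² ≤ 2 a² + 2 b²` in `ℓ²`
(`Y.b_eq_sub`, expand over `Ω = Y.Om ..` with `dl (x - y) = ∑ p ∈ Ω, dl (x - p) * dl (y - p)`), the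
second square is at most (mass of the bad words) * (supremum of the density, `sup_le`). -/
theorem gb_rec (h : Cf Y K B g) {ε η : ℝ} {m1 n0 : ℕ}
    (hc : ∀ n ≥ n0, (Y.E m1 fun u => Y.E n fun v =>
      Y.sv (u ++ v) * ind (g v.reverse < ε)) ≤ η) {k : ℕ} (hk : m1 + n0 ≤ 2 ^ (k + 2)) :
    Y.gb (k + 2) ≤ 2 * gdk Y g ε m1 (k + 2) +
      8 * η * (Y.gb k + Y.gb (k + 1) + Y.gb (k + 2)) := by
  set J := oc (k + 2) with hJ
  set Ω := Y.Om (2 ^ (k + 3)) with hΩ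
  set p1 : List S → ℝ := fun w => Y.sv w * ind (ε ≤ g (w.drop m1).reverse) with hp1
  set p2 : List S → ℝ := fun w => Y.sv w * ind (g (w.drop m1).reverse < ε) with hp2
  have hp10 : ∀ w, 0 ≤ p1 w := fun w => mul_nonneg (Y.sv_nonneg w) (ind_nonneg _)
  have hp20 : ∀ w, 0 ≤ p2 w := fun w => mul_nonneg (Y.sv_nonneg w) (ind_nonneg _)
  have hsum : ∀ w, Y.sv w = p1 w + p2 w := by
    intro w
    show Y.sv w = Y.sv w * ind (ε ≤ g (w.drop m1).reverse) +
      Y.sv w * ind (g (w.drop m1).reverse < ε)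
    rw [ind_congr (not_le (a := ε) (b := g (w.drop m1).reverse)).symm, ind_compl]
    ring
  have hsub : ∀ w : List S, w.length ∈ J → w.length ≤ 2 ^ (k + 3) := by
    intro w hw
    have h1 := (Finset.mem_Ico.1 hw).2
    exact h1.le
  -- the bilinear form over `Ω`
  have hbil : ∀ q1 q2 : List S → ℝ, (Y.L J fun u => Y.L J fun w =>
      q1 u * q2 w * dl (Y.sm u - Y.sm w)) = ∑ x ∈ Ω,
      (Y.L J fun u => q1 u * dl (Y.sm u - x)) * (Y.L J fun w => q2 w * dl (Y.sm w - x)) := by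
    intro q1 q2
    have e3 : ∀ x ∈ Ω, (Y.L J fun u => q1 u * dl (Y.sm u - x)) *
        (Y.L J fun w => q2 w * dl (Y.sm w - x)) =
        Y.L J fun u => Y.L J fun w => (q1 u * q2 w) * (dl (Y.sm u - x) * dl (x - Y.sm w)) := by
      intro x _
      rw [Sys.L_mul_L]
      refine Y.L_congr fun u _ => Y.L_congr fun w _ => ?_
      rw [dl_sub_comm (Y.sm w) x]
      ring
    rw [Finset.sum_congr rfl e3, ← Sys.L_fsum]
    refine Y.L_congr fun u hu => ?_
    rw [← Sys.L_fsum]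
    refine Y.L_congr fun w _ => ?_
    rw [← Finset.mul_sum]
    congr 1
    exact (Sys.sum_dl_eq (g := fun x => dl (x - Y.sm w)) (Y.mem_Om (hsub u hu))).symm
  have hLL : ∀ F : List S → List S → ℝ, ∑ s ∈ J, ∑ t ∈ J, (Y.E s fun u => Y.E t fun w => F u w) =
      Y.L J fun u => Y.L J fun w => F u w := by
    intro F
    unfold Sys.L
    refine Finset.sum_congr rfl fun j _ => ?_
    rw [Sys.E_fsum]
  have hgb : Y.gb (k + 2) = ∑ x ∈ Ω, (Y.L J fun u => Y.sv u * dl (Y.sm u - x)) ^ 2 := by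
    have e1 : Y.gb (k + 2) = ∑ s ∈ J, ∑ t ∈ J, Y.E s fun u => Y.E t fun w =>
        Y.sv u * Y.sv w * dl (Y.sm u - Y.sm w) := by
      unfold Sys.gb
      exact Finset.sum_congr rfl fun s _ => Finset.sum_congr rfl fun t _ => Y.b_eq_sub s t
    rw [e1, hLL, hbil]
    exact Finset.sum_congr rfl fun x _ => (sq _).symm
  have hgd : gdk Y g ε m1 (k + 2) = ∑ x ∈ Ω, (Y.L J fun u => p1 u * dl (Y.sm u - x)) ^ 2 := by
    have e1 : gdk Y g ε m1 (k + 2) = ∑ s ∈ J, ∑ t ∈ J, Y.E s fun u => Y.E t fun w =>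
        p1 u * p1 w * dl (Y.sm u - Y.sm w) := rfl
    rw [e1, hLL, hbil]
    exact Finset.sum_congr rfl fun x _ => (sq _).symm
  have hbad : ∑ x ∈ Ω, (Y.L J fun u => p2 u * dl (Y.sm u - x)) ^ 2 ≤
      4 * η * (Y.gb k + Y.gb (k + 1) + Y.gb (k + 2)) := by
    set G := Y.gb k + Y.gb (k + 1) + Y.gb (k + 2) with hG
    have hG0 : 0 ≤ G := by
      have h1 := Y.gb_nonneg k
      have h2 := Y.gb_nonneg (k + 1)
      have h3 := Y.gb_nonneg (k + 2)
      linarith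
    have hs : ∀ x, (Y.L J fun u => p2 u * dl (Y.sm u - x)) ≤ ((2 : ℝ) ^ k)⁻¹ * G := by
      intro x
      refine le_trans (Y.L_mono fun w _ => ?_) (sup_le Y k x)
      refine mul_le_mul_of_nonneg_right ?_ (dl_nonneg _)
      rw [hsum w]
      linarith [hp10 w]
    have hd0 : ∀ x, 0 ≤ Y.L J fun u => p2 u * dl (Y.sm u - x) := fun x =>
      Y.L_nonneg fun w => mul_nonneg (hp20 w) (dl_nonneg _)
    have hm : ∑ x ∈ Ω, (Y.L J fun u => p2 u * dl (Y.sm u - x)) ≤ 2 ^ (k + 2) * η := by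
      refine le_trans ?_ (bad_mass h hc hk)
      rw [← Sys.L_fsum]
      refine Y.L_mono fun w _ => ?_
      have := Sys.sum_dl_le Ω (Y.sm w) (g := fun _ => p2 w) (hp20 w)
      refine le_trans (le_of_eq ?_) this
      exact Finset.sum_congr rfl fun x _ => mul_comm _ _
    calc ∑ x ∈ Ω, (Y.L J fun u => p2 u * dl (Y.sm u - x)) ^ 2 ≤
          ∑ x ∈ Ω, (((2 : ℝ) ^ k)⁻¹ * G) * (Y.L J fun u => p2 u * dl (Y.sm u - x)) := by
          refine Finset.sum_le_sum fun x _ => ?_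
          rw [sq]
          exact mul_le_mul_of_nonneg_right (hs x) (hd0 x)
      _ = (((2 : ℝ) ^ k)⁻¹ * G) * ∑ x ∈ Ω, (Y.L J fun u => p2 u * dl (Y.sm u - x)) := by
          rw [Finset.mul_sum]
      _ ≤ (((2 : ℝ) ^ k)⁻¹ * G) * (2 ^ (k + 2) * η) :=
          mul_le_mul_of_nonneg_left hm (by positivity)
      _ = 4 * η * G := by
          rw [pow_add]
          have h2k : (2 : ℝ) ^ k ≠ 0 := by positivity
          field_simp
          ring
  rw [hgb, hgd] at *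
  have hfin : ∑ x ∈ Ω, (Y.L J fun u => Y.sv u * dl (Y.sm u - x)) ^ 2 ≤
      ∑ x ∈ Ω, (2 * (Y.L J fun u => p1 u * dl (Y.sm u - x)) ^ 2 +
        2 * (Y.L J fun u => p2 u * dl (Y.sm u - x)) ^ 2) := by
    refine Finset.sum_le_sum fun x _ => ?_
    have e1 : (Y.L J fun u => Y.sv u * dl (Y.sm u - x)) =
        (Y.L J fun u => p1 u * dl (Y.sm u - x)) + Y.L J fun u => p2 u * dl (Y.sm u - x) := by
      rw [← Sys.L_fadd]
      refine Y.L_congr fun w _ => ?_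
      rw [hsum w]
      ring
    rw [e1]
    nlinarith [sq_nonneg ((Y.L J fun u => p1 u * dl (Y.sm u - x)) -
      Y.L J fun u => p2 u * dl (Y.sm u - x))]
  rw [Finset.sum_add_distrib, ← Finset.mul_sum, ← Finset.mul_sum] at hfin
  linarith
-- END gb_rec

-- BEGIN gdk_sum
private theorem gdk_sum_gam (Y : Sys S V) (Ω : Finset V) (J : Finset ℕ) {p : List S → ℝ}
    (hp : ∀ w, 0 ≤ p w) (z : V) :
    ∑ x ∈ Ω, (Y.L J fun w => p w * dl (Y.sm w + z - x)) ^ 2 ≤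
      Y.L J fun u => Y.L J fun w => p u * p w * dl (Y.sm u - Y.sm w) := by
  have h2 : ∀ x, (Y.L J fun w => p w * dl (Y.sm w + z - x)) ^ 2 =
      Y.L J fun u => Y.L J fun w =>
        (p u * p w) * (dl (Y.sm u + z - x) * dl (Y.sm w + z - x)) := by
    intro x
    rw [sq, Sys.L_mul_L]
    exact Y.L_congr fun u _ => Y.L_congr fun w _ => by ring
  simp only [h2]
  rw [← Sys.L_fsum]
  refine Y.L_mono fun u _ => ?_
  rw [← Sys.L_fsum]
  refine Y.L_mono fun w _ => ?_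
  rw [← Finset.mul_sum]
  refine mul_le_mul_of_nonneg_left ?_ (mul_nonneg (hp u) (hp w))
  refine (Sys.sum_dl_le Ω (Y.sm u + z) (g := fun x => dl (Y.sm w + z - x)) (dl_nonneg _)).trans ?_
  have : Y.sm w + z - (Y.sm u + z) = Y.sm w - Y.sm u := by abel
  show dl (Y.sm w + z - (Y.sm u + z)) ≤ _
  rw [this, dl_sub_comm]

private theorem gdk_sum_shift (Y : Sys S V) (J : Finset ℕ) {p : List S → ℝ}
    (hp : ∀ w, 0 ≤ p w) (z : V) :
    (Y.L J fun u => Y.L J fun w => p u * p w * dl (Y.sm u - Y.sm w + z)) ≤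
      Y.L J fun u => Y.L J fun w => p u * p w * dl (Y.sm u - Y.sm w) := by
  obtain ⟨N, hN⟩ : ∃ N, ∀ j ∈ J, j ≤ N := ⟨J.sup id, fun j hj => Finset.le_sup (f := id) hj⟩
  set Ω := Y.Om N with hΩ
  have e1 : (Y.L J fun u => Y.L J fun w => p u * p w * dl (Y.sm u - Y.sm w + z)) =
      ∑ x ∈ Ω, (Y.L J fun u => p u * dl (Y.sm u + z - x)) *
        (Y.L J fun w => p w * dl (Y.sm w + 0 - x)) := by
    have e3 : ∀ x ∈ Ω, (Y.L J fun u => p u * dl (Y.sm u + z - x)) *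
        (Y.L J fun w => p w * dl (Y.sm w + 0 - x)) =
        Y.L J fun w => Y.L J fun u => (p u * p w) * (dl (Y.sm w - x) *
          dl (Y.sm u + z - x)) := by
      intro x _
      rw [mul_comm, Sys.L_mul_L]
      refine Y.L_congr fun w _ => Y.L_congr fun u _ => ?_
      rw [add_zero]
      ring
    rw [Finset.sum_congr rfl e3, ← Sys.L_fsum]
    have e4 : (Y.L J fun u => Y.L J fun w => p u * p w * dl (Y.sm u - Y.sm w + z)) =
        Y.L J fun w => Y.L J fun u => p u * p w * dl (Y.sm u - Y.sm w + z) := by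
      unfold Sys.L
      simp only [Sys.E_fsum]
      rw [Finset.sum_comm]
      exact Finset.sum_congr rfl fun s _ => Finset.sum_congr rfl fun t _ => Y.E_comm _ _ _
    rw [e4]
    refine Y.L_congr fun w hw => ?_
    rw [← Sys.L_fsum]
    refine Y.L_congr fun u _ => ?_
    rw [← Finset.mul_sum]
    congr 1
    rw [Sys.sum_dl_eq (g := fun x => dl (Y.sm u + z - x)) (Y.mem_Om (hN _ hw))]
    congr 1
    abel
  rw [e1]
  have h1 := gdk_sum_gam Y Ω J hp z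
  have h2 := gdk_sum_gam Y Ω J hp 0
  set f1 : V → ℝ := fun x => Y.L J fun u => p u * dl (Y.sm u + z - x)
  set f2 : V → ℝ := fun x => Y.L J fun w => p w * dl (Y.sm w + 0 - x)
  have h4 : ∑ x ∈ Ω, f1 x * f2 x ≤ ∑ x ∈ Ω, (f1 x ^ 2 + f2 x ^ 2) / 2 :=
    Finset.sum_le_sum fun x _ => by nlinarith [sq_nonneg (f1 x - f2 x)]
  rw [← Finset.sum_div, Finset.sum_add_distrib] at h4
  refine h4.trans ?_
  have h1' : ∑ x ∈ Ω, f1 x ^ 2 ≤ Y.L J fun u => Y.L J fun w => p u * p w * dl (Y.sm u - Y.sm w) :=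
    h1
  have h2' : ∑ x ∈ Ω, f2 x ^ 2 ≤ Y.L J fun u => Y.L J fun w => p u * p w * dl (Y.sm u - Y.sm w) :=
    h2
  linarith

/-- `∑_k ‖f_k‖² ≤ ‖∑_k f_k‖²` for nonnegative `f_k`, and the sum of the densities is at most
`Y.E m1 (fun u => sv u * translate of the density of the words v, ε ≤ g v.reverse)` for the lengths
`≥ m1` (Young: `K ^ 2 * L2s`), after `E_reverse`. -/
theorem gdk_sum (h : Cf Y K B g) (ε : ℝ) (m1 k0 n : ℕ) (hk0 : m1 ≤ 2 ^ k0) :
    ∑ k ∈ Ico k0 n, gdk Y g ε m1 k ≤ K ^ 2 * L2s Y g ε (range (2 ^ n)) := by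
  set p1 : List S → ℝ := fun w => Y.sv w * ind (ε ≤ g (w.drop m1).reverse) with hp1
  set p : List S → ℝ := fun w => ind (ε ≤ g w.reverse) with hp
  have hp0 : ∀ w, 0 ≤ p w := fun w => ind_nonneg _
  have hp10 : ∀ w, 0 ≤ p1 w := fun w => mul_nonneg (Y.sv_nonneg w) (ind_nonneg _)
  set c : ℕ → ℕ → ℝ := fun s t => Y.E s fun u => Y.E t fun w =>
    p1 u * p1 w * dl (Y.sm u - Y.sm w) with hc
  have hc0 : ∀ s t, 0 ≤ c s t := fun s t => Y.E_nonneg' fun u => Y.E_nonneg' fun w =>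
    mul_nonneg (mul_nonneg (hp10 u) (hp10 w)) (dl_nonneg _)
  have hlow : ∀ k, 0 ≤ gdk Y g ε m1 k := fun k =>
    Finset.sum_nonneg fun s _ => Finset.sum_nonneg fun t _ => hc0 s t
  -- step 1
  have h1 : ∀ n, k0 ≤ n → ∑ k ∈ Ico k0 n, gdk Y g ε m1 k ≤
      ∑ s ∈ Ico (2 ^ k0) (2 ^ n), ∑ t ∈ Ico (2 ^ k0) (2 ^ n), c s t := by
    intro n hn
    induction n, hn using Nat.le_induction with
    | base => simp
    | succ n hn ih =>
      rw [Finset.sum_Ico_succ_top hn]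
      have hle : 2 ^ n ≤ 2 ^ (n + 1) := Nat.pow_le_pow_right (by norm_num) (by omega)
      have hle0 : 2 ^ k0 ≤ 2 ^ n := Nat.pow_le_pow_right (by norm_num) hn
      have e1 : ∀ f : ℕ → ℝ, ∑ s ∈ Ico (2 ^ k0) (2 ^ (n + 1)), f s =
          ∑ s ∈ Ico (2 ^ k0) (2 ^ n), f s + ∑ s ∈ Ico (2 ^ n) (2 ^ (n + 1)), f s := fun f =>
        (Finset.sum_Ico_consecutive f hle0 hle).symm
      rw [e1]
      have h2 : ∑ s ∈ Ico (2 ^ k0) (2 ^ n), ∑ t ∈ Ico (2 ^ k0) (2 ^ n), c s t ≤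
          ∑ s ∈ Ico (2 ^ k0) (2 ^ n), ∑ t ∈ Ico (2 ^ k0) (2 ^ (n + 1)), c s t :=
        Finset.sum_le_sum fun s _ => by
          rw [e1]
          have : 0 ≤ ∑ t ∈ Ico (2 ^ n) (2 ^ (n + 1)), c s t :=
            Finset.sum_nonneg fun t _ => hc0 s t
          linarith
      have h3 : gdk Y g ε m1 n ≤
          ∑ s ∈ Ico (2 ^ n) (2 ^ (n + 1)), ∑ t ∈ Ico (2 ^ k0) (2 ^ (n + 1)), c s t :=
        Finset.sum_le_sum fun s _ => by
          rw [e1]
          have : 0 ≤ ∑ t ∈ Ico (2 ^ k0) (2 ^ n), c s t :=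
            Finset.sum_nonneg fun t _ => hc0 s t
          have e2 : (∑ t ∈ oc n, Y.E s fun u => Y.E t fun w =>
            (Y.sv u * ind (ε ≤ g (u.drop m1).reverse)) * (Y.sv w *
              ind (ε ≤ g (w.drop m1).reverse)) * dl (Y.sm u - Y.sm w)) =
              ∑ t ∈ Ico (2 ^ n) (2 ^ (n + 1)), c s t := rfl
          rw [e2]
          linarith
      linarith
  have hK0 : 0 ≤ K := by linarith [one_le_K h]
  -- the energy of `p`
  have hL2 : L2s Y g ε (range (2 ^ n)) = Y.L (range (2 ^ n)) fun u => Y.L (range (2 ^ n)) fun w =>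
      p u * p w * dl (Y.sm u - Y.sm w) := by
    unfold L2s Sys.L
    refine Finset.sum_congr rfl fun i _ => ?_
    rw [Sys.E_fsum]
    refine Finset.sum_congr rfl fun j _ => ?_
    rw [← Y.E_reverse i]
    refine Y.E_congr fun u _ => ?_
    rw [← Y.E_reverse j]
    refine Y.E_congr fun v _ => ?_
    simp only [hp, Sys.sm_reverse]
  have hL20 : 0 ≤ L2s Y g ε (range (2 ^ n)) :=
    Finset.sum_nonneg fun i _ => Finset.sum_nonneg fun j _ => Y.E_nonneg' fun u =>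
      Y.E_nonneg' fun v => mul_nonneg (mul_nonneg (ind_nonneg _) (ind_nonneg _)) (dl_nonneg _)
  rcases Nat.lt_or_ge n k0 with hn | hn
  · rw [Finset.Ico_eq_empty (by omega), Finset.sum_empty]
    positivity
  refine (h1 n hn).trans ?_
  -- step 2
  have h2 : ∀ s ∈ Ico (2 ^ k0) (2 ^ n), ∀ t ∈ Ico (2 ^ k0) (2 ^ n), c s t ≤
      Y.E m1 fun u' => Y.E m1 fun w' => Y.sv u' * Y.sv w' * Y.E (s - m1) fun b =>
        Y.E (t - m1) fun b' => p b * p b' * dl (Y.sm b - Y.sm b' + (Y.sm u' - Y.sm w')) := by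
    intro s hs t ht
    rw [Finset.mem_Ico] at hs ht
    have es : s = m1 + (s - m1) := by omega
    have et : t = m1 + (t - m1) := by omega
    have e1 : c s t = Y.E (m1 + (s - m1)) fun u => Y.E (m1 + (t - m1)) fun w =>
        p1 u * p1 w * dl (Y.sm u - Y.sm w) := by rw [← es, ← et]
    rw [e1, Sys.E_add]
    refine Y.E_mono fun u' hu' => ?_
    have e2 : ∀ b : List S, (Y.E (m1 + (t - m1)) fun w =>
        p1 (u' ++ b) * p1 w * dl (Y.sm (u' ++ b) - Y.sm w)) = Y.E m1 fun w' =>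
        Y.E (t - m1) fun b' => p1 (u' ++ b) * p1 (w' ++ b') *
          dl (Y.sm (u' ++ b) - Y.sm (w' ++ b')) := fun b => by rw [Sys.E_add]
    simp only [e2]
    rw [Sys.E_comm]
    refine Y.E_mono fun w' hw' => ?_
    rw [← Sys.E_mul_left]
    refine Y.E_mono fun b _ => ?_
    rw [← Sys.E_mul_left]
    refine Y.E_mono fun b' _ => ?_
    have hq : ∀ (x y : List S), x.length = m1 → p1 (x ++ y) ≤ Y.sv x * p y := by
      intro x y hx
      show Y.sv (x ++ y) * ind (ε ≤ g ((x ++ y).drop m1).reverse) ≤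
        Y.sv x * ind (ε ≤ g y.reverse)
      rw [List.drop_left' hx]
      exact mul_le_mul_of_nonneg_right (Y.sv_append_left x y) (ind_nonneg _)
    have e3 : Y.sm (u' ++ b) - Y.sm (w' ++ b') = Y.sm b - Y.sm b' + (Y.sm u' - Y.sm w') := by
      rw [Sys.sm_append, Sys.sm_append]; abel
    rw [e3]
    calc p1 (u' ++ b) * p1 (w' ++ b') * dl (Y.sm b - Y.sm b' + (Y.sm u' - Y.sm w')) ≤
          (Y.sv u' * p b) * (Y.sv w' * p b') * dl (Y.sm b - Y.sm b' + (Y.sm u' - Y.sm w')) := by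
          refine mul_le_mul_of_nonneg_right ?_ (dl_nonneg _)
          exact mul_le_mul (hq u' b hu') (hq w' b' hw') (hp10 _)
            (mul_nonneg (Y.sv_nonneg _) (hp0 _))
      _ = Y.sv u' * Y.sv w' * (p b * p b' * dl (Y.sm b - Y.sm b' + (Y.sm u' - Y.sm w'))) := by
          ring
  refine (Finset.sum_le_sum fun s hs => Finset.sum_le_sum fun t ht => h2 s hs t ht).trans ?_
  -- step 3
  have h3 : ∀ z : V, ∑ s ∈ Ico (2 ^ k0) (2 ^ n), ∑ t ∈ Ico (2 ^ k0) (2 ^ n),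
      (Y.E (s - m1) fun b => Y.E (t - m1) fun b' => p b * p b' * dl (Y.sm b - Y.sm b' + z)) ≤
      L2s Y g ε (range (2 ^ n)) := by
    intro z
    rw [hL2]
    refine le_trans ?_ (gdk_sum_shift Y (range (2 ^ n)) hp0 z)
    set d : ℕ → ℕ → ℝ := fun s t => Y.E s fun b => Y.E t fun b' =>
      p b * p b' * dl (Y.sm b - Y.sm b' + z) with hd
    have hd0 : ∀ s t, 0 ≤ d s t := fun s t => Y.E_nonneg' fun u => Y.E_nonneg' fun w =>
      mul_nonneg (mul_nonneg (hp0 u) (hp0 w)) (dl_nonneg _)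
    have hsh : ∀ f : ℕ → ℝ, (∀ j, 0 ≤ f j) → ∑ t ∈ Ico (2 ^ k0) (2 ^ n), f (t - m1) ≤
        ∑ t ∈ range (2 ^ n), f t := by
      intro f hf
      have e1 : ∑ t ∈ Ico (2 ^ k0) (2 ^ n), f (t - m1) =
          ∑ t ∈ (Ico (2 ^ k0) (2 ^ n)).image (fun t => t - m1), f t := by
        rw [Finset.sum_image]
        intro a ha b hb hab
        have ha' := Finset.mem_Ico.1 ha
        have hb' := Finset.mem_Ico.1 hb
        have hab' : a - m1 = b - m1 := hab
        omega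
      rw [e1]
      refine Finset.sum_le_sum_of_subset_of_nonneg ?_ fun t _ _ => hf t
      intro t ht
      rw [Finset.mem_image] at ht
      obtain ⟨s, hs, rfl⟩ := ht
      rw [Finset.mem_Ico] at hs
      rw [Finset.mem_range]
      omega
    have e5 : (Y.L (range (2 ^ n)) fun u => Y.L (range (2 ^ n)) fun w =>
        p u * p w * dl (Y.sm u - Y.sm w + z)) = ∑ s ∈ range (2 ^ n), ∑ t ∈ range (2 ^ n), d s t := by
      unfold Sys.L
      refine Finset.sum_congr rfl fun j _ => ?_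
      rw [Sys.E_fsum]
    rw [e5]
    calc ∑ s ∈ Ico (2 ^ k0) (2 ^ n), ∑ t ∈ Ico (2 ^ k0) (2 ^ n), d (s - m1) (t - m1) ≤
          ∑ s ∈ Ico (2 ^ k0) (2 ^ n), ∑ t ∈ range (2 ^ n), d (s - m1) t :=
          Finset.sum_le_sum fun s _ => hsh (fun t => d (s - m1) t) fun t => hd0 _ _
      _ ≤ ∑ s ∈ range (2 ^ n), ∑ t ∈ range (2 ^ n), d s t :=
          hsh (fun s => ∑ t ∈ range (2 ^ n), d s t) fun s =>
            Finset.sum_nonneg fun t _ => hd0 s t
  -- step 4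
  have h4 : ∑ s ∈ Ico (2 ^ k0) (2 ^ n), ∑ t ∈ Ico (2 ^ k0) (2 ^ n),
      (Y.E m1 fun u' => Y.E m1 fun w' => Y.sv u' * Y.sv w' * Y.E (s - m1) fun b =>
        Y.E (t - m1) fun b' => p b * p b' * dl (Y.sm b - Y.sm b' + (Y.sm u' - Y.sm w'))) =
      Y.E m1 fun u' => Y.E m1 fun w' => Y.sv u' * Y.sv w' *
        ∑ s ∈ Ico (2 ^ k0) (2 ^ n), ∑ t ∈ Ico (2 ^ k0) (2 ^ n), (Y.E (s - m1) fun b =>
          Y.E (t - m1) fun b' => p b * p b' * dl (Y.sm b - Y.sm b' + (Y.sm u' - Y.sm w'))) := by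
    simp only [Finset.mul_sum, Sys.E_fsum]
  rw [h4]
  calc _ ≤ Y.E m1 fun u' => Y.E m1 fun w' => Y.sv u' * Y.sv w' * L2s Y g ε (range (2 ^ n)) :=
        Y.E_mono fun u' _ => Y.E_mono fun w' _ =>
          mul_le_mul_of_nonneg_left (h3 _) (mul_nonneg (Y.sv_nonneg _) (Y.sv_nonneg _))
    _ = Y.a m1 * Y.a m1 * L2s Y g ε (range (2 ^ n)) := by
        simp only [Sys.E_mul_right, Sys.E_mul_left]
        rfl
    _ ≤ K ^ 2 * L2s Y g ε (range (2 ^ n)) := by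
        refine mul_le_mul_of_nonneg_right ?_ hL20
        rw [sq]
        exact mul_le_mul (h.a_le m1) (h.a_le m1) (Y.a_nonneg m1) hK0
-- END gdk_sum

-- BEGIN gb_sum
/-- `η = 1 / 48` in `end_c`, sum of `gb_rec` over `k` (the first few terms are a constant),
absorb. -/
theorem gb_sum (h : Cf Y K B g) (hL : HL2 Y g) : ∃ C : ℝ, ∀ n : ℕ, ∑ k ∈ range n, Y.gb k ≤ C := by
  obtain ⟨ε, hε, m1, n0, hc⟩ := end_c h hL (η := 1 / 48) (by norm_num)
  obtain ⟨C1, hC1⟩ := hL ε hε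
  set k0 := m1 + n0 with hk0
  have hk0' : ∀ k, k0 ≤ k → m1 + n0 ≤ 2 ^ (k + 2) := by
    intro k hk
    have h1 : k < 2 ^ k := Nat.lt_two_pow_self
    have h2 : 2 ^ k ≤ 2 ^ (k + 2) := Nat.pow_le_pow_right (by norm_num) (by omega)
    omega
  have hrec : ∀ k, k0 ≤ k → Y.gb (k + 2) ≤ 2 * gdk Y g ε m1 (k + 2) +
      8 * (1 / 48) * (Y.gb k + Y.gb (k + 1) + Y.gb (k + 2)) := fun k hk =>
    gb_rec h hc (hk0' k hk)
  set A := ∑ k ∈ range (k0 + 2), Y.gb k with hA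
  have hA0 : 0 ≤ A := Finset.sum_nonneg fun k _ => Y.gb_nonneg k
  have hC1' : 0 ≤ C1 := by
    have := hC1 0
    simpa [L2s] using this
  have hD0 : 0 ≤ K ^ 2 * C1 := by positivity
  refine ⟨3 * A + 4 * (K ^ 2 * C1), fun n => ?_⟩
  rcases Nat.lt_or_ge n (k0 + 2) with hn | hn
  · have : ∑ k ∈ range n, Y.gb k ≤ A :=
      Finset.sum_le_sum_of_subset_of_nonneg (Finset.range_mono hn.le) fun k _ _ => Y.gb_nonneg k
    linarith
  · obtain ⟨m, rfl⟩ : ∃ m, n = m + 2 := ⟨n - 2, by omega⟩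
    have hm : k0 ≤ m := by omega
    set T := ∑ k ∈ range (m + 2), Y.gb k with hT
    have hsplit : T = A + ∑ k ∈ Ico k0 m, Y.gb (k + 2) := by
      rw [hT, hA, ← Finset.sum_range_add_sum_Ico _ hn]
      congr 1
      rw [Finset.sum_Ico_add' (fun k => Y.gb k) k0 m 2]
    have h1 : ∑ k ∈ Ico k0 m, Y.gb (k + 2) ≤ ∑ k ∈ Ico k0 m, (2 * gdk Y g ε m1 (k + 2) +
        8 * (1 / 48) * (Y.gb k + Y.gb (k + 1) + Y.gb (k + 2))) :=
      Finset.sum_le_sum fun k hk => hrec k (Finset.mem_Ico.1 hk).1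
    have h2 : ∑ k ∈ Ico k0 m, gdk Y g ε m1 (k + 2) ≤ K ^ 2 * C1 := by
      have h3 := gdk_sum h ε m1 (k0 + 2) (m + 2) (by have := hk0' k0 le_rfl; omega)
      rw [← Finset.sum_Ico_add' (fun k => gdk Y g ε m1 k) k0 m 2] at h3
      exact h3.trans (mul_le_mul_of_nonneg_left (hC1 _) (by positivity))
    have hsh : ∀ i, i ≤ 2 → ∑ k ∈ Ico k0 m, Y.gb (k + i) ≤ T := by
      intro i hi
      rw [Finset.sum_Ico_add' (fun k => Y.gb k) k0 m i]
      refine Finset.sum_le_sum_of_subset_of_nonneg ?_ fun k _ _ => Y.gb_nonneg k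
      intro k hk
      rw [Finset.mem_Ico] at hk
      rw [Finset.mem_range]
      omega
    have e0 := hsh 0 (by omega)
    have e1 := hsh 1 (by omega)
    have e2 := hsh 2 (by omega)
    simp only [add_zero] at e0
    rw [Finset.sum_add_distrib, ← Finset.mul_sum, ← Finset.mul_sum, Finset.sum_add_distrib,
      Finset.sum_add_distrib] at h1
    linarith
-- END gb_sum

-- BEGIN cross_le
/-- `j < k`: `∑ s ∈ oc j, ∑ t ∈ oc (k + 2), b s t ≤ (∑ s ∈ oc j, a s) * sup`, `a s ≤ K`. -/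
theorem cross_le (h : Cf Y K B g) (j k : ℕ) :
    ∑ s ∈ oc j, ∑ t ∈ oc (k + 2), Y.b s t ≤
      K * 2 ^ j * (((2 : ℝ) ^ k)⁻¹ * (Y.gb k + Y.gb (k + 1) + Y.gb (k + 2))) := by
  set G := ((2 : ℝ) ^ k)⁻¹ * (Y.gb k + Y.gb (k + 1) + Y.gb (k + 2)) with hG
  have hG0 : 0 ≤ G := by
    have h1 := Y.gb_nonneg k
    have h2 := Y.gb_nonneg (k + 1)
    have h3 := Y.gb_nonneg (k + 2)
    positivity
  have h1 : ∀ s ∈ oc j, ∑ t ∈ oc (k + 2), Y.b s t ≤ K * G := by
    intro s _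
    have e1 : ∑ t ∈ oc (k + 2), Y.b s t = Y.E s fun u => Y.sv u *
        ∑ t ∈ oc (k + 2), (Y.E t fun w => Y.sv w * dl (Y.sm w - Y.sm u)) := by
      simp only [Finset.mul_sum, Sys.E_fsum]
      refine Finset.sum_congr rfl fun t _ => ?_
      rw [Y.b_eq_sub]
      refine Y.E_congr fun u _ => ?_
      rw [← Sys.E_mul_left]
      refine Y.E_congr fun w _ => ?_
      rw [dl_sub_comm]
      ring
    rw [e1]
    calc (Y.E s fun u => Y.sv u *
          ∑ t ∈ oc (k + 2), (Y.E t fun w => Y.sv w * dl (Y.sm w - Y.sm u))) ≤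
          Y.E s fun u => Y.sv u * G :=
          Y.E_mono fun u _ => mul_le_mul_of_nonneg_left (sup_le Y k (Y.sm u)) (Y.sv_nonneg u)
      _ = Y.a s * G := by rw [Sys.E_mul_right]; rfl
      _ ≤ K * G := mul_le_mul_of_nonneg_right (h.a_le s) hG0
  refine (Finset.sum_le_sum h1).trans (le_of_eq ?_)
  rw [Finset.sum_const, nsmul_eq_mul, oc, Nat.card_Ico, pow_succ]
  have : 2 ^ j * 2 - 2 ^ j = 2 ^ j := by omega
  rw [this]
  push_cast
  ring
-- END cross_le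

-- BEGIN end_d
private theorem end_d_oc (f : ℕ → ℝ) (n : ℕ) :
    ∑ s ∈ range (2 ^ n), f s = f 0 + ∑ j ∈ range n, ∑ s ∈ oc j, f s := by
  induction n with
  | zero => simp
  | succ n ih =>
    rw [Finset.sum_range_succ, ← add_assoc, ← ih]
    exact (Finset.sum_range_add_sum_Ico f (Nat.pow_le_pow_right (by norm_num) (by omega))).symm

private theorem end_d_b0 (Y : Sys S V) {t : ℕ} (ht : 1 ≤ t) : Y.b 0 t = 0 := by
  unfold Sys.b
  rw [Sys.E_zero]
  rw [show (0 : ℝ) = Y.E t (fun _ => 0) from (Y.E_zero_fun t).symm]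
  refine Y.E_congr fun w hw => ?_
  by_cases hs : Y.Saw w
  · have h1 : Y.sm w ≠ 0 := hs w List.infix_rfl (by rintro rfl; simp at hw; omega)
    rw [Sys.sm_nil, zero_add, dl_of_ne h1, mul_zero]
  · rw [Y.sv_of_not hs]
    simp

/-- (2d). `range N ⊆ {0} ∪ ⋃_{k < n} oc k` for `N ≤ 2 ^ n`; `b 0 t = 0` for `t ≥ 1`, `b 0 0 = 1`;
diagonal blocks: `gb_sum`; blocks `j < k + 2`: `cross_le`, `∑_{j < k + 2} 2 ^ j ≤ 2 ^ (k + 2)`;
the finitely many blocks with `k < 2` are bounded by constants (`b_le`). -/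
theorem end_d (h : Cf Y K B g) (hL : HL2 Y g) :
    ∃ C : ℝ, ∀ N : ℕ, ∑ s ∈ range N, ∑ t ∈ range N, Y.b s t ≤ C := by
  obtain ⟨C, hC⟩ := gb_sum h hL
  have hK : 1 ≤ K := one_le_K h
  set S0 : ℕ → ℝ := fun n => ∑ s ∈ range (2 ^ n), ∑ t ∈ range (2 ^ n), Y.b s t with hS0
  have hcr : ∀ k, ∑ s ∈ range (2 ^ (k + 2)), ∑ t ∈ oc (k + 2), Y.b s t ≤
      4 * K * (Y.gb k + Y.gb (k + 1) + Y.gb (k + 2)) := by
    intro k
    rw [end_d_oc (fun s => ∑ t ∈ oc (k + 2), Y.b s t) (k + 2)]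
    have h0 : ∑ t ∈ oc (k + 2), Y.b 0 t = 0 := by
      refine Finset.sum_eq_zero fun t ht => end_d_b0 Y ?_
      have h1 := (Finset.mem_Ico.1 ht).1
      have h2 : 1 ≤ 2 ^ (k + 2) := Nat.one_le_two_pow
      omega
    rw [h0, zero_add]
    have hG : 0 ≤ Y.gb k + Y.gb (k + 1) + Y.gb (k + 2) := by
      have h1 := Y.gb_nonneg k
      have h2 := Y.gb_nonneg (k + 1)
      have h3 := Y.gb_nonneg (k + 2)
      linarith
    refine (Finset.sum_le_sum fun j _ => cross_le h j k).trans ?_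
    rw [← Finset.sum_mul, ← Finset.mul_sum]
    have hg : ∑ j ∈ range (k + 2), (2 : ℝ) ^ j ≤ 2 ^ (k + 2) := by
      rw [geom_sum_eq (by norm_num)]
      norm_num
    have h2k : (0 : ℝ) < 2 ^ k := by positivity
    calc K * (∑ j ∈ range (k + 2), (2 : ℝ) ^ j) *
          (((2 : ℝ) ^ k)⁻¹ * (Y.gb k + Y.gb (k + 1) + Y.gb (k + 2))) ≤
          K * 2 ^ (k + 2) * (((2 : ℝ) ^ k)⁻¹ * (Y.gb k + Y.gb (k + 1) + Y.gb (k + 2))) := by
          gcongr
      _ = 4 * K * (Y.gb k + Y.gb (k + 1) + Y.gb (k + 2)) := by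
          rw [pow_add]
          field_simp
          ring
  have hstep : ∀ k, S0 (k + 3) ≤ S0 (k + 2) +
      (8 * K + 1) * (Y.gb k + Y.gb (k + 1) + Y.gb (k + 2)) := by
    intro k
    have hle : 2 ^ (k + 2) ≤ 2 ^ (k + 3) := Nat.pow_le_pow_right (by norm_num) (by omega)
    have e1 : ∀ f : ℕ → ℝ, ∑ s ∈ range (2 ^ (k + 3)), f s =
        ∑ s ∈ range (2 ^ (k + 2)), f s + ∑ s ∈ oc (k + 2), f s := fun f =>
      (Finset.sum_range_add_sum_Ico f hle).symm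
    have e2 : S0 (k + 3) = S0 (k + 2) + (∑ s ∈ range (2 ^ (k + 2)), ∑ t ∈ oc (k + 2), Y.b s t) +
        (∑ s ∈ oc (k + 2), ∑ t ∈ range (2 ^ (k + 2)), Y.b s t) + Y.gb (k + 2) := by
      simp only [hS0, e1, Finset.sum_add_distrib]
      have : ∑ s ∈ oc (k + 2), ∑ t ∈ oc (k + 2), Y.b s t = Y.gb (k + 2) := rfl
      rw [this]
      ring
    have e3 : (∑ s ∈ oc (k + 2), ∑ t ∈ range (2 ^ (k + 2)), Y.b s t) =
        ∑ s ∈ range (2 ^ (k + 2)), ∑ t ∈ oc (k + 2), Y.b s t := by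
      rw [Finset.sum_comm]
      exact Finset.sum_congr rfl fun s _ => Finset.sum_congr rfl fun t _ => Y.b_comm _ _
    rw [e3] at e2
    have h1 := hcr k
    have g0 := Y.gb_nonneg k
    have g1 := Y.gb_nonneg (k + 1)
    nlinarith
  have hall : ∀ k, S0 (k + 2) ≤ S0 2 +
      (8 * K + 1) * (∑ i ∈ range k, (Y.gb i + Y.gb (i + 1) + Y.gb (i + 2))) := by
    intro k
    induction k with
    | zero => simp
    | succ k ih =>
      rw [Finset.sum_range_succ, mul_add]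
      have h1 := hstep k
      have : S0 (k + 1 + 2) = S0 (k + 3) := rfl
      rw [this]
      linarith
  have hsh : ∀ i k, ∑ j ∈ range k, Y.gb (j + i) ≤ C := by
    intro i k
    rw [Finset.range_eq_Ico, Finset.sum_Ico_add' (fun j => Y.gb j) 0 k i]
    refine le_trans ?_ (hC (k + i))
    refine Finset.sum_le_sum_of_subset_of_nonneg ?_ fun j _ _ => Y.gb_nonneg j
    intro j hj
    rw [Finset.mem_Ico] at hj
    rw [Finset.mem_range]
    omega
  refine ⟨S0 2 + (8 * K + 1) * (C + C + C), fun N => ?_⟩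
  have hN : N ≤ 2 ^ (N + 2) := by
    have h1 : N < 2 ^ N := Nat.lt_two_pow_self
    have h2 : 2 ^ N ≤ 2 ^ (N + 2) := Nat.pow_le_pow_right (by norm_num) (by omega)
    omega
  have h1 : ∑ s ∈ range N, ∑ t ∈ range N, Y.b s t ≤ S0 (N + 2) := by
    refine (Finset.sum_le_sum fun s _ => Finset.sum_le_sum_of_subset_of_nonneg
      (Finset.range_mono hN) fun t _ _ => Y.b_nonneg s t).trans ?_
    exact Finset.sum_le_sum_of_subset_of_nonneg (Finset.range_mono hN) fun s _ _ =>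
      Finset.sum_nonneg fun t _ => Y.b_nonneg s t
  refine h1.trans ((hall N).trans ?_)
  have h2 : ∑ i ∈ range N, (Y.gb i + Y.gb (i + 1) + Y.gb (i + 2)) ≤ C + C + C := by
    rw [Finset.sum_add_distrib, Finset.sum_add_distrib]
    have a0 := hsh 0 N
    have a1 := hsh 1 N
    have a2 := hsh 2 N
    simp only [add_zero] at a0
    linarith
  have h3 : 0 ≤ 8 * K + 1 := by linarith
  have := mul_le_mul_of_nonneg_left h2 h3
  linarith
-- END end_d

end Pool.Agent.Taw
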