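import Pool.Agent.Taw.Bas

/-!
# Energies of good words (section 4 of the page, finite `N`)
-/

set_option autoImplicit false

namespace Pool.Agent.Taw

open Finset Filter Topology Pool.Agent.Bub4 Pool.Agent.SawM2

variable {S : Type} [Fintype S] {d : ℕ} {Y : Sys S (Zk d)} {K B κ a : ℝ} {g : List S → ℝ}

-- BEGIN pr_GD
/-- `Fm.pr_bs`, `Y.E_eq`. -/
theorem pr_GD (Y : Sys S (Zk d)) (g : List S → ℝ) (κ : ℝ) (u : List S) (N : ℕ) (f : Zk d → ℝ) :
    (GD Y g κ u N).pr f = ∑ i ∈ range (N - u.length),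
      Y.E i fun w => hh g κ (u ++ w) * f (Y.sm (u ++ w)) := by
  unfold GD
  rw [Fm.pr_bs]
  refine Finset.sum_congr rfl fun i _ => ?_
  rw [Y.E_eq]
  unfold Fm.pr
  exact Finset.sum_congr rfl fun w _ => mul_assoc _ _ _
-- END pr_GD

-- BEGIN GD_nn
theorem GD_nn (h : Cf Y K B g) (κ : ℝ) (u : List S) (N : ℕ) : (GD Y g κ u N).Nn := by
  rintro ⟨i, w⟩
  exact mul_nonneg (pow_nonneg Y.z_pos.le _) (mul_nonneg (h.nonneg _) (ind_nonneg _))
-- END GD_nn

-- BEGIN hh_facts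
/-- `0 ≤ hh ≤ 1`, `hh g κ (u ++ v) ≤ hh g κ v` (`h.drop`), `κ * ind (κ ≤ g w) ≤ hh g κ w ≤
ind (κ ≤ g w)`, `hh ≤ g`. -/
theorem hh_facts (h : Cf Y K B g) (hκ : 0 < κ) (u v : List S) :
    0 ≤ hh g κ v ∧ hh g κ v ≤ 1 ∧ hh g κ v ≤ g v ∧ hh g κ (u ++ v) ≤ hh g κ v ∧
      κ * ind (κ ≤ g v) ≤ hh g κ v ∧ hh g κ v ≤ ind (κ ≤ g v) := by
  have h0 := h.nonneg v
  have h1 := g_le_one h v
  have h2 := h.drop u v
  have h3 := ind_nonneg (κ ≤ g v)
  have h4 := ind_le_one (κ ≤ g v)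
  have h5 : hh g κ v ≤ g v := by
    have := mul_le_mul_of_nonneg_left h4 h0
    unfold hh
    linarith
  refine ⟨mul_nonneg h0 h3, h5.trans h1, h5, ?_, ?_, ?_⟩
  · unfold hh
    exact mul_le_mul h2 (ind_mono fun hk => hk.trans h2) (ind_nonneg _) h0
  · unfold hh
    by_cases hk : κ ≤ g v
    · rw [ind_of hk, mul_one, mul_one]
      exact hk
    · rw [ind_not hk, mul_zero, mul_zero]
  · unfold hh
    have := mul_le_mul_of_nonneg_right h1 h3
    linarith
-- END hh_facts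

-- BEGIN en_tr
theorem en_tr_nr (a : ℝ) (μ : Fm d) (y : Zk d) :
    Fm.nr a (⟨μ.ι, μ.c, fun i => μ.x i + y⟩ : Fm d) = Fm.nr a μ := by
  have h1 : Fm.en a (⟨μ.ι, μ.c, fun i => μ.x i + y⟩ : Fm d) ⟨μ.ι, μ.c, fun i => μ.x i + y⟩ =
      Fm.en a μ μ := by
    unfold Fm.en Fm.pr
    refine Finset.sum_congr rfl fun i _ => ?_
    congr 1
    refine Finset.sum_congr rfl fun j _ => ?_
    change μ.c j * SawM2.ker a (μ.x i + y - (μ.x j + y)) = μ.c j * SawM2.ker a (μ.x i - μ.x j)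
    rw [add_sub_add_right_eq_sub]
  unfold Fm.nr
  rw [h1]

/-- Cauchy-Schwarz with a translation: `en_cs` for the translate of `μ`
(`⟨μ.ι, μ.c, fun i => μ.x i + y⟩`), which has the same norm. -/
theorem en_tr (ha : 0 < a) (ha1 : a < 1) (μ ν : Fm d) (y : Zk d) :
    (μ.pr fun x => ν.pr fun x' => ker a (x + y - x')) ≤ Fm.nr a μ * Fm.nr a ν := by
  have h1 := (le_abs_self _).trans
    (Fm.en_cs ha ha1 (⟨μ.ι, μ.c, fun i => μ.x i + y⟩ : Fm d) ν)
  rw [en_tr_nr] at h1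
  exact h1
-- END en_tr

-- BEGIN GD_step
/-- splitting off the word `u` itself and the next `m` letters: the words with prefix `u` of
length `< |u| + m` (at most `m` terms `Y.E i ..`, each a sum of point masses of total mass `≤ 1`)
and the words with a prefix `u ++ x`, `|x| = m` (`pr_GD`, `E_add`). -/
theorem GD_step (h : Cf Y K B g) (κ : ℝ) (u : List S) (m N : ℕ) (hN : u.length + m ≤ N)
    (f : Zk d → ℝ) :
    (GD Y g κ u N).pr f = (∑ i ∈ range m, Y.E i fun w => hh g κ (u ++ w) * f (Y.sm (u ++ w))) +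
      Y.E m fun x => (GD Y g κ (u ++ x) N).pr f := by
  rw [pr_GD]
  have e : N - u.length = m + (N - u.length - m) := by omega
  rw [e, Finset.sum_range_add]
  congr 1
  have h1 : (Y.E m fun x => (GD Y g κ (u ++ x) N).pr f) = Y.E m fun x =>
      ∑ j ∈ range (N - u.length - m), Y.E j fun w =>
        hh g κ (u ++ (x ++ w)) * f (Y.sm (u ++ (x ++ w))) := by
    refine Y.E_congr fun x hx => ?_
    rw [pr_GD, List.length_append, hx, Nat.sub_add_eq]
    simp only [List.append_assoc]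
  rw [h1, Y.E_fsum]
  refine Finset.sum_congr rfl fun j _ => ?_
  rw [Y.E_add]
-- END GD_step

-- BEGIN nr_GD_le
theorem nr_GD_le_nr (a : ℝ) (μ : Fm d) (y : Zk d) :
    Fm.nr a (⟨μ.ι, μ.c, fun i => μ.x i + y⟩ : Fm d) = Fm.nr a μ := by
  have h1 : Fm.en a (⟨μ.ι, μ.c, fun i => μ.x i + y⟩ : Fm d) ⟨μ.ι, μ.c, fun i => μ.x i + y⟩ =
      Fm.en a μ μ := by
    unfold Fm.en Fm.pr
    refine Finset.sum_congr rfl fun i _ => ?_
    congr 1
    refine Finset.sum_congr rfl fun j _ => ?_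
    change μ.c j * SawM2.ker a (μ.x i + y - (μ.x j + y)) = μ.c j * SawM2.ker a (μ.x i - μ.x j)
    rw [add_sub_add_right_eq_sub]
  unfold Fm.nr
  rw [h1]

/-- `GD u N` is dominated by a translate of `GD [] N` (`hh_facts`, `N - |u| ≤ N`). -/
theorem nr_GD_le (h : Cf Y K B g) (hκ : 0 < κ) (ha : 0 < a) (ha1 : a < 1) (u : List S) (N : ℕ) :
    Fm.nr a (GD Y g κ u N) ≤ Fm.nr a (GD Y g κ [] N) := by
  rw [← nr_GD_le_nr a (GD Y g κ [] N) (Y.sm u)]
  refine Fm.nr_mono ha (GD_nn h κ u N) (GD_nn h κ [] N) ?_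
  intro f hf
  change (GD Y g κ u N).pr f ≤ (GD Y g κ [] N).pr fun x => f (x + Y.sm u)
  rw [pr_GD, pr_GD]
  have hnn : ∀ w : List S, 0 ≤ hh g κ ([] ++ w) * f (Y.sm ([] ++ w) + Y.sm u) := fun w =>
    mul_nonneg (hh_facts h hκ [] _).1 (hf _)
  calc ∑ i ∈ range (N - u.length), (Y.E i fun w => hh g κ (u ++ w) * f (Y.sm (u ++ w)))
      ≤ ∑ i ∈ range (N - u.length),
          (Y.E i fun w => hh g κ ([] ++ w) * f (Y.sm ([] ++ w) + Y.sm u)) := by
        refine Finset.sum_le_sum fun i _ => Y.E_mono fun w _ => ?_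
        rw [List.nil_append, Y.sm_append, add_comm (Y.sm u)]
        exact mul_le_mul_of_nonneg_right (hh_facts h hκ u w).2.2.2.1 (hf _)
    _ ≤ ∑ i ∈ range (N - ([] : List S).length),
          (Y.E i fun w => hh g κ ([] ++ w) * f (Y.sm ([] ++ w) + Y.sm u)) := by
        refine Finset.sum_le_sum_of_subset_of_nonneg ?_ fun i _ _ => Y.E_nonneg' hnn
        apply Finset.range_subset_range.2
        simp
-- END nr_GD_le

-- BEGIN one_word
/-- single words: a point mass has norm `1`: `∑ w, c w * (ν.pr (ker a (sm w - ·))) ≤ (∑ c) *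
nr ν`. Here: `Y.E i (fun w => hh (u ++ w) * ν.pr ..) ≤ nr ν` since `Y.E i (fun w => g (u ++ w)) =
g u ≤ 1` (`en_tr` with `μ` a point mass, or `en_cs`). -/
theorem one_word (h : Cf Y K B g) (hκ : 0 < κ) (ha : 0 < a) (ha1 : a < 1) (u : List S) (i : ℕ)
    (ν : Fm d) : (Y.E i fun w => hh g κ (u ++ w) * ν.pr fun x => ker a (Y.sm (u ++ w) - x)) ≤
      Fm.nr a ν := by
  have h1 : ∀ z : Zk d, (ν.pr fun x => ker a (z - x)) ≤ Fm.nr a ν := by
    intro z
    have h2 := Fm.en_cs ha ha1 (⟨Unit, fun _ => 1, fun _ => z⟩ : Fm d) ν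
    have h3 : Fm.en a (⟨Unit, fun _ => 1, fun _ => z⟩ : Fm d) ν = ν.pr fun x => ker a (z - x) := by
      simp [Fm.en, Fm.pr]
    have h4 : Fm.nr a (⟨Unit, fun _ => 1, fun _ => z⟩ : Fm d) = 1 := by
      simp [Fm.nr, Fm.en, Fm.pr, SawM2.ker, n1]
    rw [h3, h4, one_mul] at h2
    exact (le_abs_self _).trans h2
  have hν : 0 ≤ Fm.nr a ν := Real.sqrt_nonneg _
  calc _ ≤ Y.E i fun w => g (u ++ w) * Fm.nr a ν := by
        refine Y.E_mono fun w _ => ?_
        have h5 := hh_facts h hκ [] (u ++ w)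
        exact (mul_le_mul_of_nonneg_left (h1 _) h5.1).trans
          (mul_le_mul_of_nonneg_right h5.2.2.1 hν)
    _ = g u * Fm.nr a ν := by rw [Y.E_mul_right, h.right]
    _ ≤ 1 * Fm.nr a ν := mul_le_mul_of_nonneg_right (g_le_one h u) hν
    _ = _ := one_mul _
-- END one_word

-- BEGIN EN_ge
private theorem EN_ge_term (h : Cf Y K B g) (hκ : 0 < κ) (ha : 0 < a) (u v : List S) :
    κ ^ 2 * (ind (κ ≤ g u) * ind (κ ≤ g v) * dl (Y.sm u - Y.sm v)) ≤
      hh g κ u * (hh g κ v * ker a (Y.sm u - Y.sm v)) := by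
  obtain ⟨-, -, -, -, hu, -⟩ := hh_facts h hκ [] u
  obtain ⟨-, -, -, -, hv, -⟩ := hh_facts h hκ [] v
  have hk : dl (Y.sm u - Y.sm v) ≤ ker a (Y.sm u - Y.sm v) := by
    by_cases h0 : Y.sm u - Y.sm v = 0
    · rw [h0, dl_zero, ker_zero]
    · rw [dl_of_ne h0]
      exact ker_nonneg ha.le _
  have i1 := ind_nonneg (κ ≤ g u)
  have i2 := ind_nonneg (κ ≤ g v)
  have q1 : 0 ≤ κ * ind (κ ≤ g u) := mul_nonneg hκ.le i1
  have q2 : 0 ≤ κ * ind (κ ≤ g v) := mul_nonneg hκ.le i2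
  calc κ ^ 2 * (ind (κ ≤ g u) * ind (κ ≤ g v) * dl (Y.sm u - Y.sm v))
      = (κ * ind (κ ≤ g u)) * ((κ * ind (κ ≤ g v)) * dl (Y.sm u - Y.sm v)) := by ring
    _ ≤ hh g κ u * (hh g κ v * ker a (Y.sm u - Y.sm v)) := by
        refine mul_le_mul hu (mul_le_mul hv hk (dl_nonneg _) (q2.trans hv))
          (mul_nonneg q2 (dl_nonneg _)) (q1.trans hu)

/-- `EN ≥ κ ^ 2 * L2s (range N)`: `ker a 0 = 1`, other terms are `≥ 0`, `hh ≥ κ * ind`. -/
theorem EN_ge (h : Cf Y K B g) (hκ : 0 < κ) (ha : 0 < a) (ha1 : a < 1) (N : ℕ) :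
    κ ^ 2 * L2s Y g κ (range N) ≤ EN Y g κ a N := by
  unfold EN Fm.en L2s
  rw [pr_GD, Finset.mul_sum]
  simp only [List.length_nil, Nat.sub_zero, List.nil_append]
  refine Finset.sum_le_sum fun i _ => ?_
  rw [Finset.mul_sum]
  have e1 : (Y.E i fun w => hh g κ w * (GD Y g κ [] N).pr fun y => ker a (Y.sm w - y)) =
      ∑ j ∈ range N, Y.E i fun u => Y.E j fun v =>
        hh g κ u * (hh g κ v * ker a (Y.sm u - Y.sm v)) := by
    rw [← Y.E_fsum]
    refine Y.E_congr fun u _ => ?_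
    rw [pr_GD, Finset.mul_sum]
    simp only [List.length_nil, Nat.sub_zero, List.nil_append]
    refine Finset.sum_congr rfl fun j _ => ?_
    rw [Y.E_mul_left]
  rw [e1]
  refine Finset.sum_le_sum fun j _ => ?_
  rw [← Y.E_mul_left]
  refine Y.E_mono fun u _ => ?_
  rw [← Y.E_mul_left]
  refine Y.E_mono fun v _ => ?_
  exact EN_ge_term h hκ ha u v
-- END EN_ge

-- BEGIN EN_atTop
private theorem EN_atTop_nn (g : List S → ℝ) (κ : ℝ) (i j : ℕ) :
    0 ≤ Y.E i fun u => Y.E j fun v =>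
      ind (κ ≤ g u) * ind (κ ≤ g v) * dl (Y.sm u - Y.sm v) :=
  Y.E_nonneg' fun u => Y.E_nonneg' fun v =>
    mul_nonneg (mul_nonneg (ind_nonneg _) (ind_nonneg _)) (dl_nonneg _)

private theorem EN_atTop_mono (Y : Sys S (Zk d)) (g : List S → ℝ) (κ : ℝ) :
    Monotone fun N => L2s Y g κ (range N) := by
  intro M N hMN
  have hs : range M ⊆ range N := Finset.range_subset_range.2 hMN
  show L2s Y g κ (range M) ≤ L2s Y g κ (range N)
  unfold L2s
  refine (Finset.sum_le_sum fun i _ => Finset.sum_le_sum_of_subset_of_nonneg hs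
    fun j _ _ => EN_atTop_nn g κ i j).trans ?_
  exact Finset.sum_le_sum_of_subset_of_nonneg hs
    fun i _ _ => Finset.sum_nonneg fun j _ => EN_atTop_nn g κ i j

/-- `L2s` is monotone in `N`; if it is not bounded it tends to infinity. -/
theorem EN_atTop (h : Cf Y K B g) (hκ : 0 < κ) (ha : 0 < a) (ha1 : a < 1)
    (hL : ¬ ∃ C : ℝ, ∀ N : ℕ, L2s Y g κ (range N) ≤ C) :
    Tendsto (fun N => EN Y g κ a N) atTop atTop := by
  have h1 : Tendsto (fun N => L2s Y g κ (range N)) atTop atTop := by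
    refine tendsto_atTop_atTop_of_monotone (EN_atTop_mono Y g κ) fun C => ?_
    by_contra hc
    push Not at hc
    exact hL ⟨C, fun N => (hc N).le⟩
  have h2 : Tendsto (fun N => κ ^ 2 * L2s Y g κ (range N)) atTop atTop :=
    h1.const_mul_atTop (by positivity)
  exact tendsto_atTop_mono (fun N => EN_ge h hκ ha ha1 N) h2
-- END EN_atTop

-- BEGIN fin_step
private theorem fin_step_nr (h : Cf Y K B g) (hκ : 0 < κ) (ha : 0 < a) (ha1 : a < 1)
    (u : List S) (N : ℕ) : Fm.nr a (GD Y g κ u N) ≤ Real.sqrt (EN Y g κ a N) :=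
  nr_GD_le h hκ ha ha1 u N

/-- Consistency: `en (GD u) (GD v) - E m (x ↦ en (GD u) (GD (v ++ x)))` is between `0` and
`m * sqrt EN` (`GD_step` in the second argument, `one_word`, `nr_GD_le`, `nr = sqrt en`). -/
theorem fin_step (h : Cf Y K B g) (hκ : 0 < κ) (ha : 0 < a) (ha1 : a < 1) (u v : List S)
    (m N : ℕ) (hN : v.length + m ≤ N) :
    (Y.E m fun x => Fm.en a (GD Y g κ u N) (GD Y g κ (v ++ x) N)) ≤
      Fm.en a (GD Y g κ u N) (GD Y g κ v N) ∧
    Fm.en a (GD Y g κ u N) (GD Y g κ v N) ≤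
      (Y.E m fun x => Fm.en a (GD Y g κ u N) (GD Y g κ (v ++ x) N)) +
        m * Real.sqrt (EN Y g κ a N) := by
  have hnn : ∀ y : Zk d, 0 ≤ (GD Y g κ u N).pr fun x => ker a (y - x) := fun y =>
    (GD_nn h κ u N).pr_nonneg fun x => ker_nonneg ha.le _
  have key := GD_step h κ v m N hN (fun y => (GD Y g κ u N).pr fun x => ker a (y - x))
  have e1 : ∀ w : List S, Fm.en a (GD Y g κ u N) (GD Y g κ w N) =
      (GD Y g κ w N).pr fun y => (GD Y g κ u N).pr fun x => ker a (y - x) := fun w => by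
    rw [Fm.en_comm]
    rfl
  have e2 : (Y.E m fun x => Fm.en a (GD Y g κ u N) (GD Y g κ (v ++ x) N)) =
      Y.E m fun x => (GD Y g κ (v ++ x) N).pr fun y => (GD Y g κ u N).pr fun x => ker a (y - x) :=
    Y.E_congr fun x _ => e1 _
  rw [e2, e1 v, key]
  have h0 : 0 ≤ ∑ i ∈ range m, Y.E i fun w => hh g κ (v ++ w) *
      (GD Y g κ u N).pr fun x => ker a (Y.sm (v ++ w) - x) :=
    Finset.sum_nonneg fun i _ => Y.E_nonneg' fun w =>
      mul_nonneg (hh_facts h hκ [] (v ++ w)).1 (hnn _)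
  have h1 : (∑ i ∈ range m, Y.E i fun w => hh g κ (v ++ w) *
      (GD Y g κ u N).pr fun x => ker a (Y.sm (v ++ w) - x)) ≤
        m * Real.sqrt (EN Y g κ a N) := by
    refine (Finset.sum_le_sum fun i _ => (one_word h hκ ha ha1 v i (GD Y g κ u N)).trans
      (fin_step_nr h hκ ha ha1 u N)).trans ?_
    rw [Finset.sum_const, Finset.card_range, nsmul_eq_mul]
  constructor
  · linarith
  · linarith
-- END fin_step

-- BEGIN fin_dens1
/-- `T` is the first time at which `u ++ w.take T` is good -/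
private noncomputable def fin_dens1_f (g : List S → ℝ) (κ : ℝ) (u : List S) (T : ℕ)
    (w : List S) : ℝ := ind (κ ≤ g (u ++ w.take T) ∧ ∀ s < T, ¬ κ ≤ g (u ++ w.take s))

private theorem fin_dens1_app (g : List S → ℝ) (κ : ℝ) (u : List S) (c b : List S) :
    fin_dens1_f g κ u c.length (c ++ b) = fin_dens1_f g κ u c.length c := by
  unfold fin_dens1_f
  refine ind_congr ?_
  have h1 : ∀ s ≤ c.length, (c ++ b).take s = c.take s := fun s hs =>
    List.take_append_of_le_length hs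
  rw [h1 _ le_rfl]
  refine and_congr_right fun _ => forall₂_congr fun s hs => ?_
  rw [h1 s hs.le]

private theorem fin_dens1_sum (g : List S → ℝ) (κ : ℝ) (u : List S) (M : ℕ) (w : List S) :
    ∑ T ∈ range M, fin_dens1_f g κ u T w ≤ 1 := by
  classical
  by_cases hex : ∃ T, T ∈ range M ∧
      (κ ≤ g (u ++ w.take T) ∧ ∀ s < T, ¬ κ ≤ g (u ++ w.take s))
  · obtain ⟨T, hT, h1, h2⟩ := hex
    rw [Finset.sum_eq_single_of_mem T hT]
    · exact ind_le_one _
    · intro T' _ hne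
      refine ind_not ?_
      rintro ⟨h3, h4⟩
      rcases lt_or_gt_of_ne hne with h5 | h5
      · exact h2 T' h5 h3
      · exact h4 T h5 h1
  · refine (Finset.sum_eq_zero fun T hT => ?_).trans_le zero_le_one
    exact ind_not fun h1 => hex ⟨T, hT, h1⟩

private theorem fin_dens1_cov (g : List S → ℝ) (κ : ℝ) (u : List S) (w : List S)
    (h : κ ≤ g (u ++ w)) : 1 ≤ ∑ T ∈ range (w.length + 1), fin_dens1_f g κ u T w := by
  classical
  have hex : ∃ T, κ ≤ g (u ++ w.take T) := ⟨w.length, by rwa [List.take_length]⟩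
  have h1 : Nat.find hex ≤ w.length := Nat.find_min' hex (by rwa [List.take_length])
  have h2 : fin_dens1_f g κ u (Nat.find hex) w = 1 :=
    ind_of ⟨Nat.find_spec hex, fun s hs => Nat.find_min hex hs⟩
  rw [← h2]
  exact Finset.single_le_sum (f := fun T => fin_dens1_f g κ u T w) (fun T _ => ind_nonneg _)
    (Finset.mem_range.2 (by omega))

private theorem fin_dens1_mass (h : Cf Y K B g) (κ : ℝ) (u : List S) (M : ℕ) :
    ∑ T ∈ range M, (Y.E T fun c => fin_dens1_f g κ u T c * g (u ++ c)) ≤ g u := by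
  have h1 : ∀ T ∈ range M, (Y.E T fun c => fin_dens1_f g κ u T c * g (u ++ c)) =
      Y.E M fun w => fin_dens1_f g κ u T w * g (u ++ w) := by
    intro T hT
    obtain ⟨n, hn⟩ : ∃ n, M = T + n := ⟨M - T, by have := Finset.mem_range.1 hT; omega⟩
    rw [hn, Y.E_add]
    refine Y.E_congr fun c hc => ?_
    rw [← h.right (u ++ c) n, ← Y.E_mul_left]
    refine Y.E_congr fun b _ => ?_
    rw [← hc, fin_dens1_app, List.append_assoc]
  rw [Finset.sum_congr rfl h1, ← Y.E_fsum, ← h.right u M]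
  refine Y.E_mono fun w _ => ?_
  rw [← Finset.sum_mul]
  exact mul_le_of_le_one_left (h.nonneg _) (fin_dens1_sum g κ u M w)

private theorem fin_dens1_word (h : Cf Y K B g) (hκ : 0 < κ) (u c b : List S) :
    κ * (fin_dens1_f g κ u c.length c * hh g κ (u ++ (c ++ b))) ≤
      fin_dens1_f g κ u c.length c * g (u ++ c) * hh g κ b := by
  by_cases hf : κ ≤ g (u ++ c.take c.length) ∧ ∀ s < c.length, ¬ κ ≤ g (u ++ c.take s)
  · have h1 : fin_dens1_f g κ u c.length c = 1 := ind_of hf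
    rw [h1, one_mul, one_mul, ← List.append_assoc]
    have h2 : κ ≤ g (u ++ c) := by
      have := hf.1
      rwa [List.take_length] at this
    have h3 := (hh_facts h hκ (u ++ c) b).2.2.2.1
    have h4 := (hh_facts h hκ [] (u ++ c ++ b)).1
    exact mul_le_mul h2 h3 h4 (hκ.le.trans h2)
  · have h1 : fin_dens1_f g κ u c.length c = 0 := ind_not hf
    rw [h1, zero_mul, mul_zero, zero_mul, zero_mul]

private theorem fin_dens1_tri (A : ℕ → ℕ → ℝ) (hA : ∀ T j, 0 ≤ A T j) (M N : ℕ) (hMN : M ≤ N) :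
    ∑ i ∈ range M, ∑ T ∈ range (i + 1), A T (i - T) ≤
      ∑ T ∈ range M, ∑ j ∈ range N, A T j := by
  have h1 := Finset.sum_Ico_Ico_comm 0 M fun T i => A T (i - T)
  simp only [← Finset.range_eq_Ico] at h1
  rw [← h1]
  refine Finset.sum_le_sum fun T _ => ?_
  rw [Finset.sum_Ico_eq_sum_range]
  have h2 : ∀ j, A T (T + j - T) = A T j := fun j => by rw [Nat.add_sub_cancel_left]
  simp only [h2]
  exact Finset.sum_le_sum_of_subset_of_nonneg (Finset.range_subset_range.2 (by omega))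
    fun j _ _ => hA T j

/-- One argument: a good word `u ++ w` has a first good prefix of length `≥ |u|`, `u ++ c`
(`sum_Fst`-like decomposition over the length `T` of `c`); `g (u ++ c ++ b) ≤ g b`,
`κ ≤ g (u ++ c)`, so `hh (u ++ c ++ b) ≤ κ⁻¹ * g (u ++ c) * hh b` and
`∑ T, Y.E T (g (u ++ c) * ind (first good)) ≤ g u`. So for every `ν` with nonnegative weights
`(GD u N).pr (x ↦ ν.pr (ker a (x - ·))) ≤ κ⁻¹ * g u * nr (GD [] N) * nr ν`. -/
theorem fin_dens1 (h : Cf Y K B g) (hκ : 0 < κ) (ha : 0 < a) (ha1 : a < 1) (u : List S) (N : ℕ)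
    {ν : Fm d} (hν : ν.Nn) :
    κ * Fm.en a (GD Y g κ u N) ν ≤ g u * (Fm.nr a (GD Y g κ [] N) * Fm.nr a ν) := by
  have hk : ∀ x : Zk d, 0 ≤ ker a x := ker_nonneg ha.le
  have hF : ∀ x : Zk d, 0 ≤ ν.pr fun y => ker a (x - y) := fun x => hν.pr_nonneg fun y => hk _
  have hf0 : ∀ (T : ℕ) (c : List S), 0 ≤ fin_dens1_f g κ u T c := fun T c => ind_nonneg _
  obtain ⟨M, hM⟩ : ∃ M, M = N - u.length := ⟨_, rfl⟩
  obtain ⟨A, hAdef⟩ : ∃ A : ℕ → ℕ → ℝ, A = fun T j => Y.E T fun c => Y.E j fun b =>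
      fin_dens1_f g κ u T c * g (u ++ c) * hh g κ b *
        (ν.pr fun y => ker a (Y.sm (u ++ c) + Y.sm b - y)) := ⟨_, rfl⟩
  have hhn : ∀ b : List S, 0 ≤ hh g κ b := fun b => (hh_facts h hκ [] b).1
  have hA0 : ∀ T j, 0 ≤ A T j := by
    intro T j
    rw [hAdef]
    exact Y.E_nonneg' fun c => Y.E_nonneg' fun b => mul_nonneg (mul_nonneg
      (mul_nonneg (hf0 _ _) (h.nonneg _)) (hhn _)) (hF _)
  have h1 : κ * Fm.en a (GD Y g κ u N) ν ≤
      ∑ i ∈ range M, ∑ T ∈ range (i + 1), A T (i - T) := by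
    unfold Fm.en
    rw [pr_GD, Finset.mul_sum, ← hM]
    refine Finset.sum_le_sum fun i _ => ?_
    rw [← Y.E_mul_left]
    have h2 : (Y.E i fun w => κ * (hh g κ (u ++ w) * ν.pr fun y => ker a (Y.sm (u ++ w) - y))) ≤
        Y.E i fun w => ∑ T ∈ range (i + 1), κ * (fin_dens1_f g κ u T w * hh g κ (u ++ w)) *
          (ν.pr fun y => ker a (Y.sm (u ++ w) - y)) := by
      refine Y.E_mono fun w hw => ?_
      rw [← Finset.sum_mul, ← Finset.mul_sum, ← Finset.sum_mul, ← mul_assoc]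
      refine mul_le_mul_of_nonneg_right (mul_le_mul_of_nonneg_left ?_ hκ.le) (hF _)
      by_cases hg : κ ≤ g (u ++ w)
      · have h3 := fin_dens1_cov g κ u w hg
        rw [hw] at h3
        exact le_mul_of_one_le_left (hhn _) h3
      · have h3 : hh g κ (u ++ w) = 0 := by
          unfold hh
          rw [ind_not hg, mul_zero]
        rw [h3, mul_zero]
    refine h2.trans ?_
    rw [Y.E_fsum]
    refine Finset.sum_le_sum fun T hT => ?_
    obtain ⟨j, hj⟩ : ∃ j, i = T + j := ⟨i - T, by have := Finset.mem_range.1 hT; omega⟩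
    rw [hj, Nat.add_sub_cancel_left, Y.E_add, hAdef]
    refine Y.E_mono fun c hc => Y.E_mono fun b _ => ?_
    have e1 : Y.sm (u ++ (c ++ b)) = Y.sm (u ++ c) + Y.sm b := by
      rw [← List.append_assoc, Y.sm_append (u ++ c)]
    rw [e1]
    refine mul_le_mul_of_nonneg_right ?_ (hF _)
    rw [← hc, fin_dens1_app]
    exact fin_dens1_word h hκ u c b
  refine h1.trans ((fin_dens1_tri A hA0 M N (by omega)).trans ?_)
  have h4 : ∀ T, ∑ j ∈ range N, A T j ≤
      (Y.E T fun c => fin_dens1_f g κ u T c * g (u ++ c)) *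
        (Fm.nr a (GD Y g κ [] N) * Fm.nr a ν) := by
    intro T
    rw [hAdef, ← Y.E_mul_right]
    simp only
    rw [← Y.E_fsum]
    refine Y.E_mono fun c _ => ?_
    have h5 := en_tr ha ha1 (GD Y g κ [] N) ν (Y.sm (u ++ c))
    rw [pr_GD] at h5
    simp only [List.length_nil, Nat.sub_zero, List.nil_append] at h5
    have e2 : (∑ j ∈ range N, Y.E j fun b => fin_dens1_f g κ u T c * g (u ++ c) * hh g κ b *
        (ν.pr fun y => ker a (Y.sm (u ++ c) + Y.sm b - y))) =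
        fin_dens1_f g κ u T c * g (u ++ c) * ∑ j ∈ range N, Y.E j fun b => hh g κ b *
          (ν.pr fun y => ker a (Y.sm b + Y.sm (u ++ c) - y)) := by
      rw [Finset.mul_sum]
      refine Finset.sum_congr rfl fun j _ => ?_
      rw [← Y.E_mul_left]
      refine Y.E_congr fun b _ => ?_
      rw [add_comm (Y.sm (u ++ c)) (Y.sm b)]
      ring
    rw [e2]
    exact mul_le_mul_of_nonneg_left h5 (mul_nonneg (hf0 _ _) (h.nonneg _))
  refine (Finset.sum_le_sum fun T _ => h4 T).trans ?_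
  rw [← Finset.sum_mul]
  exact mul_le_mul_of_nonneg_right (fin_dens1_mass h κ u M)
    (mul_nonneg (Real.sqrt_nonneg _) (Real.sqrt_nonneg _))
-- END fin_dens1

-- BEGIN nr_dens
/-- `fin_dens1` for `ν = GD u N` (`nr ^ 2 = en`). -/
theorem nr_dens (h : Cf Y K B g) (hκ : 0 < κ) (ha : 0 < a) (ha1 : a < 1) (u : List S) (N : ℕ) :
    κ * Fm.nr a (GD Y g κ u N) ≤ g u * Fm.nr a (GD Y g κ [] N) := by
  have h1 := fin_dens1 h hκ ha ha1 u N (GD_nn h κ u N)
  have h2 : Fm.nr a (GD Y g κ u N) ^ 2 = Fm.en a (GD Y g κ u N) (GD Y g κ u N) :=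
    Real.sq_sqrt (Fm.en_nonneg ha ha1 _)
  have h3 : 0 ≤ Fm.nr a (GD Y g κ u N) := Real.sqrt_nonneg _
  have h4 : 0 ≤ Fm.nr a (GD Y g κ [] N) := Real.sqrt_nonneg _
  have h5 : 0 ≤ g u * Fm.nr a (GD Y g κ [] N) := mul_nonneg (h.nonneg u) h4
  rw [← h2] at h1
  rcases h3.eq_or_lt with h6 | h6
  · rw [← h6, mul_zero]
    exact h5
  · refine le_of_mul_le_mul_right ?_ h6
    calc κ * Fm.nr a (GD Y g κ u N) * Fm.nr a (GD Y g κ u N)
        = κ * Fm.nr a (GD Y g κ u N) ^ 2 := by ring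
      _ ≤ g u * (Fm.nr a (GD Y g κ [] N) * Fm.nr a (GD Y g κ u N)) := h1
      _ = g u * Fm.nr a (GD Y g κ [] N) * Fm.nr a (GD Y g κ u N) := by ring
-- END nr_dens

-- BEGIN fin_dens
/-- `en_cs`, `nr_dens` twice, `nr ^ 2 = EN`. -/
theorem fin_dens (h : Cf Y K B g) (hκ : 0 < κ) (ha : 0 < a) (ha1 : a < 1) (u v : List S) (N : ℕ) :
    κ ^ 2 * Fm.en a (GD Y g κ u N) (GD Y g κ v N) ≤ g u * g v * EN Y g κ a N := by
  have h1 := (le_abs_self _).trans (Fm.en_cs ha ha1 (GD Y g κ u N) (GD Y g κ v N))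
  have h2 := nr_dens h hκ ha ha1 u N
  have h3 := nr_dens h hκ ha ha1 v N
  have h4 : Fm.nr a (GD Y g κ [] N) ^ 2 = EN Y g κ a N :=
    Real.sq_sqrt (Fm.en_nonneg ha ha1 _)
  have h5 : 0 ≤ κ * Fm.nr a (GD Y g κ v N) := mul_nonneg hκ.le (Real.sqrt_nonneg _)
  have h6 : 0 ≤ g u * Fm.nr a (GD Y g κ [] N) := mul_nonneg (h.nonneg u) (Real.sqrt_nonneg _)
  calc κ ^ 2 * Fm.en a (GD Y g κ u N) (GD Y g κ v N)
      ≤ κ ^ 2 * (Fm.nr a (GD Y g κ u N) * Fm.nr a (GD Y g κ v N)) :=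
        mul_le_mul_of_nonneg_left h1 (sq_nonneg κ)
    _ = (κ * Fm.nr a (GD Y g κ u N)) * (κ * Fm.nr a (GD Y g κ v N)) := by ring
    _ ≤ (g u * Fm.nr a (GD Y g κ [] N)) * (g v * Fm.nr a (GD Y g κ [] N)) :=
        mul_le_mul h2 h3 h5 h6
    _ = g u * g v * Fm.nr a (GD Y g κ [] N) ^ 2 := by ring
    _ = g u * g v * EN Y g κ a N := by rw [h4]
-- END fin_dens

-- BEGIN fin_psd
/-- `∑ c u c v en (GD u) (GD v)` is the energy of a combination: `en_nonneg` for
`Fm.bs univ (fun w : Fin k → S => Fm.smul (c w * z ^ k) (GD w))` (`Y.E_eq`). -/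
theorem fin_psd (h : Cf Y K B g) (ha : 0 < a) (ha1 : a < 1) (κ : ℝ) (k N : ℕ) (c : List S → ℝ) :
    0 ≤ Y.E k fun u => Y.E k fun v => c u * c v *
      Fm.en a (GD Y g κ u N) (GD Y g κ v N) := by
  classical
  have h1 := Fm.en_nonneg ha ha1 (Fm.bs (univ : Finset (Fin k → S))
    fun w => Fm.smul (c (List.ofFn w) * Y.z ^ k) (GD Y g κ (List.ofFn w) N))
  refine h1.trans (le_of_eq ?_)
  have hpr : ∀ f : Zk d → ℝ, (Fm.bs (univ : Finset (Fin k → S))
      fun w => Fm.smul (c (List.ofFn w) * Y.z ^ k) (GD Y g κ (List.ofFn w) N)).pr f =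
      ∑ w : Fin k → S, (c (List.ofFn w) * Y.z ^ k) * (GD Y g κ (List.ofFn w) N).pr f := by
    intro f
    rw [Fm.pr_bs]
    exact Finset.sum_congr rfl fun w _ => Fm.pr_smul _ _ _
  unfold Fm.en
  rw [hpr, Y.E_eq]
  refine Finset.sum_congr rfl fun u _ => ?_
  rw [Y.E_eq]
  have e1 : ((GD Y g κ (List.ofFn u) N).pr fun x => (Fm.bs (univ : Finset (Fin k → S))
      fun w => Fm.smul (c (List.ofFn w) * Y.z ^ k) (GD Y g κ (List.ofFn w) N)).pr
        fun y => ker a (x - y)) =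
      ∑ w : Fin k → S, (c (List.ofFn w) * Y.z ^ k) * (GD Y g κ (List.ofFn u) N).pr fun x =>
        (GD Y g κ (List.ofFn w) N).pr fun y => ker a (x - y) := by
    rw [Fm.pr_congr _ fun x => hpr _, Fm.pr_fsum]
    exact Finset.sum_congr rfl fun w _ => Fm.pr_mul_left _ _ _
  rw [e1, Finset.mul_sum, Finset.mul_sum]
  refine Finset.sum_congr rfl fun w _ => ?_
  ring
-- END fin_psd

-- BEGIN fin_sub
private theorem fin_sub_hh (h : Cf Y K B g) (hκ : 0 < κ) (u b w : List S) :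
    hh g κ (u ++ b ++ w) ≤ Y.sv (u ++ b) * hh g κ (b ++ w) := by
  by_cases hs : Y.Saw (u ++ b)
  · rw [Y.sv_of hs, one_mul, List.append_assoc]
    exact (hh_facts h hκ u (b ++ w)).2.2.2.1
  · rw [Y.sv_of_not hs, zero_mul]
    have h1 : g (u ++ b ++ w) ≤ 0 := by
      refine (h.le_sv _).trans ?_
      refine (Y.sv_append_left (u ++ b) w).trans ?_
      rw [Y.sv_of_not hs]
    exact (hh_facts h hκ [] (u ++ b ++ w)).2.2.1.trans h1

private theorem fin_sub_dom (h : Cf Y K B g) (hκ : 0 < κ) (u b : List S) (N : ℕ)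
    (f : Zk d → ℝ) (hf : ∀ x, 0 ≤ f x) :
    (GD Y g κ (u ++ b) N).pr f ≤ Y.sv (u ++ b) * (GD Y g κ b N).pr fun x => f (Y.sm u + x) := by
  rw [pr_GD, pr_GD, Finset.mul_sum]
  have hsub : range (N - (u ++ b).length) ⊆ range (N - b.length) := by
    rw [List.length_append]
    exact Finset.range_subset_range.2 (by omega)
  refine (Finset.sum_le_sum fun i _ => ?_).trans
    (Finset.sum_le_sum_of_subset_of_nonneg hsub fun i _ _ => ?_)
  · rw [← Y.E_mul_left]
    refine Y.E_mono fun w _ => ?_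
    have e : Y.sm (u ++ b ++ w) = Y.sm u + Y.sm (b ++ w) := by
      rw [List.append_assoc, Y.sm_append]
    rw [e, ← mul_assoc]
    exact mul_le_mul_of_nonneg_right (fin_sub_hh h hκ u b w) (hf _)
  · exact mul_nonneg (Y.sv_nonneg _) (Y.E_nonneg' fun w =>
      mul_nonneg (hh_facts h hκ [] (b ++ w)).1 (hf _))

private theorem fin_sub_main (h : Cf Y K B g) (hκ : 0 < κ) (ha : 0 < a) (ha1 : a < 1)
    (u v b b' : List S) (N : ℕ) :
    a ^ n1 (Y.sm u - Y.sm v) * Fm.en a (GD Y g κ (u ++ b) N) (GD Y g κ (v ++ b') N) ≤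
      Y.sv (u ++ b) * Y.sv (v ++ b') * Fm.en a (GD Y g κ b N) (GD Y g κ b' N) := by
  have hn : ∀ (w : List S) (f : Zk d → ℝ), (∀ x, 0 ≤ f x) → 0 ≤ (GD Y g κ w N).pr f :=
    fun w f hf => (GD_nn h κ w N).pr_nonneg hf
  have hk : ∀ x : Zk d, 0 ≤ ker a x := ker_nonneg ha.le
  have s1 : Fm.en a (GD Y g κ (u ++ b) N) (GD Y g κ (v ++ b') N) ≤
      Y.sv (u ++ b) * ((GD Y g κ b N).pr fun x => Y.sv (v ++ b') *
        ((GD Y g κ b' N).pr fun y => ker a (Y.sm u + x - (Y.sm v + y)))) := by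
    refine (fin_sub_dom h hκ u b N (fun x => (GD Y g κ (v ++ b') N).pr fun y => ker a (x - y))
      (fun x => hn _ _ fun y => hk _)).trans ?_
    refine mul_le_mul_of_nonneg_left ?_ (Y.sv_nonneg _)
    refine (GD_nn h κ b N).pr_mono fun x => ?_
    exact fin_sub_dom h hκ v b' N (fun y => ker a (Y.sm u + x - y)) fun y => hk _
  have s2 : a ^ n1 (Y.sm u - Y.sm v) * (Y.sv (u ++ b) * ((GD Y g κ b N).pr fun x =>
      Y.sv (v ++ b') * ((GD Y g κ b' N).pr fun y => ker a (Y.sm u + x - (Y.sm v + y))))) ≤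
      Y.sv (u ++ b) * Y.sv (v ++ b') * Fm.en a (GD Y g κ b N) (GD Y g κ b' N) := by
    have e1 : a ^ n1 (Y.sm u - Y.sm v) * (Y.sv (u ++ b) * ((GD Y g κ b N).pr fun x =>
        Y.sv (v ++ b') * ((GD Y g κ b' N).pr fun y => ker a (Y.sm u + x - (Y.sm v + y))))) =
        Y.sv (u ++ b) * Y.sv (v ++ b') * ((GD Y g κ b N).pr fun x => (GD Y g κ b' N).pr fun y =>
          ker a (Y.sm v - Y.sm u) * ker a (Y.sm u + x - (Y.sm v + y))) := by
      have e2 : ((GD Y g κ b N).pr fun x => (GD Y g κ b' N).pr fun y =>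
          ker a (Y.sm v - Y.sm u) * ker a (Y.sm u + x - (Y.sm v + y))) =
          ker a (Y.sm v - Y.sm u) * ((GD Y g κ b N).pr fun x => (GD Y g κ b' N).pr fun y =>
            ker a (Y.sm u + x - (Y.sm v + y))) := by
        rw [← Fm.pr_mul_left]
        exact Fm.pr_congr _ fun x => Fm.pr_mul_left _ _ _
      rw [e2, Fm.pr_mul_left]
      have e3 : a ^ n1 (Y.sm u - Y.sm v) = ker a (Y.sm v - Y.sm u) := by
        rw [n1_sub_comm]
        rfl
      rw [e3]
      ring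
    rw [e1]
    refine mul_le_mul_of_nonneg_left ?_ (mul_nonneg (Y.sv_nonneg _) (Y.sv_nonneg _))
    refine (GD_nn h κ b N).pr_mono fun x => (GD_nn h κ b' N).pr_mono fun y => ?_
    have h1 := ker_mul_le_add ha.le ha1.le (Y.sm v - Y.sm u) (Y.sm u + x - (Y.sm v + y))
    have e4 : Y.sm v - Y.sm u + (Y.sm u + x - (Y.sm v + y)) = x - y := by abel
    rw [e4] at h1
    exact h1
  exact (mul_le_mul_of_nonneg_left s1 (pow_pos ha _).le).trans s2

private theorem fin_sub_sum (h : Cf Y K B g) (hκ : 0 < κ) (u : List S) (m N : ℕ)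
    (hN : u.length + m ≤ N) (f : Zk d → ℝ) (hf : ∀ x, 0 ≤ f x) :
    (Y.E m fun b => (GD Y g κ (u ++ b) N).pr f) ≤ (GD Y g κ u N).pr f := by
  rw [GD_step h κ u m N hN f]
  have h0 : 0 ≤ ∑ i ∈ range m, Y.E i fun w => hh g κ (u ++ w) * f (Y.sm (u ++ w)) :=
    Finset.sum_nonneg fun i _ => Y.E_nonneg' fun w =>
      mul_nonneg (hh_facts h hκ [] (u ++ w)).1 (hf _)
  linarith

private theorem fin_sub_err (h : Cf Y K B g) (hκ : 0 < κ) (ha : 0 < a) (ha1 : a < 1)
    (u v : List S) (m N : ℕ) :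
    (∑ i ∈ range m, Y.E i fun w => hh g κ (v ++ w) *
      (GD Y g κ u N).pr fun x => ker a (Y.sm (v ++ w) - x)) ≤
        m * Real.sqrt (EN Y g κ a N) := by
  refine (Finset.sum_le_sum fun i _ => (one_word h hκ ha ha1 v i (GD Y g κ u N)).trans
    (nr_GD_le h hκ ha ha1 u N)).trans ?_
  rw [Finset.sum_const, Finset.card_range, nsmul_eq_mul]
  exact le_refl _

/-- Sub-conformality: `GD_step` in both arguments (`m` letters `b`, `b'`), then
`hh (u ++ b ++ c) ≤ sv (u ++ b) * hh (b ++ c)`, `N - |u| - m ≤ N - m`, and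
`a ^ n1 (sm u - sm v) * ker a (sm (u ++ x) - sm (v ++ x')) ≤ ker a (sm x - sm x')`
(`ker_mul_le_add` with `sm x - sm x' = (sm (u ++ x) - sm (v ++ x')) + (sm v - sm u)`), error terms
`2 * m * sqrt EN` (`one_word`, `nr_GD_le`; for the second one sum over `b` first:
`Y.E m (fun b => (GD (u ++ b) N).pr f) ≤ (GD u N).pr f` for `f ≥ 0` by `GD_step`). -/
theorem fin_sub (h : Cf Y K B g) (hκ : 0 < κ) (ha : 0 < a) (ha1 : a < 1) (u v : List S)
    (m N : ℕ) (hN : u.length + v.length + m ≤ N) :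
    a ^ n1 (Y.sm u - Y.sm v) * Fm.en a (GD Y g κ u N) (GD Y g κ v N) ≤
      (Y.E m fun b => Y.E m fun b' => Y.sv (u ++ b) * Y.sv (v ++ b') *
        Fm.en a (GD Y g κ b N) (GD Y g κ b' N)) + 2 * m * Real.sqrt (EN Y g κ a N) := by
  have hk : ∀ x : Zk d, 0 ≤ ker a x := ker_nonneg ha.le
  have hnn : ∀ (w : List S) (y : Zk d), 0 ≤ (GD Y g κ w N).pr fun x => ker a (y - x) :=
    fun w y => (GD_nn h κ w N).pr_nonneg fun x => hk _
  have e1 : Fm.en a (GD Y g κ u N) (GD Y g κ v N) =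
      (∑ i ∈ range m, Y.E i fun w => hh g κ (u ++ w) *
        (GD Y g κ v N).pr fun x => ker a (Y.sm (u ++ w) - x)) +
      Y.E m fun b => (GD Y g κ (u ++ b) N).pr fun x => (GD Y g κ v N).pr fun y => ker a (x - y) :=
    GD_step h κ u m N (by omega) (fun x => (GD Y g κ v N).pr fun y => ker a (x - y))
  have e2 : ∀ b : List S, ((GD Y g κ (u ++ b) N).pr fun x =>
      (GD Y g κ v N).pr fun y => ker a (x - y)) =
      (∑ i ∈ range m, Y.E i fun w => hh g κ (v ++ w) *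
        (GD Y g κ (u ++ b) N).pr fun x => ker a (Y.sm (v ++ w) - x)) +
      Y.E m fun b' => Fm.en a (GD Y g κ (u ++ b) N) (GD Y g κ (v ++ b') N) := by
    intro b
    have h1 : ((GD Y g κ (u ++ b) N).pr fun x => (GD Y g κ v N).pr fun y => ker a (x - y)) =
        Fm.en a (GD Y g κ v N) (GD Y g κ (u ++ b) N) := Fm.en_comm _ _
    rw [h1]
    have h2 : Fm.en a (GD Y g κ v N) (GD Y g κ (u ++ b) N) =
        (∑ i ∈ range m, Y.E i fun w => hh g κ (v ++ w) *
          (GD Y g κ (u ++ b) N).pr fun x => ker a (Y.sm (v ++ w) - x)) +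
        Y.E m fun b' => Fm.en a (GD Y g κ (v ++ b') N) (GD Y g κ (u ++ b) N) :=
      GD_step h κ v m N (by omega) (fun x => (GD Y g κ (u ++ b) N).pr fun y => ker a (x - y))
    rw [h2]
    congr 1
    exact Y.E_congr fun b' _ => Fm.en_comm _ _
  have e3 : (Y.E m fun b => ∑ i ∈ range m, Y.E i fun w => hh g κ (v ++ w) *
      (GD Y g κ (u ++ b) N).pr fun x => ker a (Y.sm (v ++ w) - x)) ≤
      ∑ i ∈ range m, Y.E i fun w => hh g κ (v ++ w) *
        (GD Y g κ u N).pr fun x => ker a (Y.sm (v ++ w) - x) := by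
    rw [Y.E_fsum]
    refine Finset.sum_le_sum fun i _ => ?_
    rw [Y.E_comm]
    refine Y.E_mono fun w _ => ?_
    rw [Y.E_mul_left]
    exact mul_le_mul_of_nonneg_left (fin_sub_sum h hκ u m N (by omega) _ fun x => hk _)
      (hh_facts h hκ [] (v ++ w)).1
  have e4 : (Y.E m fun b => (GD Y g κ (u ++ b) N).pr fun x =>
      (GD Y g κ v N).pr fun y => ker a (x - y)) =
      (Y.E m fun b => ∑ i ∈ range m, Y.E i fun w => hh g κ (v ++ w) *
        (GD Y g κ (u ++ b) N).pr fun x => ker a (Y.sm (v ++ w) - x)) +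
      Y.E m fun b => Y.E m fun b' =>
        Fm.en a (GD Y g κ (u ++ b) N) (GD Y g κ (v ++ b') N) := by
    rw [← Y.E_fadd]
    exact Y.E_congr fun b _ => e2 b
  have r1 := fin_sub_err h hκ ha ha1 v u m N
  have r2 := fin_sub_err h hκ ha ha1 u v m N
  have hs : 0 ≤ (m : ℝ) * Real.sqrt (EN Y g κ a N) :=
    mul_nonneg (Nat.cast_nonneg _) (Real.sqrt_nonneg _)
  have tot : Fm.en a (GD Y g κ u N) (GD Y g κ v N) ≤
      (Y.E m fun b => Y.E m fun b' =>
        Fm.en a (GD Y g κ (u ++ b) N) (GD Y g κ (v ++ b') N)) +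
        2 * m * Real.sqrt (EN Y g κ a N) := by
    rw [e1, e4]
    linarith
  have hp0 : 0 ≤ a ^ n1 (Y.sm u - Y.sm v) := (pow_pos ha _).le
  have hp1 : a ^ n1 (Y.sm u - Y.sm v) ≤ 1 := pow_le_one₀ ha.le ha1.le
  have m1 : a ^ n1 (Y.sm u - Y.sm v) * (Y.E m fun b => Y.E m fun b' =>
      Fm.en a (GD Y g κ (u ++ b) N) (GD Y g κ (v ++ b') N)) ≤
      Y.E m fun b => Y.E m fun b' => Y.sv (u ++ b) * Y.sv (v ++ b') *
        Fm.en a (GD Y g κ b N) (GD Y g κ b' N) := by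
    rw [← Y.E_mul_left]
    refine Y.E_mono fun b _ => ?_
    rw [← Y.E_mul_left]
    exact Y.E_mono fun b' _ => fin_sub_main h hκ ha ha1 u v b b' N
  have m2 : a ^ n1 (Y.sm u - Y.sm v) * (2 * m * Real.sqrt (EN Y g κ a N)) ≤
      2 * m * Real.sqrt (EN Y g κ a N) := mul_le_of_le_one_left (by linarith) hp1
  calc a ^ n1 (Y.sm u - Y.sm v) * Fm.en a (GD Y g κ u N) (GD Y g κ v N)
      ≤ a ^ n1 (Y.sm u - Y.sm v) * ((Y.E m fun b => Y.E m fun b' =>
        Fm.en a (GD Y g κ (u ++ b) N) (GD Y g κ (v ++ b') N)) +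
        2 * m * Real.sqrt (EN Y g κ a N)) := mul_le_mul_of_nonneg_left tot hp0
    _ ≤ _ := by
        rw [mul_add]
        exact add_le_add m1 m2
-- END fin_sub

end Pool.Agent.Taw
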