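import Pool.Agent.Taw.Mar

/-!
# The bulk law (section 4, (4h) - (4j) of the page)
-/

set_option autoImplicit false

namespace Pool.Agent.Taw

open Finset Filter Topology Pool.Agent.Bub4 Pool.Agent.SawM2

section gen

variable {S V : Type} [Fintype S] [AddCommGroup V] {Y : Sys S V} {K B : ℝ} {g ρ : List S → ℝ}

-- BEGIN exists_rho
private noncomputable def exists_rho_e (Y : Sys S V) (g : List S → ℝ) (b : List S) (i : ℕ) : ℝ :=
  Y.E i fun x => g (x ++ b)

private noncomputable def exists_rho_f (Y : Sys S V) (g : List S → ℝ) (b : List S) (N : ℕ) : ℝ :=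
  (N : ℝ)⁻¹ * ∑ i ∈ range N, exists_rho_e Y g b i

private theorem exists_rho_avg (e : ℕ → ℝ) (c C : ℝ) (hC : ∀ i, e i ≤ C) (i0 : ℕ)
    (hc : ∀ i ≥ i0, e i ≤ c) (N : ℕ) (hN : 1 ≤ N) :
    (N : ℝ)⁻¹ * ∑ i ∈ range N, e i ≤ c + (i0 * (|C| + |c|)) * (N : ℝ)⁻¹ := by
  have hN0 : (0 : ℝ) < N := by exact_mod_cast hN
  have hD : 0 ≤ |C| + |c| := by positivity
  have h1 : ∑ i ∈ range N, e i ≤ ∑ i ∈ range N, (c + if i < i0 then |C| + |c| else 0) := by
    refine sum_le_sum fun i _ => ?_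
    split_ifs with hi
    · have h2 := hC i
      have h3 := le_abs_self C
      have h4 := neg_abs_le c
      linarith
    · rw [add_zero]
      exact hc i (not_lt.1 hi)
  have h2 : ∑ i ∈ range N, (c + if i < i0 then |C| + |c| else 0) ≤ N * c + i0 * (|C| + |c|) := by
    rw [sum_add_distrib, sum_const, card_range, nsmul_eq_mul]
    refine add_le_add le_rfl ?_
    rw [← sum_filter, sum_const, nsmul_eq_mul]
    refine mul_le_mul_of_nonneg_right ?_ hD
    have h3 : (range N).filter (fun i => i < i0) ⊆ range i0 := by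
      intro i hi
      exact mem_range.2 (mem_filter.1 hi).2
    have h4 := card_le_card h3
    rw [card_range] at h4
    exact_mod_cast h4
  calc (N : ℝ)⁻¹ * ∑ i ∈ range N, e i ≤ (N : ℝ)⁻¹ * (N * c + i0 * (|C| + |c|)) :=
        mul_le_mul_of_nonneg_left (h1.trans h2) (inv_nonneg.2 hN0.le)
    _ = c + (i0 * (|C| + |c|)) * (N : ℝ)⁻¹ := by
        rw [mul_add, ← mul_assoc, inv_mul_cancel₀ hN0.ne', one_mul, mul_comm (N : ℝ)⁻¹]

private theorem exists_rho_E (U : Filter ℕ) (n : ℕ) (F : ℕ → List S → ℝ) (F0 : List S → ℝ)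
    (h : ∀ w, Tendsto (fun N => F N w) U (𝓝 (F0 w))) :
    Tendsto (fun N => Y.E n (F N)) U (𝓝 (Y.E n F0)) := by
  rw [Y.E_eq]
  have h1 : (fun N => Y.E n (F N)) = fun N => ∑ w : Fin n → S, Y.z ^ n * F N (List.ofFn w) := by
    funext N
    exact Y.E_eq n (F N)
  rw [h1]
  exact tendsto_finset_sum _ fun w _ => (h _).const_mul _

private theorem exists_rho_bar (Y : Sys S V) (u v : List S) :
    bar Y (bar Y u ++ v) = bar Y v ++ u := by
  unfold bar
  rw [List.map_append, List.reverse_append, List.map_reverse, List.reverse_reverse, List.map_map]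
  congr 1
  have h1 : Y.neg ∘ Y.neg = id := funext fun s => Y.neg_neg s
  rw [h1, List.map_id]

/-- (4h). `ρ b = lim_U (1/N) ∑ i < N, Y.E i (fun x => g (x ++ b))`, `U = hyperfilter ℕ` (values in
`[0, K]` by `E_shift`). `right`: `h.right`. `left`: `Y.E n (v ↦ Y.E i (x ↦ g (x ++ v ++ u))) =
Y.E (i + n) (x ↦ g (x ++ u))`, a shift changes the averages by `≤ 2 n K / N`. `two`: with
`b = bar u ++ v`: `Y.E i (g (x ++ b)) ≤ fx Y (bar Y b) i * g b` (`E_left`, `g_append_le`),
`bar b = bar v ++ u`, `h.up`: eventually `≤ (B * g (bar v ++ u) + ε) * g (bar u ++ v) ≤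
(B * g u + ε) * g v` (`h.drop`). `ces`: `Y.E (i + m) (g w * φ (wn i m w)) =
Y.E m (b ↦ Y.E i (x ↦ g (x ++ b)) * φ b)`. -/
theorem exists_rho (h : Cf Y K B g) : ∃ ρ : List S → ℝ, Rh Y K B g ρ := by
  have hU : (hyperfilter ℕ : Filter ℕ) ≤ atTop := Nat.hyperfilter_le_atTop
  have hK : 0 ≤ K := le_trans zero_le_one (one_le_K h)
  have hB : 0 ≤ B := le_trans zero_le_one (B_ge h)
  have he0 : ∀ b i, 0 ≤ exists_rho_e Y g b i := fun b i => Y.E_nonneg' fun x => h.nonneg _
  have he1 : ∀ b i, exists_rho_e Y g b i ≤ K * g b := fun b i => (E_shift h i b).2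
  have hf0 : ∀ b N, 0 ≤ exists_rho_f Y g b N := fun b N =>
    mul_nonneg (inv_nonneg.2 (Nat.cast_nonneg N)) (sum_nonneg fun i _ => he0 b i)
  have hf1 : ∀ b N, exists_rho_f Y g b N ≤ K * g b := by
    intro b N
    rcases Nat.eq_zero_or_pos N with hN | hN
    · subst hN
      unfold exists_rho_f
      rw [range_zero, sum_empty, mul_zero]
      exact mul_nonneg hK (h.nonneg b)
    · have hN0 : (0 : ℝ) < N := by exact_mod_cast hN
      unfold exists_rho_f
      rw [inv_mul_le_iff₀ hN0]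
      calc ∑ i ∈ range N, exists_rho_e Y g b i ≤ ∑ i ∈ range N, K * g b :=
            sum_le_sum fun i _ => he1 b i
        _ = N * (K * g b) := by rw [sum_const, card_range, nsmul_eq_mul]
  -- the compactness argument (as in `ulim`)
  have hlim : ∀ b, ∃ L : ℝ,
      Tendsto (fun N => exists_rho_f Y g b N) (hyperfilter ℕ : Filter ℕ) (𝓝 L) := by
    intro b
    have h1 : Set.Icc (0 : ℝ) (K * g b) ∈
        ((hyperfilter ℕ).map fun N => exists_rho_f Y g b N : Ultrafilter ℝ) := by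
      rw [Ultrafilter.mem_map]
      exact Filter.univ_mem' fun N => ⟨hf0 b N, hf1 b N⟩
    obtain ⟨L, _, hL⟩ := (isCompact_Icc (a := (0 : ℝ)) (b := K * g b)).ultrafilter_le_nhds'
      ((hyperfilter ℕ).map fun N => exists_rho_f Y g b N) h1
    exact ⟨L, hL⟩
  choose ρ hρ using hlim
  have hinv : ∀ D : ℝ, Tendsto (fun N : ℕ => D * (N : ℝ)⁻¹) (hyperfilter ℕ : Filter ℕ) (𝓝 0) := by
    intro D
    have h1 : Tendsto (fun N : ℕ => ((N : ℝ))⁻¹) atTop (𝓝 0) :=
      tendsto_inv_atTop_zero.comp tendsto_natCast_atTop_atTop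
    have h2 := (h1.const_mul D).mono_left hU
    rwa [mul_zero] at h2
  have hev : ∀ n : ℕ, ∀ᶠ N in (hyperfilter ℕ : Filter ℕ), n ≤ N := fun n =>
    (eventually_ge_atTop n).filter_mono hU
  refine ⟨ρ, ?_, ?_, ?_, ?_, ?_, ?_, ?_⟩
  · exact fun u => ge_of_tendsto (hρ u) (Eventually.of_forall fun N => hf0 u N)
  · exact fun u => le_of_tendsto (hρ u) (Eventually.of_forall fun N => hf1 u N)
  · have h1 : Tendsto (fun N => exists_rho_f Y g [] N) (hyperfilter ℕ : Filter ℕ) (𝓝 1) := by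
      refine tendsto_const_nhds.congr' ((hev 1).mono fun N hN => ?_)
      have hN0 : (N : ℝ) ≠ 0 := by
        have : N ≠ 0 := by omega
        exact_mod_cast this
      have h2 : ∀ i, exists_rho_e Y g [] i = 1 := by
        intro i
        unfold exists_rho_e
        rw [← E_g h i]
        exact Y.E_congr fun x _ => by rw [List.append_nil]
      show (1 : ℝ) = (N : ℝ)⁻¹ * ∑ i ∈ range N, exists_rho_e Y g [] i
      rw [sum_congr rfl fun i _ => h2 i, sum_const, card_range, nsmul_eq_mul, mul_one,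
        inv_mul_cancel₀ hN0]
    exact tendsto_nhds_unique (hρ []) h1
  · intro u n
    have h1 : ∀ N, Y.E n (fun v => exists_rho_f Y g (u ++ v) N) = exists_rho_f Y g u N := by
      intro N
      unfold exists_rho_f exists_rho_e
      rw [Y.E_mul_left, Y.E_fsum]
      congr 1
      refine sum_congr rfl fun i _ => ?_
      rw [Y.E_comm]
      refine Y.E_congr fun x _ => ?_
      rw [← h.right (x ++ u) n]
      exact Y.E_congr fun v _ => by rw [List.append_assoc]
    have h2 := exists_rho_E (Y := Y) (hyperfilter ℕ : Filter ℕ) n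
      (fun N v => exists_rho_f Y g (u ++ v) N) (fun v => ρ (u ++ v)) fun v => hρ (u ++ v)
    exact tendsto_nhds_unique h2 ((hρ u).congr fun N => (h1 N).symm)
  · intro u n
    have h1 : ∀ N, Y.E n (fun v => exists_rho_f Y g (v ++ u) N) =
        (N : ℝ)⁻¹ * ∑ i ∈ range N, exists_rho_e Y g u (n + i) := by
      intro N
      unfold exists_rho_f exists_rho_e
      rw [Y.E_mul_left, Y.E_fsum]
      congr 1
      refine sum_congr rfl fun i _ => ?_
      rw [Y.E_comm, add_comm n i, Y.E_add]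
      refine Y.E_congr fun x _ => Y.E_congr fun v _ => ?_
      rw [List.append_assoc]
    have h2 := exists_rho_E (Y := Y) (hyperfilter ℕ : Filter ℕ) n
      (fun N v => exists_rho_f Y g (v ++ u) N) (fun v => ρ (v ++ u)) fun v => hρ (v ++ u)
    have h3 : Tendsto (fun N => Y.E n (fun v => exists_rho_f Y g (v ++ u) N) -
        exists_rho_f Y g u N) (hyperfilter ℕ : Filter ℕ) (𝓝 0) := by
      refine squeeze_zero_norm (fun N => ?_) (hinv (n * (K * g u)))
      rw [h1 N]
      unfold exists_rho_f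
      rw [← mul_sub, norm_mul, Real.norm_eq_abs, Real.norm_eq_abs,
        abs_of_nonneg (inv_nonneg.2 (Nat.cast_nonneg (α := ℝ) N)), mul_comm]
      refine mul_le_mul_of_nonneg_right ?_ (inv_nonneg.2 (Nat.cast_nonneg (α := ℝ) N))
      have h4 := sum_range_add (fun i => exists_rho_e Y g u i) n N
      have h5 := sum_range_add (fun i => exists_rho_e Y g u i) N n
      rw [add_comm N n] at h5
      have h6 : ∀ f : ℕ → ℝ, (∀ i, 0 ≤ f i) → (∀ i, f i ≤ K * g u) →
          0 ≤ ∑ i ∈ range n, f i ∧ ∑ i ∈ range n, f i ≤ n * (K * g u) := by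
        intro f hf hf'
        refine ⟨sum_nonneg fun i _ => hf i, ?_⟩
        calc ∑ i ∈ range n, f i ≤ ∑ i ∈ range n, K * g u := sum_le_sum fun i _ => hf' i
          _ = n * (K * g u) := by rw [sum_const, card_range, nsmul_eq_mul]
      have h7 := h6 (fun i => exists_rho_e Y g u i) (he0 u) (he1 u)
      have h8 := h6 (fun i => exists_rho_e Y g u (N + i)) (fun i => he0 u _) fun i => he1 u _
      rw [abs_le]
      constructor <;> linarith [h7.1, h7.2, h8.1, h8.2]
    have h4 := tendsto_nhds_unique h3 (h2.sub (hρ u))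
    linarith
  · intro u v
    refine le_of_forall_pos_le_add fun ε hε => ?_
    -- eventually `e i ≤ (B g u + ε) g v`
    obtain ⟨i0, hi0⟩ := eventually_atTop.1 (h.up (bar Y v ++ u) ε hε)
    have hc : ∀ i ≥ i0, exists_rho_e Y g (bar Y u ++ v) i ≤ (B * g u + ε) * g v := by
      intro i hi
      have h1 : exists_rho_e Y g (bar Y u ++ v) i ≤
          fx Y (bar Y (bar Y u ++ v)) i * g (bar Y u ++ v) := by
        unfold exists_rho_e
        rw [← (E_left Y (bar Y u ++ v) i).2, ← Y.E_mul_right]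
        exact Y.E_mono fun x _ => g_append_le h x _
      have h2 := hi0 i hi
      rw [exists_rho_bar] at h1
      have h3 : g (bar Y v ++ u) ≤ g u := h.drop _ _
      have h4 : g (bar Y u ++ v) ≤ g v := h.drop _ _
      have h5 : fx Y (bar Y v ++ u) i ≤ B * g u + ε := by nlinarith
      have h6 : 0 ≤ B * g u + ε := by
        have := h.nonneg u
        positivity
      exact h1.trans (mul_le_mul h5 h4 (h.nonneg _) h6)
    have h1 : ∀ᶠ N in (hyperfilter ℕ : Filter ℕ), exists_rho_f Y g (bar Y u ++ v) N ≤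
        (B * g u + ε) * g v + (i0 * (|K * g (bar Y u ++ v)| + |(B * g u + ε) * g v|)) *
          (N : ℝ)⁻¹ := (hev 1).mono fun N hN =>
      exists_rho_avg _ _ _ (he1 _) i0 hc N hN
    have h2 := (tendsto_const_nhds (x := (B * g u + ε) * g v)
      (f := (hyperfilter ℕ : Filter ℕ))).add
        (hinv (i0 * (|K * g (bar Y u ++ v)| + |(B * g u + ε) * g v|)))
    rw [add_zero] at h2
    have h3 := le_of_tendsto_of_tendsto (hρ _) h2 h1
    have h4 : ε * g v ≤ ε := by
      have := g_le_one h v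
      nlinarith
    calc ρ (bar Y u ++ v) ≤ (B * g u + ε) * g v := h3
      _ = B * g u * g v + ε * g v := by ring
      _ ≤ B * g u * g v + ε := by linarith
  · intro m φ c hc
    have h1 : ∀ N : ℕ, (N : ℝ)⁻¹ * ∑ i ∈ range N, Y.E (i + m) (fun w => g w * φ (wn i m w)) =
        Y.E m fun b => exists_rho_f Y g b N * φ b := by
      intro N
      unfold exists_rho_f
      have h2 : ∀ b, (N : ℝ)⁻¹ * (∑ i ∈ range N, exists_rho_e Y g b i) * φ b =
          (N : ℝ)⁻¹ * ∑ i ∈ range N, exists_rho_e Y g b i * φ b := by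
        intro b
        rw [mul_assoc, sum_mul]
      rw [Y.E_congr fun b _ => h2 b, Y.E_mul_left, Y.E_fsum]
      congr 1
      refine sum_congr rfl fun i _ => ?_
      rw [Y.E_add, Y.E_comm]
      refine Y.E_congr fun b hb => ?_
      unfold exists_rho_e
      rw [← Y.E_mul_right]
      refine Y.E_congr fun x hx => ?_
      unfold wn
      rw [← hx, List.drop_left, ← hb, List.take_length]
    have h2 := exists_rho_E (Y := Y) (hyperfilter ℕ : Filter ℕ) m
      (fun N b => exists_rho_f Y g b N * φ b) (fun b => ρ b * φ b) fun b => (hρ b).mul_const _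
    refine ge_of_tendsto h2 ((hc.filter_mono hU).mono fun N hN => ?_)
    rw [← h1 N]
    exact hN
-- END exists_rho

-- BEGIN cnt_bar
private theorem cnt_bar_bar (Y : Sys S V) (w : List S) : bar Y (bar Y w) = w := by
  unfold bar
  rw [List.map_reverse, List.reverse_reverse, List.map_map]
  conv_rhs => rw [← List.map_id w]
  exact List.map_congr_left fun s _ => Y.neg_neg s

private theorem cnt_bar_len (Y : Sys S V) (w : List S) : (bar Y w).length = w.length := by
  simp [bar]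

private theorem cnt_bar_app (Y : Sys S V) (u w : List S) :
    bar Y (u ++ w) = bar Y w ++ bar Y u := by
  simp [bar]

private theorem cnt_bar_aux (Y : Sys S V) {γ w : List S} {i : ℕ} (hi : i ≤ w.length)
    (h : γ <+: w.drop i) : i + γ.length ≤ w.length ∧
      bar Y γ <+: (bar Y w).drop (w.length - i - γ.length) := by
  obtain ⟨t, ht⟩ := h
  have h1 : w = w.take i ++ (γ ++ t) := by rw [ht, List.take_append_drop]
  have h2 : (w.take i).length = i := by rw [List.length_take]; omega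
  have h3 : w.length = i + (γ.length + t.length) := by
    have h4 := congrArg List.length h1
    rw [List.length_append, List.length_append, h2] at h4
    exact h4
  refine ⟨by omega, ?_⟩
  have h5 : bar Y w = bar Y t ++ (bar Y γ ++ bar Y (w.take i)) := by
    conv_lhs => rw [h1]
    rw [cnt_bar_app, cnt_bar_app, List.append_assoc]
  have h6 : w.length - i - γ.length = (bar Y t).length := by
    rw [cnt_bar_len]; omega
  rw [h5, h6, List.drop_left]
  exact List.prefix_append _ _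

/-- occurrences of the reversed pattern: `γ <+: w.drop i` iff `bar γ` occurs in `bar w` at the
place `|w| - i - |γ|`. -/
theorem cnt_bar (Y : Sys S V) (γ w : List S) : cnt (bar Y γ) w = cnt γ (bar Y w) := by
  classical
  unfold cnt
  refine Finset.card_nbij' (fun i => w.length - i - γ.length) (fun i => w.length - i - γ.length)
    ?_ ?_ ?_ ?_
  · intro i hi
    rw [Finset.mem_coe, Finset.mem_filter, Finset.mem_range] at hi
    have h1 := cnt_bar_aux Y (by omega) hi.2
    rw [cnt_bar_bar, cnt_bar_len] at h1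
    refine Finset.mem_coe.2 (Finset.mem_filter.2 ⟨Finset.mem_range.2 ?_, h1.2⟩)
    rw [cnt_bar_len]
    show w.length - i - γ.length < w.length + 1
    omega
  · intro i hi
    rw [Finset.mem_coe, Finset.mem_filter, Finset.mem_range, cnt_bar_len] at hi
    have h1 := cnt_bar_aux Y (w := bar Y w) (by rw [cnt_bar_len]; omega) hi.2
    rw [cnt_bar_bar, cnt_bar_len] at h1
    refine Finset.mem_coe.2 (Finset.mem_filter.2 ⟨Finset.mem_range.2 ?_, h1.2⟩)
    show w.length - i - γ.length < w.length + 1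
    omega
  · intro i hi
    rw [Finset.mem_coe, Finset.mem_filter, Finset.mem_range] at hi
    have h1 := (cnt_bar_aux Y (by omega) hi.2).1
    rw [cnt_bar_len] at h1
    show w.length - (w.length - i - γ.length) - γ.length = i
    omega
  · intro i hi
    rw [Finset.mem_coe, Finset.mem_filter, Finset.mem_range, cnt_bar_len] at hi
    have h1 := (cnt_bar_aux Y (w := bar Y w) (by rw [cnt_bar_len]; omega) hi.2).1
    rw [cnt_bar_len] at h1
    show w.length - (w.length - i - γ.length) - γ.length = i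
    omega
-- END cnt_bar

-- BEGIN cnt_Fq
private theorem cnt_Fq_sum (w u : List S) {n : ℕ} (hu : n + w.length ≤ u.length) :
    (cnt w (u.take n) : ℝ) = ∑ i ∈ range (n + 1),
      ind ((u.drop i).take w.length = w ∧ w.length ≤ n - i) := by
  classical
  have h0 : (u.take n).length = n := by rw [List.length_take]; omega
  unfold cnt
  rw [h0, Finset.card_filter]
  push_cast
  refine Finset.sum_congr rfl fun i hi => ?_
  rw [Finset.mem_range] at hi
  have h1 : w <+: (u.take n).drop i ↔ ((u.drop i).take w.length = w ∧ w.length ≤ n - i) := by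
    rw [List.drop_take, List.prefix_take_iff, List.prefix_iff_eq_take]
    constructor
    · rintro ⟨h2, h3⟩
      exact ⟨h2.symm, h3⟩
    · rintro ⟨h2, h3⟩
      exact ⟨h2.symm, h3⟩
  by_cases h2 : w <+: (u.take n).drop i
  · rw [ind_of (h1.1 h2), if_pos h2]
  · rw [ind_not fun h3 => h2 (h1.2 h3), if_neg h2]

private theorem cnt_Fq_card (l n : ℕ) : ∑ i ∈ range n, ind (n - i < l) ≤ (l : ℝ) := by
  classical
  have h1 : ∑ i ∈ range n, ind (n - i < l) = (((range n).filter fun i => n - i < l).card : ℝ) := by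
    rw [Finset.card_filter]
    push_cast
    refine Finset.sum_congr rfl fun i _ => ?_
    by_cases h2 : n - i < l
    · rw [ind_of h2, if_pos h2]
    · rw [ind_not h2, if_neg h2]
  rw [h1]
  have h2 : ((range n).filter fun i => n - i < l).card ≤ (range l).card := by
    refine Finset.card_le_card_of_injOn (fun i => n - i) ?_ ?_
    · intro i hi
      rw [Finset.mem_coe, Finset.mem_filter] at hi
      rw [Finset.mem_coe, Finset.mem_range]
      exact hi.2
    · intro i hi j hj hij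
      rw [Finset.mem_coe, Finset.mem_filter, Finset.mem_range] at hi hj
      have h3 : n - i = n - j := hij
      omega
  rw [Finset.card_range] at h2
  exact_mod_cast h2

/-- both count occurrences of `w`, at the places `≤ n - |w|` and `< n` -/
theorem cnt_Fq (w u : List S) (n : ℕ) (hn : 1 ≤ n) (hu : n + w.length ≤ u.length) :
    |(cnt w (u.take n) : ℝ) - n * Fq w n u| ≤ w.length + 1 := by
  have h0 : (n : ℝ) ≠ 0 := by
    have : n ≠ 0 := by omega
    exact_mod_cast this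
  have h1 : (n : ℝ) * Fq w n u = ∑ i ∈ range n, ind ((u.drop i).take w.length = w) := by
    unfold Fq
    rw [← mul_assoc, mul_inv_cancel₀ h0, one_mul]
  rw [cnt_Fq_sum w u hu, h1, Finset.sum_range_succ, abs_le]
  have h2 : ∑ i ∈ range n, ind ((u.drop i).take w.length = w ∧ w.length ≤ n - i) ≤
      ∑ i ∈ range n, ind ((u.drop i).take w.length = w) :=
    Finset.sum_le_sum fun i _ => ind_mono fun h => h.1
  have h3 : ∑ i ∈ range n, ind ((u.drop i).take w.length = w) ≤
      ∑ i ∈ range n, (ind ((u.drop i).take w.length = w ∧ w.length ≤ n - i) +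
        ind (n - i < w.length)) := by
    refine Finset.sum_le_sum fun i _ => ?_
    refine le_trans (ind_mono fun h => ?_) (ind_or_le _ _)
    rcases lt_or_ge (n - i) w.length with h4 | h4
    · exact Or.inr h4
    · exact Or.inl ⟨h, h4⟩
  rw [Finset.sum_add_distrib] at h3
  have h4 := cnt_Fq_card w.length n
  have h5 := ind_nonneg ((u.drop n).take w.length = w ∧ w.length ≤ n - n)
  have h6 := ind_le_one ((u.drop n).take w.length = w ∧ w.length ≤ n - n)
  have h7 : (0 : ℝ) ≤ w.length := Nat.cast_nonneg _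
  constructor <;> linarith
-- END cnt_Fq

-- BEGIN Fq_two
/-- `Fq w (2 * n) b = (Fq w n b + Fq w n (b.drop n)) / 2` -/
theorem Fq_two (w b : List S) (n : ℕ) :
    Fq w (2 * n) b = (Fq w n b + Fq w n (b.drop n)) / 2 := by
  unfold Fq
  have h1 : ∑ i ∈ range (2 * n), ind ((b.drop i).take w.length = w) =
      ∑ i ∈ range n, ind ((b.drop i).take w.length = w) +
        ∑ i ∈ range n, ind (((b.drop n).drop i).take w.length = w) := by
    rw [two_mul, sum_range_add]
    congr 1
    refine sum_congr rfl fun i _ => ?_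
    rw [List.drop_drop]
  rw [h1, Nat.cast_mul, Nat.cast_ofNat, mul_inv]
  ring
-- END Fq_two

-- BEGIN Fq_avg
private theorem Fq_avg_sum (k p : ℕ) (u : List S) :
    ∑ w : Fin k → S, ind ((u.drop p).take (List.ofFn w).length = List.ofFn w) ≤ 1 := by
  classical
  by_cases h : ∃ w : Fin k → S, (u.drop p).take (List.ofFn w).length = List.ofFn w
  · obtain ⟨w0, hw0⟩ := h
    rw [Finset.sum_eq_single w0]
    · exact ind_le_one _
    · intro w _ hw
      refine ind_not fun h' => hw ?_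
      rw [List.length_ofFn] at hw0 h'
      exact List.ofFn_injective (h'.symm.trans hw0)
    · intro h'
      exact absurd (Finset.mem_univ _) h'
  · push Not at h
    rw [Finset.sum_eq_zero fun w _ => ind_not (h w)]
    norm_num

/-- The frequency at the first `N` places is nearly the average of the frequencies at the places
`i, …, i + n - 1`, `i < N`: every place `p` with `n - 1 ≤ p ≤ N - 1` is counted `n` times, so the
`ℓ¹` difference over all `w` is at most `2 n / N`. -/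
theorem Fq_avg (k : ℕ) {n N : ℕ} (hn : 1 ≤ n) (hN : 1 ≤ N) (u : List S) :
    ∑ w : Fin k → S, |Fq (List.ofFn w) N u -
      (N : ℝ)⁻¹ * ∑ i ∈ range N, Fq (List.ofFn w) n (u.drop i)| ≤ 2 * n / N := by
  set a : (Fin k → S) → ℕ → ℝ := fun w p =>
    ind ((u.drop p).take (List.ofFn w).length = List.ofFn w) with ha
  have ha0 : ∀ w p, 0 ≤ a w p := fun w p => ind_nonneg _
  have ha1 : ∀ p, ∑ w, a w p ≤ 1 := fun p => Fq_avg_sum k p u
  have hn0 : (0 : ℝ) < n := by exact_mod_cast hn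
  have hN0 : (0 : ℝ) < N := by exact_mod_cast hN
  have hdiff : ∀ w j, ∑ p ∈ range N, a w p - ∑ i ∈ range N, a w (i + j) =
      ∑ p ∈ range j, a w p - ∑ p ∈ range j, a w (N + p) := by
    intro w j
    have e1 := Finset.sum_range_add (fun p => a w p) N j
    have e2 := Finset.sum_range_add (fun p => a w p) j N
    have e3 : ∑ i ∈ range N, a w (i + j) = ∑ i ∈ range N, a w (j + i) :=
      Finset.sum_congr rfl fun i _ => by rw [Nat.add_comm]
    rw [add_comm j N] at e2
    rw [e3]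
    linarith
  have hkey : ∀ w : Fin k → S, |Fq (List.ofFn w) N u -
      (N : ℝ)⁻¹ * ∑ i ∈ range N, Fq (List.ofFn w) n (u.drop i)| ≤
      (N : ℝ)⁻¹ * ((n : ℝ)⁻¹ * ∑ j ∈ range n,
        (∑ p ∈ range j, a w p + ∑ p ∈ range j, a w (N + p))) := by
    intro w
    have e1 : Fq (List.ofFn w) N u = (N : ℝ)⁻¹ * ((n : ℝ)⁻¹ * ∑ j ∈ range n,
        ∑ p ∈ range N, a w p) := by
      rw [Finset.sum_const, Finset.card_range, nsmul_eq_mul]
      unfold Fq
      rw [← mul_assoc (n : ℝ)⁻¹, inv_mul_cancel₀ hn0.ne', one_mul]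
    have e2 : (N : ℝ)⁻¹ * ∑ i ∈ range N, Fq (List.ofFn w) n (u.drop i) =
        (N : ℝ)⁻¹ * ((n : ℝ)⁻¹ * ∑ j ∈ range n, ∑ i ∈ range N, a w (i + j)) := by
      congr 1
      unfold Fq
      rw [← Finset.mul_sum, Finset.sum_comm]
      congr 1
      refine Finset.sum_congr rfl fun j _ => Finset.sum_congr rfl fun i _ => ?_
      rw [ha]
      simp only [List.drop_drop]
    rw [e1, e2, ← mul_sub, ← mul_sub, ← Finset.sum_sub_distrib, abs_mul, abs_mul,
      abs_of_pos (inv_pos.2 hN0), abs_of_pos (inv_pos.2 hn0)]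
    refine mul_le_mul_of_nonneg_left (mul_le_mul_of_nonneg_left ?_ (inv_pos.2 hn0).le)
      (inv_pos.2 hN0).le
    refine (Finset.abs_sum_le_sum_abs _ _).trans (Finset.sum_le_sum fun j _ => ?_)
    rw [hdiff w j]
    have h1 : 0 ≤ ∑ p ∈ range j, a w p := Finset.sum_nonneg fun p _ => ha0 w p
    have h2 : 0 ≤ ∑ p ∈ range j, a w (N + p) := Finset.sum_nonneg fun p _ => ha0 w _
    rw [abs_le]
    constructor <;> linarith
  refine (Finset.sum_le_sum fun w _ => hkey w).trans ?_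
  rw [← Finset.mul_sum, ← Finset.mul_sum, Finset.sum_comm]
  have h3 : ∑ j ∈ range n, ∑ w : Fin k → S,
      (∑ p ∈ range j, a w p + ∑ p ∈ range j, a w (N + p)) ≤ ∑ j ∈ range n, 2 * (n : ℝ) := by
    refine Finset.sum_le_sum fun j hj => ?_
    rw [Finset.sum_add_distrib, Finset.sum_comm, Finset.sum_comm (s := Finset.univ)
      (t := range j) (f := fun w p => a w (N + p))]
    have h4 : ∑ p ∈ range j, ∑ w, a w p ≤ j := by
      refine (Finset.sum_le_sum fun p _ => ha1 p).trans (le_of_eq ?_)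
      simp
    have h5 : ∑ p ∈ range j, ∑ w, a w (N + p) ≤ j := by
      refine (Finset.sum_le_sum fun p _ => ha1 (N + p)).trans (le_of_eq ?_)
      simp
    have h6 : (j : ℝ) ≤ n := by exact_mod_cast (Finset.mem_range.1 hj).le
    linarith
  rw [Finset.sum_const, Finset.card_range, nsmul_eq_mul] at h3
  calc (N : ℝ)⁻¹ * ((n : ℝ)⁻¹ * ∑ j ∈ range n, ∑ w : Fin k → S,
        (∑ p ∈ range j, a w p + ∑ p ∈ range j, a w (N + p))) ≤
        (N : ℝ)⁻¹ * ((n : ℝ)⁻¹ * (n * (2 * n))) := by gcongr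
    _ = 2 * n / N := by field_simp
-- END Fq_avg

/-- second moment of the frequency under `ρ` -/
noncomputable def ph2 (Y : Sys S V) (ρ : List S → ℝ) (w : List S) (n : ℕ) : ℝ :=
  Y.E (n + w.length) fun b => ρ b * Fq w n b ^ 2

-- BEGIN par_id
private theorem par_id_mid (hρ : Rh Y K B g ρ) (i p l : ℕ) (φ : List S → ℝ) :
    (Y.E (i + p + l) fun b => ρ b * φ ((b.drop i).take p)) = Y.E p fun b => ρ b * φ b := by
  rw [Y.E_add, Y.E_add]
  have h1 : (Y.E i fun u => Y.E p fun v => Y.E l fun x => ρ (u ++ v ++ x) * φ (((u ++ v ++ x).drop i).take p)) =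
      Y.E i fun u => Y.E p fun v => ρ (u ++ v) * φ v := by
    refine Y.E_congr fun u hu => Y.E_congr fun v hv => ?_
    rw [← hρ.right (u ++ v) l, ← Y.E_mul_right]
    refine Y.E_congr fun x _ => ?_
    have h2 : ((u ++ v ++ x).drop i).take p = v := by
      rw [List.append_assoc, ← hu, List.drop_left, ← hv, List.take_left]
    rw [h2]
  rw [h1, Y.E_comm]
  refine Y.E_congr fun v _ => ?_
  rw [Y.E_mul_right, hρ.left]

omit [Fintype S] in
private theorem par_id_take (w : List S) (n p : ℕ) (hp : n + w.length ≤ p) (c : List S) :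
    Fq w n (c.take p) = Fq w n c := by
  unfold Fq
  congr 1
  refine Finset.sum_congr rfl fun i hi => ?_
  have hi' := Finset.mem_range.1 hi
  rw [List.drop_take, List.take_take, min_eq_left (by omega)]

/-- (4i). `(A - B)² = 2 A² + 2 B² - 4 ((A + B) / 2)²`, `Fq_two`, `hρ.right`, `hρ.left`: the words
`b.take (n + |w|)` and `(b.drop n)` have the law `ρ`. -/
theorem par_id (hρ : Rh Y K B g ρ) (w : List S) (n : ℕ) :
    (Y.E (2 * n + w.length) fun b => ρ b * (Fq w n b - Fq w n (b.drop n)) ^ 2) =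
      4 * (ph2 Y ρ w n - ph2 Y ρ w (2 * n)) := by
  have h1 : (Y.E (2 * n + w.length) fun b => ρ b * Fq w n b ^ 2) = ph2 Y ρ w n := by
    have h2 := par_id_mid hρ 0 (n + w.length) n (fun b => Fq w n b ^ 2)
    simp only [List.drop_zero, par_id_take w n _ le_rfl] at h2
    rw [show 2 * n + w.length = 0 + (n + w.length) + n by ring]
    exact h2
  have h3 : (Y.E (2 * n + w.length) fun b => ρ b * Fq w n (b.drop n) ^ 2) = ph2 Y ρ w n := by
    have h2 := par_id_mid hρ n (n + w.length) 0 (fun b => Fq w n b ^ 2)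
    simp only [par_id_take w n _ le_rfl] at h2
    rw [show 2 * n + w.length = n + (n + w.length) + 0 by ring]
    exact h2
  have h4 : (Y.E (2 * n + w.length) fun b => ρ b * (Fq w n b - Fq w n (b.drop n)) ^ 2) =
      Y.E (2 * n + w.length) fun b => (2 * (ρ b * Fq w n b ^ 2) + 2 * (ρ b * Fq w n (b.drop n) ^ 2)) -
        4 * (ρ b * Fq w (2 * n) b ^ 2) := by
    refine Y.E_congr fun b _ => ?_
    rw [Fq_two]
    ring
  rw [h4, Y.E_fsub, Y.E_fadd, Y.E_mul_left, Y.E_mul_left, Y.E_mul_left, h1, h3]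
  unfold ph2
  ring
-- END par_id

-- BEGIN ph2_le
omit [Fintype S] in
private theorem ph2_le_Fq (w : List S) (n : ℕ) (u : List S) : 0 ≤ Fq w n u ∧ Fq w n u ≤ 1 := by
  unfold Fq
  have h0 : 0 ≤ ∑ i ∈ range n, ind ((u.drop i).take w.length = w) :=
    Finset.sum_nonneg fun i _ => ind_nonneg _
  have h1 : ∑ i ∈ range n, ind ((u.drop i).take w.length = w) ≤ n := by
    calc ∑ i ∈ range n, ind ((u.drop i).take w.length = w) ≤ ∑ _i ∈ range n, (1 : ℝ) :=
          Finset.sum_le_sum fun i _ => ind_le_one _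
      _ = n := by simp
  refine ⟨mul_nonneg (inv_nonneg.2 (Nat.cast_nonneg n)) h0, ?_⟩
  rcases Nat.eq_zero_or_pos n with hn | hn
  · subst hn; simp
  · have hn' : (0 : ℝ) < n := by exact_mod_cast hn
    rw [inv_mul_le_iff₀ hn', mul_one]
    exact h1

private theorem ph2_le_one (hρ : Rh Y K B g ρ) (n : ℕ) : Y.E n ρ = 1 := by
  have := hρ.right [] n
  simpa only [List.nil_append, hρ.nil] using this

/-- `Fq w m b` is the average over `i < m` of `Fq w n (b.drop i)` up to `2 n / m` (`Fq_avg` for one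
word), convexity of the square, stationarity; all numbers are in `[0, 1]`. -/
theorem ph2_le (hρ : Rh Y K B g ρ) (w : List S) {n m : ℕ} (hn : 1 ≤ n) (hm : 1 ≤ m) :
    ph2 Y ρ w m ≤ ph2 Y ρ w n + 8 * n / m := by
  have hm' : (0 : ℝ) < m := by exact_mod_cast hm
  have hn' : (0 : ℝ) < n := by exact_mod_cast hn
  set N := m + n + w.length with hN
  have h1 : (Y.E N fun b => ρ b * Fq w m b ^ 2) = ph2 Y ρ w m := by
    have h2 := par_id_mid hρ 0 (m + w.length) n (fun b => Fq w m b ^ 2)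
    simp only [List.drop_zero, par_id_take w m _ le_rfl] at h2
    rw [hN, show m + n + w.length = 0 + (m + w.length) + n by ring]
    exact h2
  have h3 : ∀ i ∈ range m, (Y.E N fun b => ρ b * Fq w n (b.drop i) ^ 2) = ph2 Y ρ w n := by
    intro i hi
    have hi' := Finset.mem_range.1 hi
    have h2 := par_id_mid hρ i (n + w.length) (m - i) (fun b => Fq w n b ^ 2)
    simp only [par_id_take w n _ le_rfl] at h2
    rw [hN, show m + n + w.length = i + (n + w.length) + (m - i) by omega]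
    exact h2
  have hpt : ∀ b : List S, ρ b * Fq w m b ^ 2 ≤
      (m : ℝ)⁻¹ * (∑ i ∈ range m, ρ b * Fq w n (b.drop i) ^ 2) + (8 * n / m) * ρ b := by
    intro b
    set a := Fq w m b with ha
    set c := (m : ℝ)⁻¹ * ∑ i ∈ range m, Fq w n (b.drop i) with hc
    have hac : |a - c| ≤ 2 * n / m := by
      have h4 := Fq_avg w.length hn hm b
      have h5 : |Fq (List.ofFn w.get) m b - (m : ℝ)⁻¹ * ∑ i ∈ range m, Fq (List.ofFn w.get) n (b.drop i)| ≤
          ∑ w' : Fin w.length → S, |Fq (List.ofFn w') m b -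
            (m : ℝ)⁻¹ * ∑ i ∈ range m, Fq (List.ofFn w') n (b.drop i)| :=
        Finset.single_le_sum (f := fun w' : Fin w.length → S => |Fq (List.ofFn w') m b -
            (m : ℝ)⁻¹ * ∑ i ∈ range m, Fq (List.ofFn w') n (b.drop i)|) (fun _ _ => abs_nonneg _) (Finset.mem_univ _)
      rw [List.ofFn_get] at h5
      exact h5.trans h4
    have ha1 := (ph2_le_Fq w m b)
    have hc0 : 0 ≤ c := mul_nonneg (inv_nonneg.2 hm'.le) (Finset.sum_nonneg fun i _ => (ph2_le_Fq w n _).1)
    have hc1 : c ≤ 1 := by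
      rw [hc, inv_mul_le_iff₀ hm', mul_one]
      calc ∑ i ∈ range m, Fq w n (b.drop i) ≤ ∑ _i ∈ range m, (1 : ℝ) :=
            Finset.sum_le_sum fun i _ => (ph2_le_Fq w n _).2
        _ = m := by simp
    have h6 : a ^ 2 ≤ c ^ 2 + 8 * n / m := by
      have h7 : a ^ 2 - c ^ 2 = (a - c) * (a + c) := by ring
      have h8 : (a - c) * (a + c) ≤ |a - c| * 2 := by
        have h9 : a - c ≤ |a - c| := le_abs_self _
        have h10 : 0 ≤ a + c := by linarith [ha1.1]
        have h11 : a + c ≤ 2 := by linarith [ha1.2]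
        calc (a - c) * (a + c) ≤ |a - c| * (a + c) := mul_le_mul_of_nonneg_right h9 h10
          _ ≤ |a - c| * 2 := mul_le_mul_of_nonneg_left h11 (abs_nonneg _)
      have h12 : |a - c| * 2 ≤ (2 * n / m) * 2 := mul_le_mul_of_nonneg_right hac (by norm_num)
      have h13 : (2 * n / m : ℝ) * 2 ≤ 8 * n / m := by
        have : (0 : ℝ) ≤ n / m := by positivity
        have e1 : (2 * n / m : ℝ) * 2 = 4 * (n / m) := by ring
        have e2 : (8 * n / m : ℝ) = 8 * (n / m) := by ring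
        rw [e1, e2]; linarith
      linarith
    have h14 : c ^ 2 ≤ (m : ℝ)⁻¹ * ∑ i ∈ range m, Fq w n (b.drop i) ^ 2 := by
      have h15 := sq_sum_le_card_mul_sum_sq (s := range m) (f := fun i => Fq w n (b.drop i))
      rw [Finset.card_range] at h15
      rw [hc, mul_pow]
      calc ((m : ℝ)⁻¹) ^ 2 * (∑ i ∈ range m, Fq w n (b.drop i)) ^ 2 ≤
          ((m : ℝ)⁻¹) ^ 2 * (m * ∑ i ∈ range m, Fq w n (b.drop i) ^ 2) :=
            mul_le_mul_of_nonneg_left h15 (by positivity)
        _ = (m : ℝ)⁻¹ * ∑ i ∈ range m, Fq w n (b.drop i) ^ 2 := by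
            field_simp
    have h16 : ρ b * a ^ 2 ≤ ρ b * ((m : ℝ)⁻¹ * (∑ i ∈ range m, Fq w n (b.drop i) ^ 2) + 8 * n / m) :=
      mul_le_mul_of_nonneg_left (by linarith) (hρ.nonneg b)
    calc ρ b * a ^ 2 ≤ _ := h16
      _ = (m : ℝ)⁻¹ * (∑ i ∈ range m, ρ b * Fq w n (b.drop i) ^ 2) + (8 * n / m) * ρ b := by
          rw [← Finset.mul_sum]; ring
  have h17 := Y.E_mono (n := N) fun b _ => hpt b
  rw [h1, Y.E_fadd, Y.E_mul_left, Y.E_mul_left, Y.E_fsum, Finset.sum_congr rfl h3, ph2_le_one hρ N,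
    Finset.sum_const, Finset.card_range, nsmul_eq_mul, ← mul_assoc, inv_mul_cancel₀ hm'.ne', one_mul, mul_one] at h17
  exact h17
-- END ph2_le

-- BEGIN par_lim
private theorem par_lim_one (hρ : Rh Y K B g ρ) (w : List S) {δ : ℝ} (hδ : 0 < δ) :
    ∀ᶠ n in atTop, ph2 Y ρ w n - ph2 Y ρ w (2 * n) ≤ δ := by
  have hnn : ∀ n, 0 ≤ ph2 Y ρ w n := fun n =>
    Y.E_nonneg' fun b => mul_nonneg (hρ.nonneg b) (sq_nonneg _)
  set A : Set ℝ := {x | ∃ n : ℕ, 1 ≤ n ∧ ph2 Y ρ w n = x} with hA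
  have hne : A.Nonempty := ⟨_, 1, le_rfl, rfl⟩
  have hbd : BddBelow A := ⟨0, by rintro x ⟨n, -, rfl⟩; exact hnn n⟩
  obtain ⟨x, ⟨n0, hn0, rfl⟩, hx⟩ := exists_lt_of_csInf_lt hne (show sInf A < sInf A + δ / 2 by linarith)
  have hev : ∀ᶠ m : ℕ in atTop, (8 * (n0 : ℝ)) / m ≤ δ / 2 := by
    have ht : Tendsto (fun m : ℕ => (8 * (n0 : ℝ)) / m) atTop (𝓝 0) := tendsto_const_div_atTop_nhds_zero_nat _
    exact (ht.eventually (gt_mem_nhds (show (0 : ℝ) < δ / 2 by linarith))).mono fun m hm => le_of_lt hm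
  filter_upwards [hev, eventually_ge_atTop 1] with m hm hm1
  have h1 := ph2_le hρ w hn0 hm1
  have h2 : sInf A ≤ ph2 Y ρ w (2 * m) := csInf_le hbd ⟨2 * m, by omega, rfl⟩
  linarith

/-- `ph2` converges (`ph2_le`: `limsup ≤ inf`), so `ph2 n - ph2 (2 n) → 0`; Cauchy-Schwarz
(`Y.E _ ρ = 1`); finitely many `w`. -/
theorem par_lim (hρ : Rh Y K B g ρ) (k : ℕ) {ε : ℝ} (hε : 0 < ε) :
    ∀ᶠ n in atTop, (Y.E (2 * n + k) fun b => ρ b * ∑ w : Fin k → S,
      |Fq (List.ofFn w) n b - Fq (List.ofFn w) n (b.drop n)|) ≤ ε := by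
  set C : ℝ := (Fintype.card (Fin k → S) : ℝ) with hC
  have hC0 : 0 ≤ C := Nat.cast_nonneg _
  set η : ℝ := ε / (C + 1) with hη
  have hη0 : 0 < η := by positivity
  set δ : ℝ := η * ε / (4 * (C + 1)) with hδ
  have hδ0 : 0 < δ := by positivity
  have hall : ∀ᶠ n in atTop, ∀ w : Fin k → S, ph2 Y ρ (List.ofFn w) n - ph2 Y ρ (List.ofFn w) (2 * n) ≤ δ :=
    Filter.eventually_all.2 fun w => par_lim_one hρ (List.ofFn w) hδ0
  filter_upwards [hall] with n hn
  have hpt : ∀ b : List S, ρ b * ∑ w : Fin k → S, |Fq (List.ofFn w) n b - Fq (List.ofFn w) n (b.drop n)| ≤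
      ∑ w : Fin k → S, (η / 2 * ρ b +
        (2 * η)⁻¹ * (ρ b * (Fq (List.ofFn w) n b - Fq (List.ofFn w) n (b.drop n)) ^ 2)) := by
    intro b
    rw [Finset.mul_sum]
    refine Finset.sum_le_sum fun w _ => ?_
    set x := Fq (List.ofFn w) n b - Fq (List.ofFn w) n (b.drop n) with hx
    have h1 : |x| ≤ η / 2 + (2 * η)⁻¹ * x ^ 2 := by
      have h2 : 0 ≤ (|x| - η) ^ 2 := sq_nonneg _
      have h3 : (2 * η)⁻¹ * (|x| - η) ^ 2 = (2 * η)⁻¹ * x ^ 2 + η / 2 - |x| := by
        rw [← sq_abs x]; field_simp; ring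
      have h4 : 0 ≤ (2 * η)⁻¹ * (|x| - η) ^ 2 := by positivity
      linarith
    calc ρ b * |x| ≤ ρ b * (η / 2 + (2 * η)⁻¹ * x ^ 2) := mul_le_mul_of_nonneg_left h1 (hρ.nonneg b)
      _ = η / 2 * ρ b + (2 * η)⁻¹ * (ρ b * x ^ 2) := by ring
  have h5 := Y.E_mono (n := 2 * n + k) fun b _ => hpt b
  refine h5.trans ?_
  rw [Y.E_fsum_univ]
  have h6 : ∀ w : Fin k → S, (Y.E (2 * n + k) fun b => η / 2 * ρ b +
      (2 * η)⁻¹ * (ρ b * (Fq (List.ofFn w) n b - Fq (List.ofFn w) n (b.drop n)) ^ 2)) ≤ ε / (C + 1) := by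
    intro w
    have h7 := par_id hρ (List.ofFn w) n
    rw [List.length_ofFn] at h7
    rw [Y.E_fadd, Y.E_mul_left, Y.E_mul_left, h7, ph2_le_one hρ, mul_one]
    have h8 : (2 * η)⁻¹ * (4 * (ph2 Y ρ (List.ofFn w) n - ph2 Y ρ (List.ofFn w) (2 * n))) ≤
        (2 * η)⁻¹ * (4 * δ) :=
      mul_le_mul_of_nonneg_left (mul_le_mul_of_nonneg_left (hn w) (by norm_num)) (by positivity)
    have h9 : (2 * η)⁻¹ * (4 * δ) = ε / (C + 1) / 2 := by
      rw [hδ]; field_simp
    have h10 : η / 2 = ε / (C + 1) / 2 := by rw [hη]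
    linarith
  calc ∑ w : Fin k → S, (Y.E (2 * n + k) fun b => η / 2 * ρ b +
      (2 * η)⁻¹ * (ρ b * (Fq (List.ofFn w) n b - Fq (List.ofFn w) n (b.drop n)) ^ 2)) ≤
      ∑ _w : Fin k → S, ε / (C + 1) := Finset.sum_le_sum fun w _ => h6 w
    _ = C * (ε / (C + 1)) := by rw [Finset.sum_const, Finset.card_univ, nsmul_eq_mul]
    _ ≤ ε := by
        have : C * (ε / (C + 1)) = ε * (C / (C + 1)) := by ring
        rw [this]
        have h11 : C / (C + 1) ≤ 1 := by rw [div_le_one (by positivity)]; linarith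
        nlinarith
-- END par_lim

-- BEGIN rho_arrow
private theorem rho_arrow_bar (Y : Sys S V) (n : ℕ) (F : List S → ℝ) :
    (Y.E n fun u => F (bar Y u)) = Y.E n F := by
  have h1 := Y.E_neg n (fun w => F w.reverse)
  rw [Y.E_reverse] at h1
  exact h1

private theorem rho_arrow_drop (Y : Sys S V) {M n : ℕ} (hn : n ≤ M) {u : List S} (hu : u.length = M) :
    (bar Y u).drop (M - n) = bar Y (u.take n) := by
  unfold bar
  rw [List.drop_reverse, List.length_map, hu, Nat.sub_sub_self hn, List.map_take]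

private theorem rho_arrow_split (Y : Sys S V) {M n : ℕ} (hn : n ≤ M) {u v : List S} (hu : u.length = M) :
    (((bar Y u ++ v).drop (M - n)).take n = bar Y (u.take n)) ∧
      (((bar Y u ++ v).drop (M - n)).drop n = v) := by
  have hl : (bar Y u).length = M := by simp [bar, hu]
  have h1 : (bar Y u ++ v).drop (M - n) = bar Y (u.take n) ++ v := by
    rw [List.drop_append_of_le_length (by omega), rho_arrow_drop Y hn hu]
  have h2 : (bar Y (u.take n)).length = n := by
    simp [bar, hu, hn]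
  rw [h1]
  constructor
  · exact List.take_left' h2
  · exact List.drop_left' h2

private theorem rho_arrow_pt (Y : Sys S V) {k n M : ℕ} {δ : ℝ} (hδ : 0 ≤ δ) (hn : 1 ≤ n)
    (hM : n + k ≤ M) {u v : List S} (hu : u.length = M) (hv : v.length = M) {w : List S}
    (hw : w.length = k)
    (hE : ¬ ∃ γ : List S, γ.length = k ∧
      δ * n ≤ |(cnt γ (u.take n) : ℝ) - cnt (bar Y γ) (u.take n)|) :
    |Fq w n u - Fq w n v| ≤ (2 * ((k : ℝ) + 1) / n + δ) +
      |Fq w n ((bar Y u ++ v).drop (M - n)) - Fq w n (((bar Y u ++ v).drop (M - n)).drop n)| := by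
  have hn' : (0 : ℝ) < n := by exact_mod_cast hn
  obtain ⟨s1, s2⟩ := rho_arrow_split Y (by omega : n ≤ M) (v := v) hu
  rw [s2]
  set b := (bar Y u ++ v).drop (M - n) with hb
  have hbl : b.length = M + n := by
    rw [hb, List.length_drop, List.length_append, hv]
    have : (bar Y u).length = M := by simp [bar, hu]
    rw [this]
    omega
  have c1 := cnt_Fq w u n hn (by rw [hw, hu]; exact hM)
  have c2 := cnt_Fq w b n hn (by rw [hw, hbl]; omega)
  rw [s1, ← cnt_bar, hw] at c2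
  rw [hw] at c1
  have c3 : |(cnt w (u.take n) : ℝ) - cnt (bar Y w) (u.take n)| < δ * n := by
    by_contra hc
    exact hE ⟨w, hw, not_lt.1 hc⟩
  have key : |Fq w n u - Fq w n b| ≤ 2 * ((k : ℝ) + 1) / n + δ := by
    have e1 : (n : ℝ) * |Fq w n u - Fq w n b| ≤ 2 * ((k : ℝ) + 1) + δ * n := by
      rw [← abs_of_pos hn', ← abs_mul, abs_of_pos hn']
      have e2 : (n : ℝ) * (Fq w n u - Fq w n b) =
          -((cnt w (u.take n) : ℝ) - n * Fq w n u) +
          ((cnt w (u.take n) : ℝ) - cnt (bar Y w) (u.take n)) +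
          ((cnt (bar Y w) (u.take n) : ℝ) - n * Fq w n b) := by ring
      rw [e2]
      refine (abs_add_three _ _ _).trans ?_
      rw [abs_neg]
      linarith
    have e3 : |Fq w n u - Fq w n b| ≤ (2 * ((k : ℝ) + 1) + δ * n) / n := by
      rw [le_div_iff₀ hn']
      linarith
    refine e3.trans (le_of_eq ?_)
    field_simp
  have tri : |Fq w n u - Fq w n v| ≤ |Fq w n u - Fq w n b| + |Fq w n b - Fq w n v| :=
    abs_sub_le _ _ _
  linarith

/-- (4j). `δ` small, `n` large from `hA k δ`. For `u` of length `M`, `ρ (bar u) ≤ K * sv`: by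
`E_reverse`, `E_neg` (`bar` preserves sums), the words `u` for which `u.take n` has a `γ` of length
`k` with `δ n ≤ |cnt γ - cnt (bar γ)|` have mass `≤ K * δ` (`ρ (bar u ++ v)` summed over `v`;
`(sum over the letters of u after n)`: `hρ.left`). Off this set `|Fq w n u - cnt w (u.take n) / n|
≤ (k + 1) / n` (`cnt_Fq`), `|cnt w (u.take n) - cnt (bar w) (u.take n)| < δ n`,
`cnt (bar w) (u.take n) = cnt w (bar (u.take n))` (`cnt_bar`), `bar (u.take n)` = the last `n`
letters of `bar u` = `((bar u ++ v).drop (M - n)).take n`, `cnt_Fq` again for `b.drop (M - n)`, and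
`par_lim` for `b.drop (M - n)` (`hρ.left`; `b.drop M = v`). -/
theorem rho_arrow (h : Cf Y K B g) (hρ : Rh Y K B g ρ) (hA : NoArr Y) (k : ℕ) {ε : ℝ}
    (hε : 0 < ε) (n0 : ℕ) : ∃ n ≥ n0, ∀ M ≥ n + k,
      (Y.E M fun u => Y.E M fun v => ρ (bar Y u ++ v) * ∑ w : Fin k → S,
        |Fq (List.ofFn w) n u - Fq (List.ofFn w) n v|) ≤ ε := by
  set C : ℝ := (Fintype.card (Fin k → S) : ℝ) with hC
  have hC0 : 0 ≤ C := Nat.cast_nonneg _
  have hK1 : 1 ≤ K := one_le_K h
  set δ : ℝ := ε / (4 * (C + 1) * (K + 1)) with hδ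
  have hδ0 : 0 < δ := by positivity
  have hδ1 : C * (K * δ) ≤ ε / 4 := by
    have e : C * (K * δ) = ε / 4 * (C / (C + 1)) * (K / (K + 1)) := by
      rw [hδ]
      field_simp
    rw [e]
    have h1 : C / (C + 1) ≤ 1 := by
      rw [div_le_one (by positivity)]
      linarith
    have h2 : K / (K + 1) ≤ 1 := by
      rw [div_le_one (by positivity)]
      linarith
    have h3 : 0 ≤ C / (C + 1) := by positivity
    have h4 : 0 ≤ K / (K + 1) := by positivity
    calc ε / 4 * (C / (C + 1)) * (K / (K + 1)) ≤ ε / 4 * 1 * 1 := by gcongr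
      _ = ε / 4 := by ring
  have hδ2 : C * δ ≤ ε / 4 := by
    have h1 : C * δ ≤ C * (K * δ) := by
      apply mul_le_mul_of_nonneg_left _ hC0
      nlinarith
    exact h1.trans hδ1
  -- large `n`
  have hev1 := par_lim hρ k (show (0 : ℝ) < ε / 4 by linarith)
  have hev2 : ∀ᶠ n : ℕ in atTop, C * (2 * ((k : ℝ) + 1)) / n ≤ ε / 4 := by
    have ht : Tendsto (fun n : ℕ => (C * (2 * ((k : ℝ) + 1))) / n) atTop (𝓝 0) :=
      tendsto_const_div_atTop_nhds_zero_nat _
    exact (ht.eventually (gt_mem_nhds (show (0 : ℝ) < ε / 4 by linarith))).mono fun m hm => le_of_lt hm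
  obtain ⟨n1, hn1⟩ := Filter.eventually_atTop.1 (hev1.and hev2)
  obtain ⟨n, hn, hexc⟩ := hA k δ hδ0 (max n0 (max n1 1))
  have hnn0 : n0 ≤ n := (le_max_left _ _).trans hn
  have hnn1 : n1 ≤ n := (le_max_left _ _).trans ((le_max_right _ _).trans hn)
  have hn1' : 1 ≤ n := (le_max_right _ _).trans ((le_max_right _ _).trans hn)
  obtain ⟨hpar, hsm⟩ := hn1 n hnn1
  refine ⟨n, hnn0, fun M hM => ?_⟩
  have hM' : n + k ≤ M := hM
  set Ex : List S → Prop := fun x => ∃ γ : List S, γ.length = k ∧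
    δ * n ≤ |(cnt γ x : ℝ) - cnt (bar Y γ) x| with hEx
  set Φ : List S → ℝ := fun c => ∑ w : Fin k → S,
    |Fq (List.ofFn w) n c - Fq (List.ofFn w) n (c.drop n)| with hΦ
  have hΦ0 : ∀ c, 0 ≤ Φ c := fun c => Finset.sum_nonneg fun _ _ => abs_nonneg _
  set A : ℝ := C * (2 * ((k : ℝ) + 1) / n + δ) with hAdef
  have hA0 : 0 ≤ A := by positivity
  -- pointwise bound
  have hpt : ∀ u : List S, u.length = M → ∀ v : List S, v.length = M →
      ∑ w : Fin k → S, |Fq (List.ofFn w) n u - Fq (List.ofFn w) n v| ≤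
        C * ind (Ex (u.take n)) + A + Φ ((bar Y u ++ v).drop (M - n)) := by
    intro u hu v hv
    by_cases hE : Ex (u.take n)
    · rw [ind_of hE, mul_one]
      have h1 : ∑ w : Fin k → S, |Fq (List.ofFn w) n u - Fq (List.ofFn w) n v| ≤ C := by
        calc ∑ w : Fin k → S, |Fq (List.ofFn w) n u - Fq (List.ofFn w) n v| ≤
            ∑ _w : Fin k → S, (1 : ℝ) := by
              apply Finset.sum_le_sum
              intro w _
              have a1 := ph2_le_Fq (List.ofFn w) n u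
              have a2 := ph2_le_Fq (List.ofFn w) n v
              rw [abs_le]
              constructor <;> linarith
          _ = C := by rw [Finset.sum_const, Finset.card_univ, nsmul_eq_mul, mul_one]
      have h2 := hΦ0 ((bar Y u ++ v).drop (M - n))
      linarith
    · rw [ind_not hE, mul_zero, zero_add]
      calc ∑ w : Fin k → S, |Fq (List.ofFn w) n u - Fq (List.ofFn w) n v| ≤
          ∑ w : Fin k → S, ((2 * ((k : ℝ) + 1) / n + δ) +
            |Fq (List.ofFn w) n ((bar Y u ++ v).drop (M - n)) -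
              Fq (List.ofFn w) n (((bar Y u ++ v).drop (M - n)).drop n)|) := by
            apply Finset.sum_le_sum
            intro w _
            exact rho_arrow_pt Y hδ0.le hn1' hM' hu hv (List.length_ofFn) hE
        _ = A + Φ ((bar Y u ++ v).drop (M - n)) := by
            rw [Finset.sum_add_distrib, Finset.sum_const, Finset.card_univ, nsmul_eq_mul]
  have hmain : (Y.E M fun u => Y.E M fun v => ρ (bar Y u ++ v) * ∑ w : Fin k → S,
        |Fq (List.ofFn w) n u - Fq (List.ofFn w) n v|) ≤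
      Y.E M fun u => Y.E M fun v => (C * (ρ (bar Y u ++ v) * ind (Ex (u.take n))) +
        A * ρ (bar Y u ++ v)) + ρ (bar Y u ++ v) * Φ ((bar Y u ++ v).drop (M - n)) := by
    refine Y.E_mono fun u hu => Y.E_mono fun v hv => ?_
    have h1 := mul_le_mul_of_nonneg_left (hpt u hu v hv) (hρ.nonneg (bar Y u ++ v))
    refine h1.trans (le_of_eq ?_)
    ring
  refine hmain.trans ?_
  have hsplit : (Y.E M fun u => Y.E M fun v => (C * (ρ (bar Y u ++ v) * ind (Ex (u.take n))) +
        A * ρ (bar Y u ++ v)) + ρ (bar Y u ++ v) * Φ ((bar Y u ++ v).drop (M - n))) =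
      C * (Y.E M fun u => ρ (bar Y u) * ind (Ex (u.take n))) + A * (Y.E M fun u => ρ (bar Y u)) +
        Y.E M fun u => Y.E M fun v => ρ (bar Y u ++ v) * Φ ((bar Y u ++ v).drop (M - n)) := by
    have e1 : ∀ u : List S, (Y.E M fun v => (C * (ρ (bar Y u ++ v) * ind (Ex (u.take n))) +
        A * ρ (bar Y u ++ v)) + ρ (bar Y u ++ v) * Φ ((bar Y u ++ v).drop (M - n))) =
        (C * (ρ (bar Y u) * ind (Ex (u.take n))) + A * ρ (bar Y u)) +
          Y.E M fun v => ρ (bar Y u ++ v) * Φ ((bar Y u ++ v).drop (M - n)) := by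
      intro u
      rw [Y.E_fadd, Y.E_fadd, Y.E_mul_left, Y.E_mul_left, Y.E_mul_right, hρ.right]
    rw [Y.E_congr fun u _ => e1 u, Y.E_fadd, Y.E_fadd, Y.E_mul_left, Y.E_mul_left]
  rw [hsplit]
  -- exceptional set
  have t1 : (Y.E M fun u => ρ (bar Y u) * ind (Ex (u.take n))) ≤ K * δ := by
    have hMn : M = n + (M - n) := by omega
    rw [hMn, Y.E_add]
    have e1 : ∀ u : List S, u.length = n → (Y.E (M - n) fun x =>
        ρ (bar Y (u ++ x)) * ind (Ex ((u ++ x).take n))) = ρ (bar Y u) * ind (Ex u) := by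
      intro u hu
      have e2 : ∀ x : List S, ρ (bar Y (u ++ x)) * ind (Ex ((u ++ x).take n)) =
          (fun z => ρ (z ++ bar Y u)) (bar Y x) * ind (Ex u) := by
        intro x
        rw [List.take_left' hu]
        have : bar Y (u ++ x) = bar Y x ++ bar Y u := by
          simp [bar, List.map_append, List.reverse_append]
        rw [this]
      rw [Y.E_congr fun x _ => e2 x, Y.E_mul_right, rho_arrow_bar Y (M - n) (fun z => ρ (z ++ bar Y u)),
        hρ.left]
    rw [Y.E_congr fun u hu => e1 u hu]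
    have e3 : (Y.E n fun u => ρ (bar Y u) * ind (Ex u)) ≤
        Y.E n fun u => K * (Y.sv u * ind (Ex u)) := by
      refine Y.E_mono fun u _ => ?_
      have a1 : ρ (bar Y u) ≤ K * Y.sv u := by
        have a2 : Y.sv (bar Y u) = Y.sv u := by
          unfold bar
          rw [Y.sv_reverse, Y.sv_neg]
        rw [← a2]
        exact (hρ.le _).trans (mul_le_mul_of_nonneg_left (h.le_sv _) (by linarith))
      have a3 := mul_le_mul_of_nonneg_right a1 (ind_nonneg (Ex u))
      linarith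
    refine e3.trans ?_
    rw [Y.E_mul_left]
    exact mul_le_mul_of_nonneg_left hexc (by linarith)
  have t2 : (Y.E M fun u => ρ (bar Y u)) = 1 := by
    rw [rho_arrow_bar Y M ρ]
    exact ph2_le_one hρ M
  have t3 : (Y.E M fun u => Y.E M fun v => ρ (bar Y u ++ v) * Φ ((bar Y u ++ v).drop (M - n))) ≤
      ε / 4 := by
    have e1 : (Y.E M fun u => Y.E M fun v => ρ (bar Y u ++ v) * Φ ((bar Y u ++ v).drop (M - n))) =
        Y.E (M + M) fun b => ρ b * Φ (b.drop (M - n)) := by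
      rw [Y.E_add]
      exact rho_arrow_bar Y M (fun z => Y.E M fun v => ρ (z ++ v) * Φ ((z ++ v).drop (M - n)))
    have e2 : ∀ c : List S, Φ (c.take (2 * n + k)) = Φ c := by
      intro c
      simp only [hΦ]
      apply Finset.sum_congr rfl
      intro w _
      have l1 : Fq (List.ofFn w) n (c.take (2 * n + k)) = Fq (List.ofFn w) n c :=
        par_id_take _ _ _ (by rw [List.length_ofFn]; omega) c
      have l2 : Fq (List.ofFn w) n ((c.take (2 * n + k)).drop n) = Fq (List.ofFn w) n (c.drop n) := by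
        rw [List.drop_take]
        exact par_id_take _ _ _ (by rw [List.length_ofFn]; omega) _
      rw [l1, l2]
    have e3 := par_id_mid hρ (M - n) (2 * n + k) (M - n - k) Φ
    simp only [e2] at e3
    rw [e1, show M + M = (M - n) + (2 * n + k) + (M - n - k) by omega, e3]
    exact hpar
  rw [t2, mul_one]
  have hA1 : A ≤ ε / 4 + ε / 4 := by
    have : A = C * (2 * ((k : ℝ) + 1)) / n + C * δ := by
      rw [hAdef]
      ring
    rw [this]
    linarith
  have t1' := mul_le_mul_of_nonneg_left t1 hC0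
  linarith
-- END rho_arrow

-- BEGIN rho_mass
/-- `∑ u v, ρ (bar u ++ v) = 1`, and `ρ (bar u ++ v) ≠ 0` only if `u`, `v` are disjoint except for
the common start. -/
theorem rho_mass (h : Cf Y K B g) (hρ : Rh Y K B g ρ) (M : ℕ) :
    (Y.E M fun u => Y.E M fun v => ρ (bar Y u ++ v)) = 1 := by
  rw [Y.E_congr fun u _ => hρ.right (bar Y u) M]
  have h1 : (Y.E M fun u => ρ (bar Y u)) = Y.E M ρ := by
    unfold bar
    rw [Y.E_neg M fun w => ρ w.reverse, Y.E_reverse M ρ]
  have h2 := hρ.right [] M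
  rw [hρ.nil] at h2
  rw [h1]
  exact h2
-- END rho_mass

-- BEGIN rho_disj
/-- if `ρ (bar u ++ v) ≠ 0` then `bar u ++ v` is self-avoiding (`hρ.le`, `h.le_sv`): the points
`sm (u.take i)` and `sm (v.take j)` differ unless `i = j = 0`. -/
theorem rho_disj (h : Cf Y K B g) (hρ : Rh Y K B g ρ) {u v : List S}
    (huv : ρ (bar Y u ++ v) ≠ 0) {i j : ℕ} (hi : i ≤ u.length) (hj : j ≤ v.length)
    (hij : i ≠ 0 ∨ j ≠ 0) : Y.sm (u.take i) ≠ Y.sm (v.take j) := by
  have h1 : Y.Saw (bar Y u ++ v) := by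
    by_contra hs
    have h2 := h.le_sv (bar Y u ++ v)
    rw [Y.sv_of_not hs] at h2
    have h3 : g (bar Y u ++ v) = 0 := le_antisymm h2 (h.nonneg _)
    have h4 := hρ.le (bar Y u ++ v)
    rw [h3, mul_zero] at h4
    exact huv (le_antisymm h4 (hρ.nonneg _))
  have h2 : bar Y (u.take i) ++ v.take j <:+: bar Y u ++ v := by
    refine ⟨bar Y (u.drop i), v.drop j, ?_⟩
    have h3 : bar Y u = bar Y (u.drop i) ++ bar Y (u.take i) := by
      conv_lhs => rw [← List.take_append_drop i u]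
      unfold bar
      rw [List.map_append, List.reverse_append]
    have h4 : v = v.take j ++ v.drop j := (List.take_append_drop j v).symm
    rw [h3]
    conv_rhs => rw [h4]
    simp only [List.append_assoc]
  have h3 : bar Y (u.take i) ++ v.take j ≠ [] := by
    intro h4
    have h5 := congrArg List.length h4
    simp only [bar, List.length_append, List.length_reverse, List.length_map, List.length_take,
      List.length_nil] at h5
    omega
  have h4 := h1 _ h2 h3
  intro h5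
  apply h4
  rw [Y.sm_append]
  unfold bar
  rw [Y.sm_reverse, Y.sm_neg, h5]
  exact neg_add_cancel _
-- END rho_disj

end gen

section lat

variable {S : Type} [Fintype S] {d : ℕ} {Y : Sys S (Zk d)} {K B κ : ℝ} {g ρ : List S → ℝ}
  {γ : List S → List S → ℝ}

-- BEGIN Q_conv
private theorem Q_conv_bil (g : List S → ℝ) (γ : List S → List S → ℝ) (k N : ℕ)
    (F : ℕ → List S → ℝ) (c : ℝ) :
    Bf S g γ k (fun w => c * ∑ i ∈ range N, F i w) (fun w => c * ∑ i ∈ range N, F i w) =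
      c ^ 2 * ∑ i ∈ range N, ∑ j ∈ range N, Bf S g γ k (F i) (F j) := by
  unfold Bf
  have e1 : ∀ w w' : Fin k → S, Dn g γ (List.ofFn w) (List.ofFn w') *
      (c * ∑ i ∈ range N, F i (List.ofFn w)) * (c * ∑ i ∈ range N, F i (List.ofFn w')) =
      c ^ 2 * ∑ i ∈ range N, ∑ j ∈ range N, Dn g γ (List.ofFn w) (List.ofFn w') *
        F i (List.ofFn w) * F j (List.ofFn w') := by
    intro w w'
    have e2 : ∑ i ∈ range N, ∑ j ∈ range N, Dn g γ (List.ofFn w) (List.ofFn w') *
        F i (List.ofFn w) * F j (List.ofFn w') = Dn g γ (List.ofFn w) (List.ofFn w') *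
        (∑ i ∈ range N, F i (List.ofFn w)) * ∑ j ∈ range N, F j (List.ofFn w') := by
      rw [mul_assoc, Finset.sum_mul_sum, Finset.mul_sum]
      refine Finset.sum_congr rfl fun i _ => ?_
      rw [Finset.mul_sum]
      exact Finset.sum_congr rfl fun j _ => by ring
    rw [e2]
    ring
  simp only [e1]
  have e3 : ∀ X : (Fin k → S) → (Fin k → S) → ℝ, ∑ w : Fin k → S, ∑ w' : Fin k → S,
      c ^ 2 * X w w' = c ^ 2 * ∑ w : Fin k → S, ∑ w' : Fin k → S, X w w' := by
    intro X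
    rw [Finset.mul_sum]
    exact Finset.sum_congr rfl fun w _ => (Finset.mul_sum _ _ _).symm
  rw [e3]
  congr 1
  calc ∑ w : Fin k → S, ∑ w' : Fin k → S, ∑ i ∈ range N, ∑ j ∈ range N,
        Dn g γ (List.ofFn w) (List.ofFn w') * F i (List.ofFn w) * F j (List.ofFn w') =
        ∑ w : Fin k → S, ∑ i ∈ range N, ∑ j ∈ range N, ∑ w' : Fin k → S,
        Dn g γ (List.ofFn w) (List.ofFn w') * F i (List.ofFn w) * F j (List.ofFn w') := by
        refine Finset.sum_congr rfl fun w _ => ?_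
        rw [Finset.sum_comm]
        refine Finset.sum_congr rfl fun i _ => ?_
        rw [Finset.sum_comm]
    _ = _ := by
        rw [Finset.sum_comm]
        refine Finset.sum_congr rfl fun i _ => ?_
        rw [Finset.sum_comm]

/-- Convexity: `Q (F_N) ≤ Q (average) + 4 n / (κ² N) ≤ average of Q + ..` (`Fq_avg`, `Bf_lip`
twice, `Bf_psd` for the convexity of `Q`: `Q (∑ F_i / N) ≤ ∑ Q (F_i) / N` by `Bf_two`). -/
theorem Q_conv (h : Cf Y K B g) (hκ : 0 < κ) (hγ : Gm Y g κ 1 γ) (k : ℕ) {n N : ℕ} (hn : 1 ≤ n)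
    (hN : 1 ≤ N) (u : List S) :
    κ ^ 2 * Bf S g γ k (fun w => Fq w N u) (fun w => Fq w N u) ≤
      κ ^ 2 * ((N : ℝ)⁻¹ * ∑ i ∈ range N,
        Bf S g γ k (fun w => Fq w n (u.drop i)) (fun w => Fq w n (u.drop i))) + 8 * n / N := by
  have hn0 : (0 : ℝ) < n := by exact_mod_cast hn
  have hN0 : (0 : ℝ) < N := by exact_mod_cast hN
  set F : ℕ → List S → ℝ := fun i w => Fq w n (u.drop i) with hF
  set A : List S → ℝ := fun w => (N : ℝ)⁻¹ * ∑ i ∈ range N, F i w with hA
  set FN : List S → ℝ := fun w => Fq w N u with hFN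
  have hd : ∑ w : Fin k → S, |FN (List.ofFn w) - A (List.ofFn w)| ≤ 2 * n / N :=
    Fq_avg k hn hN u
  have hd0 : 0 ≤ ∑ w : Fin k → S, |FN (List.ofFn w) - A (List.ofFn w)| :=
    Finset.sum_nonneg fun w _ => abs_nonneg _
  have hFN1 : ∑ w : Fin k → S, |FN (List.ofFn w)| ≤ 1 := by
    obtain ⟨h1, h2⟩ := Fq_facts k N u
    refine le_trans (le_of_eq ?_) h2
    exact Finset.sum_congr rfl fun w _ => abs_of_nonneg (h1 _)
  have hA1 : ∑ w : Fin k → S, |A (List.ofFn w)| ≤ 1 := by
    have h0 : ∀ w, 0 ≤ A w := fun w => mul_nonneg (inv_pos.2 hN0).le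
      (Finset.sum_nonneg fun i _ => (Fq_facts k n (u.drop i)).1 w)
    have h1 : ∑ w : Fin k → S, |A (List.ofFn w)| = (N : ℝ)⁻¹ * ∑ i ∈ range N,
        ∑ w : Fin k → S, F i (List.ofFn w) := by
      rw [Finset.sum_comm, Finset.mul_sum]
      exact Finset.sum_congr rfl fun w _ => abs_of_nonneg (h0 _)
    rw [h1]
    have h2 : ∑ i ∈ range N, ∑ w : Fin k → S, F i (List.ofFn w) ≤ N := by
      refine (Finset.sum_le_sum fun i _ => (Fq_facts k n (u.drop i)).2).trans (le_of_eq ?_)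
      simp
    calc (N : ℝ)⁻¹ * ∑ i ∈ range N, ∑ w : Fin k → S, F i (List.ofFn w) ≤ (N : ℝ)⁻¹ * N :=
          mul_le_mul_of_nonneg_left h2 (inv_pos.2 hN0).le
      _ = 1 := inv_mul_cancel₀ hN0.ne'
  have hq0 : 0 ≤ 2 * (n : ℝ) / N := by positivity
  have l1 := Bf_lip h hκ hγ k FN A FN
  have l2 := Bf_lip h hκ hγ k FN A A
  rw [Bf_symm hγ k FN A] at l2
  have l1' : κ ^ 2 * |Bf S g γ k FN FN - Bf S g γ k A FN| ≤ 2 * n / N :=
    l1.trans ((mul_le_mul hd hFN1 (Finset.sum_nonneg fun w _ => abs_nonneg _) hq0).trans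
      (le_of_eq (mul_one _)))
  have l2' : κ ^ 2 * |Bf S g γ k A FN - Bf S g γ k A A| ≤ 2 * n / N :=
    l2.trans ((mul_le_mul hd hA1 (Finset.sum_nonneg fun w _ => abs_nonneg _) hq0).trans
      (le_of_eq (mul_one _)))
  have hκ2 : 0 < κ ^ 2 := by positivity
  have l3 : κ ^ 2 * Bf S g γ k FN FN ≤ κ ^ 2 * Bf S g γ k A A + 4 * n / N := by
    have a1 := mul_le_mul_of_nonneg_left (le_abs_self (Bf S g γ k FN FN - Bf S g γ k A FN)) hκ2.le
    have a2 := mul_le_mul_of_nonneg_left (le_abs_self (Bf S g γ k A FN - Bf S g γ k A A)) hκ2.le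
    have e4 : 4 * (n : ℝ) / N = 2 * n / N + 2 * n / N := by ring
    rw [e4]
    rw [mul_sub] at a1 a2
    linarith
  have l4 : Bf S g γ k A A ≤ (N : ℝ)⁻¹ * ∑ i ∈ range N, Bf S g γ k (F i) (F i) := by
    rw [hA, Q_conv_bil]
    have h1 : ∑ i ∈ range N, ∑ j ∈ range N, Bf S g γ k (F i) (F j) ≤
        ∑ i ∈ range N, ∑ j ∈ range N, (Bf S g γ k (F i) (F i) + Bf S g γ k (F j) (F j)) / 2 :=
      Finset.sum_le_sum fun i _ => Finset.sum_le_sum fun j _ => by
        have := Bf_two h hκ hγ k (F i) (F j)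
        linarith
    have h2 : ∑ i ∈ range N, ∑ j ∈ range N, (Bf S g γ k (F i) (F i) + Bf S g γ k (F j) (F j)) / 2 =
        N * ∑ i ∈ range N, Bf S g γ k (F i) (F i) := by
      simp only [← Finset.sum_div, Finset.sum_add_distrib, Finset.sum_const, Finset.card_range,
        nsmul_eq_mul, ← Finset.mul_sum]
      ring
    rw [h2] at h1
    calc ((N : ℝ)⁻¹) ^ 2 * ∑ i ∈ range N, ∑ j ∈ range N, Bf S g γ k (F i) (F j) ≤
          ((N : ℝ)⁻¹) ^ 2 * (N * ∑ i ∈ range N, Bf S g γ k (F i) (F i)) :=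
          mul_le_mul_of_nonneg_left h1 (by positivity)
      _ = (N : ℝ)⁻¹ * ∑ i ∈ range N, Bf S g γ k (F i) (F i) := by
          field_simp
  have l5 := mul_le_mul_of_nonneg_left l4 hκ2.le
  have e8 : 8 * (n : ℝ) / N = 4 * n / N + 4 * n / N := by ring
  have h40 : 0 ≤ 4 * (n : ℝ) / N := by positivity
  linarith
-- END Q_conv

-- BEGIN Q_rho
private theorem Q_rho_take {k n : ℕ} (w x : List S) (hw : w.length = k) :
    Fq w n (x.take (n + k)) = Fq w n x := by
  unfold Fq
  congr 1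
  refine Finset.sum_congr rfl fun i hi => ?_
  rw [Finset.mem_range] at hi
  congr 1
  rw [hw, List.drop_take, List.take_take, min_eq_left (by omega)]

private theorem Q_rho_bf (g : List S → ℝ) (γ : List S → List S → ℝ) {k n : ℕ} (x : List S) :
    Bf S g γ k (fun w => Fq w n (x.take (n + k))) (fun w => Fq w n (x.take (n + k))) =
      Bf S g γ k (fun w => Fq w n x) (fun w => Fq w n x) := by
  unfold Bf
  refine Finset.sum_congr rfl fun w _ => Finset.sum_congr rfl fun w' _ => ?_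
  show Dn g γ (List.ofFn w) (List.ofFn w') * Fq (List.ofFn w) n (x.take (n + k)) *
    Fq (List.ofFn w') n (x.take (n + k)) = Dn g γ (List.ofFn w) (List.ofFn w') *
      Fq (List.ofFn w) n x * Fq (List.ofFn w') n x
  rw [Q_rho_take (List.ofFn w) x List.length_ofFn, Q_rho_take (List.ofFn w') x List.length_ofFn]

/-- (4h). `Q_ge` for `N` in the place of `n` (`M = N + n + k`), `Q_conv`, `hρ.ces` for
`φ b = Q (F_n b)`, `m = n + k` (`Fq w n (u.drop i)` depends on the window `wn i (n + k) u` only: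
`Fq w n (u.drop i) = Fq w n (wn i (n + k) u)` for `|w| = k`), every `c < 1 - K ^ 2 * ε`. -/
theorem Q_rho (h : Cf Y K B g) (hρ : Rh Y K B g ρ) (hκ : 0 < κ) (hγ : Gm Y g κ 1 γ) {k n : ℕ}
    {ε : ℝ} (hn : 1 ≤ n) (hD : ∀ m ≥ k, PP Y g m
      (fun b b' => |Dn g γ b b' - Dn g γ (b.take k) (b'.take k)|) ≤ ε) :
    1 - K ^ 2 * ε ≤ Y.E (n + k) fun b =>
      ρ b * Bf S g γ k (fun w => Fq w n b) (fun w => Fq w n b) := by
  have hκ2 : 0 < κ ^ 2 := pow_pos hκ 2
  refine le_of_forall_lt fun c hc => ?_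
  have hc0 : 0 < 1 - K ^ 2 * ε - (c + (1 - K ^ 2 * ε)) / 2 := by linarith
  refine lt_of_lt_of_le (show c < (c + (1 - K ^ 2 * ε)) / 2 by linarith) ?_
  refine hρ.ces (n + k) (fun b => Bf S g γ k (fun w => Fq w n b) (fun w => Fq w n b)) _ ?_
  have hlim : Tendsto (fun N : ℕ => (8 * n / κ ^ 2) / (N : ℝ)) atTop (𝓝 0) :=
    tendsto_const_div_atTop_nhds_zero_nat _
  filter_upwards [(tendsto_order.1 hlim).2 _ hc0, eventually_ge_atTop 1] with N hN hN1
  have hNp : (0 : ℝ) < N := by exact_mod_cast hN1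
  have h1 := Q_ge h hκ hγ (k := k) (n := N) (M := N + (n + k)) hN1 (by omega) hD
  have h2 : (Y.E (N + (n + k)) fun u =>
      g u * Bf S g γ k (fun w => Fq w N u) (fun w => Fq w N u)) ≤
      Y.E (N + (n + k)) fun u => (N : ℝ)⁻¹ * (∑ i ∈ range N,
        g u * Bf S g γ k (fun w => Fq w n (u.drop i)) (fun w => Fq w n (u.drop i))) +
        g u * ((8 * n / κ ^ 2) / N) := by
    refine Y.E_mono fun u _ => ?_
    have h3 := Q_conv h hκ hγ k hn hN1 u
    have h4 : Bf S g γ k (fun w => Fq w N u) (fun w => Fq w N u) ≤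
        (N : ℝ)⁻¹ * ∑ i ∈ range N,
          Bf S g γ k (fun w => Fq w n (u.drop i)) (fun w => Fq w n (u.drop i)) +
          (8 * n / κ ^ 2) / N := by
      refine le_of_mul_le_mul_left (h3.trans (le_of_eq ?_)) hκ2
      rw [mul_add]
      congr 1
      field_simp
    refine (mul_le_mul_of_nonneg_left h4 (h.nonneg u)).trans (le_of_eq ?_)
    rw [mul_add, ← Finset.mul_sum]
    ring
  have h3 : (Y.E (N + (n + k)) fun u => (N : ℝ)⁻¹ * (∑ i ∈ range N,
        g u * Bf S g γ k (fun w => Fq w n (u.drop i)) (fun w => Fq w n (u.drop i))) +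
        g u * ((8 * n / κ ^ 2) / N)) = (N : ℝ)⁻¹ * (∑ i ∈ range N, Y.E (i + (n + k)) fun w =>
          g w * Bf S g γ k (fun x => Fq x n (wn i (n + k) w)) (fun x => Fq x n (wn i (n + k) w))) +
        (8 * n / κ ^ 2) / N := by
    rw [Y.E_fadd, Y.E_mul_left, Y.E_fsum, Y.E_mul_right,
      show (Y.E (N + (n + k)) fun w => g w) = 1 from E_g h _, one_mul]
    congr 2
    refine Finset.sum_congr rfl fun i hi => ?_
    rw [Finset.mem_range] at hi
    have h4 := E_take h (i + (n + k)) (N - i)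
      (fun w => Bf S g γ k (fun x => Fq x n (wn i (n + k) w)) (fun x => Fq x n (wn i (n + k) w)))
    rw [show i + (n + k) + (N - i) = N + (n + k) by omega] at h4
    rw [← h4]
    refine Y.E_congr fun u _ => ?_
    congr 1
    have h5 : wn i (n + k) (u.take (i + (n + k))) = (u.drop i).take (n + k) := by
      unfold wn
      rw [List.drop_take, List.take_take]
      congr 1
      omega
    show Bf S g γ k (fun w => Fq w n (u.drop i)) (fun w => Fq w n (u.drop i)) =
      Bf S g γ k (fun x => Fq x n (wn i (n + k) (u.take (i + (n + k)))))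
        (fun x => Fq x n (wn i (n + k) (u.take (i + (n + k)))))
    rw [h5, Q_rho_bf]
  rw [h3] at h2
  have h6 := h1.trans h2
  have h7 : (8 * (n : ℝ) / κ ^ 2) / N < 1 - K ^ 2 * ε - (c + (1 - K ^ 2 * ε)) / 2 := hN
  linarith
-- END Q_rho

-- BEGIN Sn_rho
private theorem Sn_rho_law (hρ : Rh Y K B g ρ) {m M : ℕ} (hm : m ≤ M) (φ : List S → ℝ)
    (hφ : ∀ x, φ (x.take m) = φ x) :
    (Y.E M fun u => Y.E M fun v => ρ (bar Y u ++ v) * φ v) = Y.E m fun b => ρ b * φ b := by
  rw [Y.E_comm]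
  have h1 : (Y.E M fun v => Y.E M fun u => ρ (bar Y u ++ v) * φ v) =
      Y.E M fun v => ρ v * φ v := by
    refine Y.E_congr fun v _ => ?_
    rw [Y.E_mul_right]
    congr 1
    have h2 : (Y.E M fun u => ρ (bar Y u ++ v)) = Y.E M fun u => ρ (u ++ v) := by
      unfold bar
      rw [Y.E_neg M fun w => ρ (w.reverse ++ v), Y.E_reverse M fun w => ρ (w ++ v)]
    rw [h2, hρ.left]
  rw [h1]
  obtain ⟨n, rfl⟩ : ∃ n, M = m + n := ⟨M - m, by omega⟩
  rw [Y.E_add]
  refine Y.E_congr fun u hu => ?_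
  have h3 : (Y.E n fun v => ρ (u ++ v) * φ (u ++ v)) = Y.E n fun v => ρ (u ++ v) * φ u := by
    refine Y.E_congr fun v _ => ?_
    rw [← hφ (u ++ v), List.take_left' hu]
  rw [h3, Y.E_mul_right, hρ.right]

private theorem Sn_rho_take {k n : ℕ} (w x : List S) (hw : w.length = k) :
    Fq w n (x.take (n + k)) = Fq w n x := by
  unfold Fq
  congr 1
  refine Finset.sum_congr rfl fun i hi => ?_
  rw [Finset.mem_range] at hi
  congr 1
  rw [hw, List.drop_take, List.take_take, min_eq_left (by omega)]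

/-- (4j). `Sn_eq`, `Bf_lip` (`∑ |Fq w n v| ≤ 1`), `Q_rho` (the law of `v` under
`ρ (bar u ++ v)` is `ρ v`: `hρ.left`, `E_reverse`, `E_neg`; `hρ.right`), `rho_arrow`. -/
theorem Sn_rho (h : Cf Y K B g) (hρ : Rh Y K B g ρ) (hκ : 0 < κ) (hγ : Gm Y g κ 1 γ)
    (hA : NoArr Y) {k : ℕ} {ε : ℝ} (hε : 0 < ε) (hD : ∀ m ≥ k, PP Y g m
      (fun b b' => |Dn g γ b b' - Dn g γ (b.take k) (b'.take k)|) ≤ ε) (n0 : ℕ) :
    ∃ n ≥ n0, ∀ M ≥ n + k, 1 - (K ^ 2 + 1) * ε ≤
      Y.E M fun u => Y.E M fun v => ρ (bar Y u ++ v) * Sn g γ k n u v := by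
  have hκ2 : 0 < κ ^ 2 := pow_pos hκ 2
  obtain ⟨n, hn, hn'⟩ := rho_arrow h hρ hA k (mul_pos hκ2 hε) (max n0 1)
  refine ⟨n, (le_max_left _ _).trans hn, fun M hM => ?_⟩
  have hn1 : 1 ≤ n := (le_max_right _ _).trans hn
  have h1 := hn' M hM
  have h2 := Q_rho h hρ hκ hγ (k := k) (n := n) hn1 hD
  have h3 := Sn_rho_law hρ (m := n + k) (M := M) hM
    (fun b => Bf S g γ k (fun w => Fq w n b) (fun w => Fq w n b)) (fun x => by
      show Bf S g γ k (fun w => Fq w n (x.take (n + k))) (fun w => Fq w n (x.take (n + k))) =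
        Bf S g γ k (fun w => Fq w n x) (fun w => Fq w n x)
      unfold Bf
      refine Finset.sum_congr rfl fun w _ => Finset.sum_congr rfl fun w' _ => ?_
      show Dn g γ (List.ofFn w) (List.ofFn w') * Fq (List.ofFn w) n (x.take (n + k)) *
        Fq (List.ofFn w') n (x.take (n + k)) = Dn g γ (List.ofFn w) (List.ofFn w') *
          Fq (List.ofFn w) n x * Fq (List.ofFn w') n x
      rw [Sn_rho_take (List.ofFn w) x List.length_ofFn,
        Sn_rho_take (List.ofFn w') x List.length_ofFn])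
  rw [← h3] at h2
  have h4 : (Y.E M fun u => Y.E M fun v => ρ (bar Y u ++ v) *
      Bf S g γ k (fun w => Fq w n v) (fun w => Fq w n v) -
      (κ ^ 2)⁻¹ * (ρ (bar Y u ++ v) * ∑ w : Fin k → S,
        |Fq (List.ofFn w) n u - Fq (List.ofFn w) n v|)) ≤
      Y.E M fun u => Y.E M fun v => ρ (bar Y u ++ v) * Sn g γ k n u v := by
    refine Y.E_mono fun u hu => Y.E_mono fun v hv => ?_
    rw [Sn_eq g γ (by omega) (by omega)]
    have h5 := Bf_lip h hκ hγ k (fun w => Fq w n u) (fun w => Fq w n v) (fun w => Fq w n v)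
    have h6 := Fq_facts k n v
    have h7 : ∑ w : Fin k → S, |Fq (List.ofFn w) n v| ≤ 1 := by
      refine le_trans (le_of_eq (Finset.sum_congr rfl fun w _ => ?_)) h6.2
      exact abs_of_nonneg (h6.1 _)
    have h8 : 0 ≤ ∑ w : Fin k → S, |Fq (List.ofFn w) n u - Fq (List.ofFn w) n v| :=
      Finset.sum_nonneg fun w _ => abs_nonneg _
    have h9 : κ ^ 2 * |Bf S g γ k (fun w => Fq w n u) (fun w => Fq w n v) -
        Bf S g γ k (fun w => Fq w n v) (fun w => Fq w n v)| ≤
        ∑ w : Fin k → S, |Fq (List.ofFn w) n u - Fq (List.ofFn w) n v| :=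
      h5.trans (mul_le_of_le_one_right h8 h7)
    have h10 : |Bf S g γ k (fun w => Fq w n u) (fun w => Fq w n v) -
        Bf S g γ k (fun w => Fq w n v) (fun w => Fq w n v)| ≤
        (κ ^ 2)⁻¹ * ∑ w : Fin k → S, |Fq (List.ofFn w) n u - Fq (List.ofFn w) n v| := by
      rw [← div_eq_inv_mul, le_div_iff₀ hκ2, mul_comm]
      exact h9
    have h11 := (abs_le.1 h10).1
    have h12 := hρ.nonneg (bar Y u ++ v)
    have h13 := mul_le_mul_of_nonneg_left h11 h12
    linarith [h13]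
  have h5 : (Y.E M fun u => Y.E M fun v => ρ (bar Y u ++ v) *
      Bf S g γ k (fun w => Fq w n v) (fun w => Fq w n v) -
      (κ ^ 2)⁻¹ * (ρ (bar Y u ++ v) * ∑ w : Fin k → S,
        |Fq (List.ofFn w) n u - Fq (List.ofFn w) n v|)) =
      (Y.E M fun u => Y.E M fun v => ρ (bar Y u ++ v) *
        Bf S g γ k (fun w => Fq w n v) (fun w => Fq w n v)) -
      (κ ^ 2)⁻¹ * Y.E M fun u => Y.E M fun v => ρ (bar Y u ++ v) * ∑ w : Fin k → S,
        |Fq (List.ofFn w) n u - Fq (List.ofFn w) n v| := by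
    simp only [Y.E_fsub, Y.E_mul_left]
  have h6 : (κ ^ 2)⁻¹ * (Y.E M fun u => Y.E M fun v => ρ (bar Y u ++ v) * ∑ w : Fin k → S,
        |Fq (List.ofFn w) n u - Fq (List.ofFn w) n v|) ≤ ε := by
    rw [← div_eq_inv_mul, div_le_iff₀ hκ2, mul_comm ε]
    exact h1
  rw [h5] at h4
  have h7 : 1 - K ^ 2 * ε ≤ Y.E M fun u => Y.E M fun v => ρ (bar Y u ++ v) *
        Bf S g γ k (fun w => Fq w n v) (fun w => Fq w n v) := h2
  linarith
-- END Sn_rho

-- BEGIN Sn_PP
private theorem Sn_PP_le (hρ : Rh Y K B g ρ) (M : ℕ)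
    {φ : List S → List S → ℝ} (hφ : ∀ u v, 0 ≤ φ u v) :
    (Y.E M fun u => Y.E M fun v => ρ (bar Y u ++ v) * φ u v) ≤ B * PP Y g M φ := by
  show _ ≤ B * Y.E M fun u => Y.E M fun v => g u * g v * φ u v
  rw [← Y.E_mul_left]
  refine Y.E_mono fun u _ => ?_
  rw [← Y.E_mul_left]
  refine Y.E_mono fun v _ => ?_
  calc ρ (bar Y u ++ v) * φ u v ≤ B * g u * g v * φ u v :=
        mul_le_mul_of_nonneg_right (hρ.two u v) (hφ u v)
    _ = B * (g u * g v * φ u v) := by ring

private theorem Sn_PP_lin (ρ : List S → ℝ) (γ : List S → List S → ℝ) (M m n : ℕ) :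
    (Y.E M fun u => Y.E M fun v => ρ (bar Y u ++ v) * Sn g γ m n u v) =
      ((n : ℝ) ^ 2)⁻¹ * ∑ i ∈ range n, ∑ j ∈ range n,
        Y.E M fun u => Y.E M fun v => ρ (bar Y u ++ v) * Dn g γ (wn i m u) (wn j m v) := by
  have h1 : ∀ u v : List S, ρ (bar Y u ++ v) * Sn g γ m n u v = ((n : ℝ) ^ 2)⁻¹ *
      ∑ i ∈ range n, ∑ j ∈ range n, ρ (bar Y u ++ v) * Dn g γ (wn i m u) (wn j m v) := by
    intro u v
    unfold Sn
    rw [mul_left_comm, Finset.mul_sum]
    congr 1
    exact Finset.sum_congr rfl fun i _ => by rw [Finset.mul_sum]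
  simp_rw [h1, Y.E_mul_left, Y.E_fsum]

/-- `ρ (bar u ++ v) ≤ B g u g v` and disjointness: the part `i = j = 0` of `Sn g γ m n` is
`≤ (κ² n²)⁻¹`. By `Sn_rho` and `Sn_diff` (with `ρ (bar u ++ v) ≤ B g u g v` and `|..|`):
`1 - (K² + 1) ε - B K² ε ≤ E_ρ Sn m n`, and `E_ρ Sn m n ≤ B * n⁻² ∑_{(i,j) ≠ (0,0)}
PP (Dn (wn i m u) (wn j m v) * ind (D' u v)) + (κ² n²)⁻¹`, where `D' u v`: `sm (u.take s) ≠
sm (v.take t)` for all `s, t ≤ M` with `s ≠ 0 ∨ t ≠ 0` (`rho_disj`). Choose `ε` with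
`(K² + 1 + B K²) ε ≤ 1/4` and `n` with `(κ² n²)⁻¹ ≤ 1/4`. -/
theorem Sn_PP (h : Cf Y K B g) (hρ : Rh Y K B g ρ) (hκ : 0 < κ) (hγ : Gm Y g κ 1 γ)
    (hA : NoArr Y) : ∃ k n : ℕ, 1 ≤ n ∧ ∀ m ≥ k, ∀ M ≥ n + m, ∃ i < n, ∃ j < n, (i ≠ 0 ∨ j ≠ 0) ∧
      1 / (2 * B) ≤ PP Y g M fun u v => Dn g γ (wn i m u) (wn j m v) *
        ind (∀ s ≤ M, ∀ t ≤ M, (s ≠ 0 ∨ t ≠ 0) → Y.sm (u.take s) ≠ Y.sm (v.take t)) := by
  have hK : 1 ≤ K := one_le_K h
  have hB : 1 ≤ B := B_ge h
  have hK0 : 0 < K := by linarith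
  have hB0 : 0 < B := by linarith
  have hc0 : 0 < K ^ 2 + 1 + B * K ^ 2 := by positivity
  obtain ⟨ε, hε⟩ : ∃ ε : ℝ, ε = 1 / (4 * (K ^ 2 + 1 + B * K ^ 2)) := ⟨_, rfl⟩
  have hε0 : 0 < ε := by rw [hε]; positivity
  have hε1 : (K ^ 2 + 1 + B * K ^ 2) * ε = 1 / 4 := by
    rw [hε]; field_simp
  obtain ⟨k, hk⟩ := Dn_mart h hκ hγ hε0
  obtain ⟨n0, hn0⟩ := exists_nat_ge (2 / κ)
  obtain ⟨n, hn, hS⟩ := Sn_rho h hρ hκ hγ hA hε0 hk (max 1 n0)
  have hn1 : 1 ≤ n := (le_max_left _ _).trans hn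
  have hn2 : 2 / κ ≤ n := hn0.trans (by exact_mod_cast (le_max_right _ _).trans hn)
  have hn3 : (κ ^ 2)⁻¹ ≤ (n : ℝ) ^ 2 / 4 := by
    have h1 : 2 ≤ n * κ := (div_le_iff₀ hκ).mp hn2
    rw [inv_le_comm₀ (by positivity) (by positivity), inv_div, div_le_iff₀ (by positivity)]
    nlinarith
  refine ⟨k, n, hn1, fun m hm M hM => ?_⟩
  by_contra hcon
  push Not at hcon
  have hS1 := hS M (by omega)
  have hD1 := Sn_diff h hm hn1 hM (hk m hm)
  have hn0' : (0 : ℝ) < n := by exact_mod_cast hn1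
  -- from `k` to `m`
  have h1 : (Y.E M fun u => Y.E M fun v => ρ (bar Y u ++ v) * Sn g γ k n u v) -
      (Y.E M fun u => Y.E M fun v => ρ (bar Y u ++ v) * Sn g γ m n u v) ≤ B * (K ^ 2 * ε) := by
    rw [← Y.E_fsub]
    refine le_trans ?_ (mul_le_mul_of_nonneg_left hD1 hB0.le)
    refine le_trans ?_ (Sn_PP_le hρ M fun u v => abs_nonneg _)
    refine Y.E_mono fun u _ => ?_
    rw [← Y.E_fsub]
    refine Y.E_mono fun v _ => ?_
    rw [← mul_sub]
    refine mul_le_mul_of_nonneg_left ?_ (hρ.nonneg _)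
    rw [abs_sub_comm]
    exact le_abs_self _
  rw [Sn_PP_lin ρ γ M m n] at h1
  -- the terms
  have h2 : ∀ i ∈ range n, ∀ j ∈ range n,
      (Y.E M fun u => Y.E M fun v => ρ (bar Y u ++ v) * Dn g γ (wn i m u) (wn j m v)) ≤
        1 / 2 + (if i = 0 then (if j = 0 then ((κ ^ 2)⁻¹ - 1 / 2) else 0) else 0) := by
    intro i hi j hj
    rw [Finset.mem_range] at hi hj
    by_cases hij : i = 0 ∧ j = 0
    · rw [if_pos hij.1, if_pos hij.2]
      have h3 : (Y.E M fun u => Y.E M fun v => ρ (bar Y u ++ v) * Dn g γ (wn i m u) (wn j m v)) ≤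
          Y.E M fun u => Y.E M fun v => ρ (bar Y u ++ v) * (κ ^ 2)⁻¹ := by
        refine Y.E_mono fun u _ => Y.E_mono fun v _ => ?_
        refine mul_le_mul_of_nonneg_left ?_ (hρ.nonneg _)
        have := (Dn_facts h hκ hγ (wn i m u) (wn j m v)).2.1
        rw [← one_div, le_div_iff₀ (by positivity)]
        linarith
      have h4 : (Y.E M fun u => Y.E M fun v => ρ (bar Y u ++ v) * (κ ^ 2)⁻¹) = (κ ^ 2)⁻¹ := by
        simp_rw [Y.E_mul_right]
        rw [rho_mass h hρ M, one_mul]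
      linarith
    · have hij' : i ≠ 0 ∨ j ≠ 0 := by
        by_contra hc
        push Not at hc
        exact hij hc
      have h3 := (hcon i hi j hj hij').le
      have e0 : (if i = 0 then (if j = 0 then ((κ ^ 2)⁻¹ - 1 / 2) else 0) else (0 : ℝ)) = 0 := by
        rcases hij' with h' | h'
        · rw [if_neg h']
        · rw [if_neg h', ite_self]
      rw [e0, add_zero]
      have h4 : (Y.E M fun u => Y.E M fun v => ρ (bar Y u ++ v) *
          Dn g γ (wn i m u) (wn j m v)) ≤ Y.E M fun u => Y.E M fun v => ρ (bar Y u ++ v) *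
          (Dn g γ (wn i m u) (wn j m v) *
          ind (∀ s ≤ M, ∀ t ≤ M, (s ≠ 0 ∨ t ≠ 0) → Y.sm (u.take s) ≠ Y.sm (v.take t))) := by
        refine Y.E_mono fun u hu => Y.E_mono fun v hv => ?_
        by_cases h0 : ρ (bar Y u ++ v) = 0
        · rw [h0, zero_mul, zero_mul]
        · rw [ind_of, mul_one]
          intro s hs t ht hst
          exact rho_disj h hρ h0 (by omega) (by omega) hst
      refine h4.trans ((Sn_PP_le hρ M fun u v =>
        mul_nonneg (Dn_facts h hκ hγ _ _).1 (ind_nonneg _)).trans ?_)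
      calc _ ≤ B * (1 / (2 * B)) := mul_le_mul_of_nonneg_left h3 hB0.le
        _ = 1 / 2 := by field_simp
  have h5 : (∑ i ∈ range n, ∑ j ∈ range n,
      Y.E M fun u => Y.E M fun v => ρ (bar Y u ++ v) * Dn g γ (wn i m u) (wn j m v)) ≤
      (n : ℝ) ^ 2 / 2 + ((κ ^ 2)⁻¹ - 1 / 2) := by
    refine (Finset.sum_le_sum fun i hi => Finset.sum_le_sum fun j hj => h2 i hi j hj).trans
      (le_of_eq ?_)
    have h0 : 0 ∈ range n := Finset.mem_range.mpr (by omega)
    have e1 : ∀ i ∈ range n, (∑ j ∈ range n, ((1 : ℝ) / 2 +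
        (if i = 0 then (if j = 0 then ((κ ^ 2)⁻¹ - 1 / 2) else 0) else 0))) =
        n * (1 / 2) + (if i = 0 then ((κ ^ 2)⁻¹ - 1 / 2) else 0) := by
      intro i _
      rw [Finset.sum_add_distrib, Finset.sum_const, Finset.card_range, nsmul_eq_mul]
      congr 1
      split_ifs with hi0
      · rw [Finset.sum_ite_eq', if_pos h0]
      · rw [Finset.sum_const_zero]
    rw [Finset.sum_congr rfl e1, Finset.sum_add_distrib, Finset.sum_const, Finset.card_range,
      nsmul_eq_mul, Finset.sum_ite_eq', if_pos h0]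
    ring
  have h6 : 3 / 4 ≤ ((n : ℝ) ^ 2)⁻¹ * ((n : ℝ) ^ 2 / 2 + ((κ ^ 2)⁻¹ - 1 / 2)) := by
    refine le_trans ?_ (mul_le_mul_of_nonneg_left h5 (by positivity))
    nlinarith
  rw [inv_mul_eq_div, le_div_iff₀ (by positivity)] at h6
  linarith
-- END Sn_PP

-- BEGIN arrow_main
private theorem arrow_main_take (h : Cf Y K B g) {p q M : ℕ} (hp : p ≤ M) (hq : q ≤ M)
    (ψ : List S → List S → ℝ) :
    PP Y g M (fun u v => ψ (u.take p) (v.take q)) =
      Y.E p fun u => Y.E q fun v => g u * g v * ψ u v := by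
  have h1 : ∀ (r : ℕ), r ≤ M → ∀ φ : List S → ℝ,
      (Y.E M fun w => g w * φ (w.take r)) = Y.E r fun u => g u * φ u := by
    intro r hr φ
    have := E_take h r (M - r) φ
    rwa [Nat.add_sub_cancel' hr] at this
  show (Y.E M fun u => Y.E M fun v => g u * g v * ψ (u.take p) (v.take q)) = _
  have h2 : ∀ u : List S, (Y.E M fun v => g u * g v * ψ (u.take p) (v.take q)) =
      g u * (fun x => Y.E q fun v => g v * ψ x v) (u.take p) := by
    intro u
    show _ = g u * Y.E q fun v => g v * ψ (u.take p) v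
    rw [← h1 q hq (fun v => ψ (u.take p) v), ← Y.E_mul_left]
    exact Y.E_congr fun v _ => by ring
  rw [Y.E_congr fun u _ => h2 u, h1 p hp (fun x => Y.E q fun v => g v * ψ x v)]
  refine Y.E_congr fun u _ => ?_
  rw [← Y.E_mul_left]
  exact Y.E_congr fun v _ => by ring

private theorem arrow_main_anti {q : ℝ} (hγ : Gm Y g κ q γ) (y : Zk d) {m M : ℕ} (hm : m ≤ M) :
    (Y.E M fun b => Y.E M fun b' => γ b b' * ind (Dj Y y M b b')) ≤
      Y.E m fun b => Y.E m fun b' => γ b b' * ind (Dj Y y m b b') := by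
  rw [← gam_cyl hγ hm (fun b b' => ind (Dj Y y m b b'))]
  refine Y.E_mono fun b _ => Y.E_mono fun b' _ => ?_
  refine mul_le_mul_of_nonneg_left (ind_mono fun hD => ?_) (hγ.nonneg _ _)
  intro s hs t ht
  rw [List.take_take, List.take_take, min_eq_left hs, min_eq_left ht]
  exact hD s (hs.trans hm) t (ht.trans hm)

/-- (4k). For `(i, j)` from `Sn_PP` write `u = u0 ++ b ++ ..`, `v = v0 ++ b' ++ ..`, `M = n + m`:
`g (u0 ++ b) ≤ sv u0 * g b`, so the `PP` is at most `∑ u0 v0 (masses ≤ K²) of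
Y.E m (Y.E m (γ b b' * ind (Dj Y y m b b')))`, `y = sm u0 - sm v0` (`y ≠ 0` for disjoint words:
`s = i`, `t = j`; drop the pairs with `y = 0`; disjointness of `u`, `v` up to `i + m`, `j + m`
gives `Dj Y y m b b'` since `sm (u.take (i + s)) = sm u0 + sm (b.take s)`). So for every `m ≥ k`
there is `y ≠ 0` in the finite set of differences of displacements of words of length `< n` with
mass `≥ 1 / (2 B K²)`; the mass decreases in `m` (`gam_cyl`), so one `y` works for all `m`
(infinitely many `m` share the same `y`). -/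
theorem arrow_main (h : Cf Y K B g) (hκ : 0 < κ) (hγ : Gm Y g κ 1 γ) (hA : NoArr Y) :
    ∃ y : Zk d, y ≠ 0 ∧ ∃ c : ℝ, 0 < c ∧
      ∀ m, c ≤ Y.E m fun b => Y.E m fun b' => γ b b' * ind (Dj Y y m b b') := by
  obtain ⟨ρ, hρ⟩ := exists_rho h
  obtain ⟨k, n, hn, hS⟩ := Sn_PP h hρ hκ hγ hA
  have hK : 1 ≤ K := one_le_K h
  have hB : 1 ≤ B := B_ge h
  have hK0 : 0 < K := by linarith
  have hB0 : 0 < B := by linarith
  have hKK : 0 < 4 * B * K ^ 2 := by positivity
  by_contra hcon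
  push Not at hcon
  have h1 : ∀ y : Zk d, ∃ m, y ≠ 0 →
      (Y.E m fun b => Y.E m fun b' => γ b b' * ind (Dj Y y m b b')) < 1 / (4 * B * K ^ 2) := by
    intro y
    by_cases hy : y = 0
    · exact ⟨0, fun h => absurd hy h⟩
    · obtain ⟨m, hm⟩ := hcon y hy (1 / (4 * B * K ^ 2)) (by positivity)
      exact ⟨m, fun _ => hm⟩
  choose mm hmm using h1
  have hfin : ({l : List S | l.length < n}).Finite := List.finite_length_lt S n
  obtain ⟨M0, hM0⟩ := ((hfin.prod hfin).image fun p => mm (Y.sm p.1 - Y.sm p.2)).bddAbove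
  obtain ⟨m, hmk, hmM⟩ : ∃ m, k ≤ m ∧ M0 ≤ m := ⟨max k M0, le_max_left _ _, le_max_right _ _⟩
  obtain ⟨i, hi, j, hj, hij, hP⟩ := hS m hmk (n + m) le_rfl
  -- the mass for a difference of displacements of short words
  have h2 : ∀ u0 v0 : List S, u0.length = i → v0.length = j →
      (Y.E m fun b => Y.E m fun b' => γ b b' *
        ind (Y.sm u0 - Y.sm v0 ≠ 0 ∧ Dj Y (Y.sm u0 - Y.sm v0) m b b')) ≤ 1 / (4 * B * K ^ 2) := by
    intro u0 v0 hu hv
    by_cases hy : Y.sm u0 - Y.sm v0 = 0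
    · have : (Y.E m fun b => Y.E m fun b' => γ b b' *
          ind (Y.sm u0 - Y.sm v0 ≠ 0 ∧ Dj Y (Y.sm u0 - Y.sm v0) m b b')) = 0 := by
        rw [← Y.E_zero_fun m]
        refine Y.E_congr fun b _ => ?_
        rw [← Y.E_zero_fun m]
        refine Y.E_congr fun b' _ => ?_
        rw [ind_not (fun hh => hh.1 hy), mul_zero]
      rw [this]
      positivity
    · have h3 : mm (Y.sm u0 - Y.sm v0) ≤ m :=
        (hM0 ⟨(u0, v0), ⟨show u0.length < n by omega, show v0.length < n by omega⟩,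
          rfl⟩).trans hmM
      refine le_trans ?_ ((arrow_main_anti hγ _ h3).trans (hmm _ hy).le)
      refine Y.E_mono fun b _ => Y.E_mono fun b' _ => ?_
      exact mul_le_mul_of_nonneg_left (ind_mono fun hh => hh.2) (hγ.nonneg _ _)
  -- the function of the two prefixes
  obtain ⟨ψ, hψ⟩ : ∃ ψ : List S → List S → ℝ, ψ = fun x x' =>
      Dn g γ (x.drop i) (x'.drop j) * ind (Y.sm (x.take i) - Y.sm (x'.take j) ≠ 0 ∧
        Dj Y (Y.sm (x.take i) - Y.sm (x'.take j)) m (x.drop i) (x'.drop j)) := ⟨_, rfl⟩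
  have h4 : (PP Y g (n + m) fun u v => Dn g γ (wn i m u) (wn j m v) *
      ind (∀ s ≤ n + m, ∀ t ≤ n + m, (s ≠ 0 ∨ t ≠ 0) → Y.sm (u.take s) ≠ Y.sm (v.take t))) ≤
      PP Y g (n + m) fun u v => ψ (u.take (i + m)) (v.take (j + m)) := by
    refine PP_mono h _ fun u v hu hv _ _ => ?_
    rw [hψ]
    have e1 : ∀ (x : List S) (r : ℕ), (x.take (r + m)).drop r = wn r m x := by
      intro x r
      rw [wn, List.drop_take]
      congr 1
      omega
    have e2 : ∀ (x : List S) (r : ℕ), (x.take (r + m)).take r = x.take r := by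
      intro x r
      rw [List.take_take, min_eq_left (by omega)]
    simp only [e1, e2]
    refine mul_le_mul_of_nonneg_left (ind_mono fun hh => ⟨?_, ?_⟩) (Dn_facts h hκ hγ _ _).1
    · intro h0
      exact hh i (by omega) j (by omega) hij (sub_eq_zero.mp h0)
    · intro s hs t ht h0
      have e3 : ∀ (x : List S) (r s : ℕ), s ≤ m →
          Y.sm (x.take (r + s)) = Y.sm (x.take r) + Y.sm ((wn r m x).take s) := by
        intro x r s hs
        rw [List.take_add, Y.sm_append, wn, List.take_take, min_eq_left hs]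
      refine hh (i + s) (by omega) (j + t) (by omega) (by omega) ?_
      rw [e3 u i s hs, e3 v j t ht, ← h0]
      abel
  have h5 : (PP Y g (n + m) fun u v => ψ (u.take (i + m)) (v.take (j + m))) ≤
      1 / (4 * B) := by
    rw [arrow_main_take h (by omega) (by omega) ψ, Y.E_add i m, hψ]
    have h6 : ∀ u0 : List S, u0.length = i → (Y.E m fun b => Y.E (j + m) fun v =>
        g (u0 ++ b) * g v * (Dn g γ ((u0 ++ b).drop i) (v.drop j) *
        ind (Y.sm ((u0 ++ b).take i) - Y.sm (v.take j) ≠ 0 ∧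
          Dj Y (Y.sm ((u0 ++ b).take i) - Y.sm (v.take j)) m ((u0 ++ b).drop i) (v.drop j)))) ≤
        Y.sv u0 * (K * (1 / (4 * B * K ^ 2))) := by
      intro u0 hu0
      have h7 : ∀ b : List S, (Y.E (j + m) fun v =>
          g (u0 ++ b) * g v * (Dn g γ ((u0 ++ b).drop i) (v.drop j) *
          ind (Y.sm ((u0 ++ b).take i) - Y.sm (v.take j) ≠ 0 ∧
            Dj Y (Y.sm ((u0 ++ b).take i) - Y.sm (v.take j)) m ((u0 ++ b).drop i) (v.drop j)))) ≤
          Y.E j fun v0 => Y.E m fun b' => Y.sv u0 * Y.sv v0 * (γ b b' *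
            ind (Y.sm u0 - Y.sm v0 ≠ 0 ∧ Dj Y (Y.sm u0 - Y.sm v0) m b b')) := by
        intro b
        rw [Y.E_add j m]
        refine Y.E_mono fun v0 hv0 => Y.E_mono fun b' _ => ?_
        rw [List.drop_left' hu0, List.drop_left' hv0, List.take_left' hu0, List.take_left' hv0]
        have g1 : ∀ x y : List S, g (x ++ y) ≤ Y.sv x * g y := fun x y =>
          (g_append_le h x y).trans
            (mul_le_mul_of_nonneg_right (Y.sv_append_left x y) (h.nonneg y))
        have g2 : g (u0 ++ b) * g (v0 ++ b') ≤ (Y.sv u0 * g b) * (Y.sv v0 * g b') :=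
          mul_le_mul (g1 _ _) (g1 _ _) (h.nonneg _) (mul_nonneg (Y.sv_nonneg _) (h.nonneg _))
        obtain ⟨d1, _, d3⟩ := Dn_facts h hκ hγ b b'
        calc g (u0 ++ b) * g (v0 ++ b') * (Dn g γ b b' * ind (Y.sm u0 - Y.sm v0 ≠ 0 ∧
              Dj Y (Y.sm u0 - Y.sm v0) m b b'))
            ≤ ((Y.sv u0 * g b) * (Y.sv v0 * g b')) * (Dn g γ b b' *
              ind (Y.sm u0 - Y.sm v0 ≠ 0 ∧ Dj Y (Y.sm u0 - Y.sm v0) m b b')) :=
              mul_le_mul_of_nonneg_right g2 (mul_nonneg d1 (ind_nonneg _))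
          _ = Y.sv u0 * Y.sv v0 * ((g b * g b' * Dn g γ b b') *
              ind (Y.sm u0 - Y.sm v0 ≠ 0 ∧ Dj Y (Y.sm u0 - Y.sm v0) m b b')) := by ring
          _ = _ := by rw [d3]
      refine (Y.E_mono fun b _ => h7 b).trans ?_
      rw [Y.E_comm m j]
      have h8 : ∀ v0 : List S, v0.length = j → (Y.E m fun b => Y.E m fun b' =>
          Y.sv u0 * Y.sv v0 * (γ b b' *
            ind (Y.sm u0 - Y.sm v0 ≠ 0 ∧ Dj Y (Y.sm u0 - Y.sm v0) m b b'))) ≤
          Y.sv v0 * (Y.sv u0 * (1 / (4 * B * K ^ 2))) := by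
        intro v0 hv0
        have e : (Y.E m fun b => Y.E m fun b' =>
          Y.sv u0 * Y.sv v0 * (γ b b' *
            ind (Y.sm u0 - Y.sm v0 ≠ 0 ∧ Dj Y (Y.sm u0 - Y.sm v0) m b b'))) =
            Y.sv u0 * Y.sv v0 * (Y.E m fun b => Y.E m fun b' => γ b b' *
              ind (Y.sm u0 - Y.sm v0 ≠ 0 ∧ Dj Y (Y.sm u0 - Y.sm v0) m b b')) := by
          rw [← Y.E_mul_left]
          exact Y.E_congr fun b _ => by rw [← Y.E_mul_left]
        rw [e]
        calc Y.sv u0 * Y.sv v0 * (Y.E m fun b => Y.E m fun b' => γ b b' *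
              ind (Y.sm u0 - Y.sm v0 ≠ 0 ∧ Dj Y (Y.sm u0 - Y.sm v0) m b b'))
            ≤ Y.sv u0 * Y.sv v0 * (1 / (4 * B * K ^ 2)) :=
              mul_le_mul_of_nonneg_left (h2 u0 v0 hu0 hv0)
                (mul_nonneg (Y.sv_nonneg _) (Y.sv_nonneg _))
          _ = _ := by ring
      refine (Y.E_mono fun v0 hv0 => h8 v0 hv0).trans ?_
      rw [Y.E_mul_right]
      calc Y.a j * (Y.sv u0 * (1 / (4 * B * K ^ 2))) ≤ K * (Y.sv u0 * (1 / (4 * B * K ^ 2))) :=
            mul_le_mul_of_nonneg_right (h.a_le j) (mul_nonneg (Y.sv_nonneg _) (by positivity))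
        _ = _ := by ring
    refine (Y.E_mono fun u0 hu0 => h6 u0 hu0).trans ?_
    rw [Y.E_mul_right]
    calc Y.a i * (K * (1 / (4 * B * K ^ 2))) ≤ K * (K * (1 / (4 * B * K ^ 2))) :=
          mul_le_mul_of_nonneg_right (h.a_le i) (by positivity)
      _ = 1 / (4 * B) := by field_simp
  have h9 : 1 / (2 * B) ≤ 1 / (4 * B) := hP.trans (h4.trans h5)
  rw [div_le_div_iff₀ (by positivity) (by positivity)] at h9
  linarith
-- END arrow_main

end lat

end Pool.Agent.Taw
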